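import Pool.Agent.H4R2.TD.Fin
import Pool.Agent.H4R2.HU.Two

/-! Both edges (two dimensions). -/

set_option autoImplicit false

open scoped BigOperators ENNReal
open MeasureTheory Filter

namespace Pool.Agent.H4R2.TD.Both

open Pool.Agent.H4R2.LO (Zd Reg)

/-- both edges, from the lower edge for the laws of `V` and `-V` -/
theorem both (μ ν : Measure ℝ) [IsProbabilityMeasure μ] [IsProbabilityMeasure ν]
    (hν : μ.map (fun t => -t) = ν) (lam e r : ℝ)
    (h : ∀ᵐ ω ∂(Measure.infinitePi fun _ : Zd 2 => μ),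
      Pool.Agent.H4R2.LO.Main.Dec 2 (-1) (fun x => lam * ω x) (Set.Iic (-e - 4)) r)
    (h' : ∀ᵐ ω ∂(Measure.infinitePi fun _ : Zd 2 => ν),
      Pool.Agent.H4R2.LO.Main.Dec 2 (-1) (fun x => lam * ω x) (Set.Iic (-e - 4)) r) :
    ∀ᵐ ω ∂(Measure.infinitePi fun _ : Zd 2 => μ),
      Pool.Agent.H4R2.LO.Main.Dec 2 (-1) (fun x => lam * ω x + 4) {E | E ≤ -e ∨ 8 + e ≤ E} r := by
  have hB : ∀ᵐ ω ∂(Measure.infinitePi fun _ : Fin 2 → ℤ => μ),
      Pool.Agent.H4R2.LO.Main.Dec 2 (-1) (fun x => -(lam * ω x)) (Set.Iic (-e - 4)) r := by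
    have h2 := Pool.Agent.H4R2.HU.Two.law_map 2 μ ν (fun t => -t) (by fun_prop) hν
    have h3 := h'
    rw [← h2] at h3
    have hm2 : Measurable (fun (ω : (Fin 2 → ℤ) → ℝ) x => -ω x) := by fun_prop
    have h4 := ae_of_ae_map hm2.aemeasurable h3
    filter_upwards [h4] with ω hω
    have e1 : (fun x => lam * -ω x) = fun x => -(lam * ω x) := by funext x; ring
    rw [← e1]
    exact hω
  filter_upwards [h, hB] with ω hω hω'
  have e1 := Pool.Agent.H4R2.LO.Main.dec_shift (-1) 4 _ _ r hω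
  have e0 := Pool.Agent.H4R2.LO.Main.dec_stag _ _ _ r hω'
  rw [neg_neg] at e0
  have e2 := Pool.Agent.H4R2.LO.Main.dec_shift (-1) 4 _ _ r
    (Pool.Agent.H4R2.LO.Main.dec_neg 1 _ _ r e0)
  simp only [neg_neg] at e2
  refine Pool.Agent.H4R2.LO.Main.dec_mono _ _ _ _ _ _
    (Pool.Agent.H4R2.LO.Main.dec_union _ _ _ _ r e1 e2) ?_ le_rfl
  rintro E (hE | hE)
  · left
    simp only [Set.mem_setOf_eq, Set.mem_Iic]
    linarith
  · right
    simp only [Set.mem_setOf_eq, Set.mem_Iic]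
    linarith

/-- laws with density at most `D` on `[-1,1]` and mean zero -/
theorem bdd (hLC : S_LC) (hLW : S_LW) (μ : Measure ℝ) [IsProbabilityMeasure μ]
    (h1 : μ (Set.Icc (-1) 1)ᶜ = 0) (h0 : ∫ t, t ∂μ = 0) (D : ℝ)
    (h2 : μ ≤ ENNReal.ofReal D • (volume : Measure ℝ)) :
    ∃ K c0 : ℝ, 0 < K ∧ 0 < c0 ∧ ∀ lam : ℝ, 0 < lam → lam ≤ 1 → ∀ e : ℝ,
      K * lam ^ 2 * Real.log (2 / lam) ≤ e → e ≤ 1 →
      ∀ᵐ ω ∂(Measure.infinitePi fun _ : Zd 2 => μ),
        Pool.Agent.H4R2.LO.Main.Dec 2 (-1) (fun x => lam * ω x) (Set.Iic (-e - 4))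
          (c0 * Real.sqrt e / Real.log (2 / lam)) := by
  have h2' : μ ≤ ENNReal.ofReal (max D 1) • (volume : Measure ℝ) := by
    refine h2.trans ?_
    intro s
    simp only [Measure.smul_apply, smul_eq_mul]
    exact mul_le_mul' (ENNReal.ofReal_le_ofReal (le_max_left _ _)) le_rfl
  exact Fin.lower hLC μ _ 1 (Pool.Agent.H4R2.LO.Lw.reg_bdd μ (max D 1)
    (lt_of_lt_of_le one_pos (le_max_right _ _)) h1 h2') (hLW.1 μ h1 h0)

theorem neg_law (μ : Measure ℝ) (h1 : μ (Set.Icc (-1) 1)ᶜ = 0) (h0 : ∫ t, t ∂μ = 0) (D : ℝ)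
    (h2 : μ ≤ ENNReal.ofReal D • (volume : Measure ℝ)) :
    (μ.map fun t => -t) (Set.Icc (-1) 1)ᶜ = 0 ∧ ∫ t, t ∂(μ.map fun t => -t) = 0 ∧
      (μ.map fun t => -t) ≤ ENNReal.ofReal D • (volume : Measure ℝ) := by
  refine ⟨?_, ?_, ?_⟩
  · rw [Measure.map_apply measurable_neg measurableSet_Icc.compl]
    have : (fun t : ℝ => -t) ⁻¹' (Set.Icc (-1) 1)ᶜ = (Set.Icc (-1) 1)ᶜ := by
      ext t
      simp only [Set.mem_preimage, Set.mem_compl_iff, Set.mem_Icc, not_iff_not]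
      constructor
      · rintro ⟨a, b⟩; constructor <;> linarith
      · rintro ⟨a, b⟩; constructor <;> linarith
    rw [this]
    exact h1
  · rw [integral_map measurable_neg.aemeasurable (by fun_prop), integral_neg, h0, neg_zero]
  · refine Measure.le_iff.2 fun s hs => ?_
    rw [Measure.map_apply measurable_neg hs]
    refine (h2 _).trans (le_of_eq ?_)
    rw [Measure.smul_apply, Measure.smul_apply, smul_eq_mul, smul_eq_mul]
    congr 1
    have : (fun t : ℝ => -t) ⁻¹' s = -s := rfl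
    rw [this, Measure.measure_neg]

/-- admissible laws: the standard Gaussian, and laws on `[-1,1]` with mean zero and bounded
density -/
def Law (μ : Measure ℝ) : Prop := μ = ProbabilityTheory.gaussianReal 0 1 ∨
  (μ (Set.Icc (-1) 1)ᶜ = 0 ∧ ∫ t, t ∂μ = 0 ∧
    ∃ D : ℝ, μ ≤ ENNReal.ofReal D • (volume : Measure ℝ))

theorem main (hLC : S_LC) (hLW : S_LW) (μ : Measure ℝ) [IsProbabilityMeasure μ] (hμ : Law μ) :
    ∃ K c0 : ℝ, 0 < K ∧ 0 < c0 ∧ ∀ lam : ℝ, 0 < lam → lam ≤ 1 → ∀ e : ℝ,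
      K * lam ^ 2 * Real.log (2 / lam) ≤ e → e ≤ 1 →
      ∀ᵐ ω ∂(Measure.infinitePi fun _ : Zd 2 => μ),
        Pool.Agent.H4R2.LO.Main.Dec 2 (-1) (fun x => lam * ω x + 4) {E | E ≤ -e ∨ 8 + e ≤ E}
          (c0 * Real.sqrt e / Real.log (2 / lam)) := by
  rcases hμ with rfl | ⟨h1, h0, D, h2⟩
  · obtain ⟨K, c0, hK, hc0, h⟩ := Fin.lower hLC (ProbabilityTheory.gaussianReal 0 1) 1 1
      Pool.Agent.H4R2.LO.Lw.reg_gauss hLW.2
    refine ⟨K, c0, hK, hc0, fun lam hl hl1 e he he1 => ?_⟩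
    exact both _ _ (by
      have := ProbabilityTheory.gaussianReal_map_neg (μ := 0) (v := 1)
      rw [neg_zero] at this
      exact this) lam e _ (h lam hl hl1 e he he1) (h lam hl hl1 e he he1)
  · obtain ⟨K, c0, hK, hc0, h⟩ := bdd hLC hLW μ h1 h0 D h2
    obtain ⟨g1, g0, g2⟩ := neg_law μ h1 h0 D h2
    have hP : IsProbabilityMeasure (μ.map fun t => -t) :=
      Measure.isProbabilityMeasure_map measurable_neg.aemeasurable
    obtain ⟨K', c0', hK', hc0', h'⟩ := bdd hLC hLW (μ.map fun t => -t) g1 g0 D g2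
    refine ⟨max K K', min c0 c0', lt_max_of_lt_left hK, lt_min hc0 hc0',
      fun lam hl hl1 e he he1 => ?_⟩
    have hl0 := Fin.log2_bounds hl hl1
    have hl0' : 0 < Real.log (2 / lam) := by linarith
    have hll : 0 ≤ lam ^ 2 * Real.log (2 / lam) := by positivity
    have k1 : K * lam ^ 2 * Real.log (2 / lam) ≤ e := by
      refine le_trans ?_ he
      rw [mul_assoc, mul_assoc]
      exact mul_le_mul_of_nonneg_right (le_max_left _ _) hll
    have k2 : K' * lam ^ 2 * Real.log (2 / lam) ≤ e := by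
      refine le_trans ?_ he
      rw [mul_assoc, mul_assoc]
      exact mul_le_mul_of_nonneg_right (le_max_right _ _) hll
    refine both μ _ rfl lam e _ ?_ ?_
    · filter_upwards [h lam hl hl1 e k1 he1] with ω hω
      refine Pool.Agent.H4R2.LO.Main.dec_mono _ _ _ _ _ _ hω le_rfl ?_
      have : min c0 c0' ≤ c0 := min_le_left _ _
      gcongr
    · filter_upwards [h' lam hl hl1 e k2 he1] with ω hω
      refine Pool.Agent.H4R2.LO.Main.dec_mono _ _ _ _ _ _ hω le_rfl ?_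
      have : min c0 c0' ≤ c0' := min_le_right _ _
      gcongr

end Pool.Agent.H4R2.TD.Both
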