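import Pool.Agent.H4R2.HU.Low

/-!
# Definitions for: the two-dimensional Anderson model near the band edges (helper4, team TD)
-/

set_option autoImplicit false

open scoped BigOperators ENNReal
open MeasureTheory

namespace Pool.Agent.H4R2.TD

open Pool.Agent.H4R2.LO (Zd dd adj AL bx FB cut Reg)
open Pool.Agent.H4R2.HD (Av Gn ind)
open Pool.Agent.H4R2.HU.Low (LocB)

/-- extension by zero -/
noncomputable def Wz {d : ℕ} (Λ : Finset (Zd d)) (V : Λ → ℝ) (x : Zd d) : ℝ :=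
  if h : x ∈ Λ then V ⟨x, h⟩ else 0

/-- sub-Gaussian with variance proxy `b` -/
def SubG (b : ℝ) (μ : Measure ℝ) : Prop :=
  0 < b ∧ ∀ s : ℝ, Integrable (fun t => Real.exp (s * t)) μ ∧
    ∫ t, Real.exp (s * t) ∂μ ≤ Real.exp (b * s ^ 2 / 2)

/-! ### K2: the kernel in two dimensions -/

def S_K2 : Prop := ∀ (n : ℕ) (z x : Zd 2), (Av^[n] (ind z)) x ≤ 2 / ((n : ℝ) + 1)

def S_G2 : Prop := ∀ (N : ℕ) (z x : Zd 2), 1 ≤ N → Gn N (ind z) x ≤ (1 + Real.log N) / 2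

/-! ### GE: the Dirichlet energy of the parametrix -/

/-- symmetry and translation invariance -/
def S_SY : Prop := ∀ {d : ℕ} (n : ℕ) (z x w : Zd d),
  (Av^[n] (ind z)) x = (Av^[n] (ind x)) z ∧ (Av^[n] (ind (z + w))) (x + w) = (Av^[n] (ind z)) x

def S_GE : Prop := ∀ {d : ℕ}, 1 ≤ d → ∀ (N : ℕ) (F : Finset (Zd d)) (x : Zd d) (i : Fin d),
  ∑ z ∈ F, (Gn N (ind z) (x + Pi.single i 1) - Gn N (ind z) x) ^ 2 ≤ Gn N (ind (0 : Zd d)) 0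

/-- the `ℓ²` norm of the kernel -/
def S_L2 : Prop := ∀ (N : ℕ) (F : Finset (Zd 2)) (x : Zd 2),
  ∑ z ∈ F, ((Av^[N] (ind z)) x) ^ 2 ≤ 2 / ((N : ℝ) + 1)

/-- linearity: `Avⁿ` and `Gn` of the zero extension -/
def S_LI : Prop := ∀ {d : ℕ} (Λ : Finset (Zd d)) (V : Λ → ℝ) (n : ℕ) (x : Zd d),
  (Av^[n] (Wz Λ V)) x = ∑ z : Λ, (Av^[n] (ind z.1)) x * V z ∧
  Gn n (Wz Λ V) x = ∑ z : Λ, Gn n (ind z.1) x * V z

/-! ### SG: linear concentration -/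

def S_SG : Prop := ∀ {ι : Type} [Fintype ι] (μ : Measure ℝ) [IsProbabilityMeasure μ] (b : ℝ),
  SubG b μ → ∀ (a : ι → ℝ) (S t : ℝ), ∑ z, a z ^ 2 ≤ S → 0 < S → 0 ≤ t →
  (Measure.pi fun _ : ι => μ).real {V | t < |∑ z, a z * V z|} ≤
    2 * Real.exp (-(t ^ 2 / (2 * b * S)))

/-! ### FF: form bound from a vector potential -/

def S_FF : Prop := ∀ {d : ℕ} (Λ : Finset (Zd d)) (Ω : Finset Λ) (V : Λ → ℝ) (lam M η : ℝ)
  (g : Zd d → ℝ), 0 ≤ lam → 0 ≤ M → 0 ≤ η →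
  (∀ x ∈ Ω, ∀ i : Fin d, |g (x.1 + Pi.single i 1) - g x.1| ≤ M ∧
    |g x.1 - g (x.1 - Pi.single i 1)| ≤ M) →
  (∀ x ∈ Ω, |V x - (2 * d * g x.1 - ∑ i : Fin d, (g (x.1 + Pi.single i 1) +
    g (x.1 - Pi.single i 1)))| ≤ η) →
  FB (AL Λ) Ω lam V (-(d * lam ^ 2 * M ^ 2 + lam * η) - 2 * d)

/-! ### LB: the local form bound in two dimensions -/

def S_LB : Prop := ∀ (μ : Measure ℝ) [IsProbabilityMeasure μ] (b : ℝ), SubG b μ →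
  ∀ (lam τ L0 : ℝ) (N : ℕ), 0 < lam → lam ≤ 1 → 0 < τ → 1 / lam ^ 2 ≤ N →
  LocB 2 L0 μ lam (-(2 * b * lam ^ 2 * (1 + Real.log N) * τ + 2 * lam ^ 2 * Real.sqrt (b * τ)))
    (L0 ^ 2 * (10 * Real.exp (-τ)))

/-! ### LW: laws -/

/-- laws on `[-1,1]` with mean zero are sub-Gaussian -/
def S_LW : Prop := (∀ (μ : Measure ℝ) [IsProbabilityMeasure μ], μ (Set.Icc (-1) 1)ᶜ = 0 →
    ∫ t, t ∂μ = 0 → SubG 1 μ) ∧ SubG 1 (ProbabilityTheory.gaussianReal 0 1)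

end Pool.Agent.H4R2.TD
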