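import Pool.Agent.H4R2.TD.Defs

/-!
# Definitions for: the two-dimensional Anderson model near the band edges, sharp order `lam² log`
(helper4, team TD)
-/

set_option autoImplicit false

open scoped BigOperators ENNReal
open MeasureTheory

namespace Pool.Agent.H4R2.TD

open Pool.Agent.H4R2.LO (Zd dd adj AL bx FB cut Reg)
open Pool.Agent.H4R2.HD (Av Gn ind)
open Pool.Agent.H4R2.HU.Low (LocB)

/-- sum over the neighbours -/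
def nb {d : ℕ} (g : Zd d → ℝ) (x : Zd d) : ℝ :=
  ∑ i : Fin d, (g (x + Pi.single i 1) + g (x - Pi.single i 1))

/-- squared gradient (all `2 d` directions) -/
def Qg {d : ℕ} (g : Zd d → ℝ) (x : Zd d) : ℝ :=
  ∑ i : Fin d, ((g (x + Pi.single i 1) - g x) ^ 2 + (g x - g (x - Pi.single i 1)) ^ 2)

/-! ### GQ, HW: exponential moments of positive quadratic forms -/

def S_GQ : Prop := ∀ {κ : Type} [Fintype κ] [DecidableEq κ] (S : Matrix κ κ ℝ), S.PosSemidef →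
  (∀ ξ : κ → ℝ, ξ ⬝ᵥ S.mulVec ξ ≤ (1 / 4) * ∑ k, ξ k ^ 2) →
  Integrable (fun ξ : κ → ℝ => Real.exp (ξ ⬝ᵥ S.mulVec ξ))
    (Measure.pi fun _ : κ => ProbabilityTheory.gaussianReal 0 1) ∧
  ∫ ξ, Real.exp (ξ ⬝ᵥ S.mulVec ξ) ∂(Measure.pi fun _ : κ => ProbabilityTheory.gaussianReal 0 1) ≤
    Real.exp (2 * S.trace)

def S_HW : Prop := ∀ {ι κ : Type} [Fintype ι] [Fintype κ] (μ : Measure ℝ)
  [IsProbabilityMeasure μ] (b : ℝ), SubG b μ → ∀ (a : κ → ι → ℝ) (S θ τ : ℝ), 0 < θ → 0 ≤ τ →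
  (∀ f : ι → ℝ, ∑ k, (∑ z, a k z * f z) ^ 2 ≤ θ * ∑ z, f z ^ 2) →
  ∑ k, ∑ z, a k z ^ 2 ≤ S →
  (Measure.pi fun _ : ι => μ).real {V | 2 * b * S + 4 * b * θ * τ < ∑ k, (∑ z, a k z * V z) ^ 2} ≤
    Real.exp (-τ)

/-! ### EX: expansion in point sources -/

def S_EX : Prop := ∀ {d : ℕ} (n : ℕ) (f : Zd d → ℝ) (x : Zd d) (B : Finset (Zd d)),
  (∀ z, dd x z ≤ n → z ∈ B) →
  (Av^[n] f) x = ∑ z ∈ B, (Av^[n] (ind z)) x * f z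

/-! ### ON: operator norms -/

/-- `∑ |∇ G f|² ≤ (2 N / d) ‖f‖²` -/
def S_ON1 : Prop := ∀ {d : ℕ}, 1 ≤ d → ∀ (N : ℕ) (Λ : Finset (Zd d)) (f : Λ → ℝ)
  (F : Finset (Zd d)), ∑ z ∈ F, Qg (Gn N (Wz Λ f)) z ≤ 2 * N / d * ∑ y, f y ^ 2

/-- a logarithmic Hardy inequality in two dimensions -/
def S_ON2 : Prop := ∀ (N : ℕ), 1 ≤ N → ∀ (x : Zd 2) (F : Zd 2 → ℝ), (Function.support F).Finite →
  ∑' z, Gn N (ind x) z * F z ^ 2 ≤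
    N / 2 * ∑' z, ∑ i : Fin 2, (F (z + Pi.single i 1) - F z) ^ 2 + ∑' z, F z ^ 2

def S_ON3 : Prop := ∀ (N : ℕ), 1 ≤ N → ∀ (Λ : Finset (Zd 2)) (f : Λ → ℝ) (F : Finset (Zd 2))
  (x : Zd 2), ∑ z ∈ F, Gn N (ind x) z * Qg (Gn N (Wz Λ f)) z ≤ 5 * N * ∑ y, f y ^ 2

/-! ### FG: form bound from a vector potential, with a supersolution -/

def S_FG : Prop := ∀ {d : ℕ} (Λ : Finset (Zd d)) (Ω : Finset Λ) (V : Λ → ℝ) (lam q η : ℝ)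
  (g h R : Zd d → ℝ), 0 ≤ lam → 0 ≤ q → 0 ≤ η → (∀ x, 0 ≤ h x) →
  (∀ x, 2 * d * h x - nb h x = Qg g x - R x) →
  (∀ x ∈ Ω, 4 * lam ^ 2 * h x.1 ≤ 1 ∧ R x.1 ≤ q ∧ |V x - (2 * d * g x.1 - nb g x.1)| ≤ η) →
  FB (AL Λ) Ω lam V (-(2 * lam ^ 2 * q + lam * η) - 2 * d)

/-! ### LC: the local form bound in two dimensions, sharp order -/

def S_LC : Prop := ∀ (μ : Measure ℝ) [IsProbabilityMeasure μ] (b : ℝ), SubG b μ →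
  ∀ (lam τ L0 : ℝ) (N : ℕ), 0 < lam → 0 < τ → 1 ≤ N →
  4 * lam ^ 2 * (N * b * (1 + Real.log N + 20 * τ)) ≤ 1 →
  LocB 2 L0 μ lam (-(2 * lam ^ 2 * (4 * b * (1 + Real.log N) + 8 * b * τ) +
    lam * Real.sqrt (4 * b * τ / (N + 1)))) (L0 ^ 2 * (4 * Real.exp (-τ)))

end Pool.Agent.H4R2.TD
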