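import Pool.Agent.H4R2.TD.Defs2

/-!
# Task EX: expansion in point sources
-/

set_option autoImplicit false

namespace Pool.Agent.H4R2.TD.EX

open Pool.Agent.H4R2.LO (Zd dd adj AL bx FB cut Reg)
open Pool.Agent.H4R2.HD (Av Gn ind)
open Pool.Agent.H4R2.TD
open Pool.Agent.H12R2.And (ee)

theorem dd_le {d : ℕ} {x z : Zd d} {n : ℕ} : dd x z ≤ n ↔ ∀ i, (x i - z i).natAbs ≤ n := by
  unfold dd
  simp [Finset.sup_le_iff]

theorem ex : S_EX := by
  intro d n
  induction n with
  | zero =>
    intro f x B hB
    have hx : x ∈ B := hB x (dd_le.mpr fun i => by simp)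
    simp only [Function.iterate_zero, id]
    rw [Finset.sum_eq_single x]
    · simp [ind]
    · intro z _ hz
      unfold ind
      rw [if_neg (fun h => hz h.symm), zero_mul]
    · intro h; exact absurd hx h
  | succ n ih =>
    intro f x B hB
    have h1 : ∀ i, ∀ z, dd (x + ee i) z ≤ n → z ∈ B := by
      intro i z hz
      refine hB z (dd_le.mpr fun j => ?_)
      have h2 := dd_le.mp hz j
      simp only [Pi.add_apply, ee] at h2
      by_cases hj : j = i
      · subst hj; simp at h2; omega
      · simp [hj] at h2; omega
    have h1' : ∀ i, ∀ z, dd (x - ee i) z ≤ n → z ∈ B := by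
      intro i z hz
      refine hB z (dd_le.mpr fun j => ?_)
      have h2 := dd_le.mp hz j
      simp only [Pi.sub_apply, ee] at h2
      by_cases hj : j = i
      · subst hj; simp at h2; omega
      · simp [hj] at h2; omega
    simp only [Function.iterate_succ_apply']
    unfold Av
    simp only [div_mul_eq_mul_div, ← Finset.sum_div, Finset.sum_mul]
    rw [Finset.sum_comm]
    congr 1
    refine Finset.sum_congr rfl fun i _ => ?_
    have e1 := ih f (x + ee i) B (h1 i)
    have e2 := ih f (x - ee i) B (h1' i)
    unfold Av at e1 e2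
    rw [e1, e2, ← Finset.sum_add_distrib]
    exact Finset.sum_congr rfl fun z _ => by ring

end Pool.Agent.H4R2.TD.EX
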