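import Pool.Agent.H4R2.TD.Defs

/-!
# FF: form bound from a vector potential
-/

set_option autoImplicit false
set_option linter.dupNamespace false

open scoped BigOperators ENNReal
open MeasureTheory

namespace Pool.Agent.H4R2.TD.FF

open Pool.Agent.H4R2.LO (Zd dd adj AL bx FB cut Reg)
open Pool.Agent.H4R2.HD (Av Gn ind)

variable {d : ℕ}

theorem adj_eq (x y : Zd d) : adj x y = -∑ k : Fin d,
    ((if y = x + Pi.single k 1 then (1 : ℝ) else 0) +
      (if y = x - Pi.single k 1 then (1 : ℝ) else 0)) := by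
  classical
  unfold adj
  split_ifs with h
  · obtain ⟨k, hk⟩ := h
    rw [Finset.sum_eq_single k]
    · rcases hk with hk | hk
      · rw [if_pos hk, if_neg]
        · norm_num
        · intro h2
          rw [hk] at h2
          have h3 := congrFun h2 k
          simp at h3
          omega
      · rw [if_pos hk, if_neg]
        · norm_num
        · intro h2
          rw [hk] at h2
          have h3 := congrFun h2 k
          simp at h3
          omega
    · intro k' _ hk'
      have e1 : (Pi.single k' 1 : Zd d) k = 0 := Pi.single_eq_of_ne hk'.symm _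
      have e2 : (Pi.single k 1 : Zd d) k = 1 := Pi.single_eq_same _ _
      rw [if_neg, if_neg]
      · norm_num
      · intro h2
        have h3 := congrFun h2 k
        rcases hk with hk | hk
        · rw [hk] at h3
          simp only [Pi.add_apply, Pi.sub_apply, e1, e2] at h3
          omega
        · rw [hk] at h3
          simp only [Pi.add_apply, Pi.sub_apply, e1, e2] at h3
          omega
      · intro h2
        have h3 := congrFun h2 k
        rcases hk with hk | hk
        · rw [hk] at h3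
          simp only [Pi.add_apply, Pi.sub_apply, e1, e2] at h3
          omega
        · rw [hk] at h3
          simp only [Pi.add_apply, Pi.sub_apply, e1, e2] at h3
          omega
    · intro h; exact absurd (Finset.mem_univ _) h
  · rw [Finset.sum_eq_zero, neg_zero]
    intro k _
    rw [if_neg (fun h2 => h ⟨k, Or.inl h2⟩), if_neg (fun h2 => h ⟨k, Or.inr h2⟩), add_zero]

theorem Wz_coe (Λ : Finset (Zd d)) (f : Λ → ℝ) (j : Λ) : Wz Λ f j.1 = f j := by
  rw [Wz, dif_pos j.2]

theorem Wz_off (Λ : Finset (Zd d)) (f : Λ → ℝ) {x : Zd d} (hx : x ∉ Λ) : Wz Λ f x = 0 := by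
  rw [Wz, dif_neg hx]

theorem sum_at (Λ : Finset (Zd d)) (f : Λ → ℝ) (z : Zd d) :
    ∑ j : Λ, (if j.1 = z then (1 : ℝ) else 0) * f j = Wz Λ f z := by
  classical
  by_cases hz : z ∈ Λ
  · rw [Finset.sum_eq_single (⟨z, hz⟩ : Λ)]
    · rw [if_pos rfl, one_mul, ← Wz_coe Λ f ⟨z, hz⟩]
    · intro j _ hj
      rw [if_neg, zero_mul]
      intro h
      exact hj (Subtype.ext h)
    · intro h
      exact absurd (Finset.mem_univ _) h
  · rw [Wz_off Λ f hz, Finset.sum_eq_zero]
    intro j _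
    rw [if_neg, zero_mul]
    intro h
    apply hz
    rw [← h]
    exact j.2

theorem sum_adj (Λ : Finset (Zd d)) (f : Λ → ℝ) (x : Zd d) :
    ∑ j : Λ, adj x j.1 * f j =
      -∑ k : Fin d, (Wz Λ f (x + Pi.single k 1) + Wz Λ f (x - Pi.single k 1)) := by
  have h1 : ∀ j : Λ, adj x j.1 * f j = -∑ k : Fin d,
      ((if j.1 = x + Pi.single k 1 then (1 : ℝ) else 0) * f j +
      (if j.1 = x - Pi.single k 1 then (1 : ℝ) else 0) * f j) := by
    intro j
    rw [adj_eq, neg_mul, Finset.sum_mul]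
    congr 1
    refine Finset.sum_congr rfl fun k _ => by ring
  rw [Finset.sum_congr rfl fun j _ => h1 j, Finset.sum_neg_distrib, Finset.sum_comm]
  congr 1
  refine Finset.sum_congr rfl fun k _ => ?_
  rw [Finset.sum_add_distrib, sum_at, sum_at]

theorem mulVec_eq (Λ : Finset (Zd d)) (Ω : Finset Λ) (f : Λ → ℝ) (hf : ∀ i, i ∉ Ω → f i = 0)
    (i : Λ) (hi : i ∈ Ω) : (cut (AL Λ) Ω).mulVec f i =
      -∑ k : Fin d, (Wz Λ f (i.1 + Pi.single k 1) + Wz Λ f (i.1 - Pi.single k 1)) := by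
  rw [← sum_adj]
  unfold Matrix.mulVec dotProduct
  refine Finset.sum_congr rfl fun j _ => ?_
  by_cases hj : j ∈ Ω
  · simp only [cut, AL, hi, hj, and_self, if_true]
  · rw [hf j hj, mul_zero, mul_zero]

/-- the pointwise inequality -/
theorem point (lam M G a b : ℝ) (hG : |G| ≤ M) :
    0 ≤ -2 * (a * b) + lam * (G * (b ^ 2 - a ^ 2)) + (1 + lam ^ 2 * M ^ 2 / 2) * (a ^ 2 + b ^ 2) := by
  have hG2 : G ^ 2 ≤ M ^ 2 := by
    rw [← sq_abs]
    exact pow_le_pow_left₀ (abs_nonneg _) hG 2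
  have h1 : 0 ≤ (b - a + lam * G * (b + a) / 2) ^ 2 := sq_nonneg _
  have h2 : 0 ≤ lam ^ 2 * (M ^ 2 - G ^ 2) * (a + b) ^ 2 :=
    mul_nonneg (mul_nonneg (sq_nonneg _) (by linarith)) (sq_nonneg _)
  have h3 : 0 ≤ lam ^ 2 * M ^ 2 * (a - b) ^ 2 := by positivity
  nlinarith

theorem summable_of (Λ : Finset (Zd d)) {φ : Zd d → ℝ} (h : ∀ x, x ∉ Λ → φ x = 0) :
    Summable φ := summable_of_ne_finset_zero (s := Λ) h

theorem tsum_shift (e : Zd d) (φ : Zd d → ℝ) : ∑' x, φ (x + e) = ∑' x, φ x :=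
  (Equiv.addRight e).tsum_eq φ

theorem summable_shift (e : Zd d) {φ : Zd d → ℝ} (h : Summable φ) :
    Summable (fun x => φ (x + e)) := ((Equiv.addRight e).summable_iff (f := φ)).2 h

/-- one direction -/
theorem dir (Λ : Finset (Zd d)) (F g : Zd d → ℝ) (hF : ∀ x, x ∉ Λ → F x = 0) (lam M : ℝ)
    (e : Zd d)
    (hg : ∀ x, F x ≠ 0 → |g (x + e) - g x| ≤ M ∧ |g x - g (x - e)| ≤ M) :
    -(2 + lam ^ 2 * M ^ 2) * ∑ x ∈ Λ, F x ^ 2 ≤
      ∑ x ∈ Λ, (-(F x * (F (x + e) + F (x - e))) +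
        lam * ((g x - g (x + e)) * F x ^ 2 + (g x - g (x - e)) * F x ^ 2)) := by
  have t1 : ∀ φ : Zd d → ℝ, (∀ x, x ∉ Λ → φ x = 0) → ∑ x ∈ Λ, φ x = ∑' x, φ x :=
    fun φ h => (tsum_eq_sum (s := Λ) (fun x hx => h x hx)).symm
  -- the sums
  have sA : Summable (fun x => F x * F (x + e)) := summable_of Λ fun x hx => by rw [hF x hx, zero_mul]
  have sA2 : Summable (fun x => F x * F (x - e)) := summable_of Λ fun x hx => by rw [hF x hx, zero_mul]
  have sB : Summable (fun x => (g x - g (x + e)) * F x ^ 2) :=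
    summable_of Λ fun x hx => by rw [hF x hx]; ring
  have sB2 : Summable (fun x => (g x - g (x - e)) * F x ^ 2) :=
    summable_of Λ fun x hx => by rw [hF x hx]; ring
  have sC : Summable (fun x => F x ^ 2) := summable_of Λ fun x hx => by rw [hF x hx]; ring
  have eA : ∑' x, F x * F (x - e) = ∑' x, F x * F (x + e) := by
    rw [← tsum_shift e (fun x => F x * F (x - e))]
    refine tsum_congr fun x => ?_
    simp only [add_sub_cancel_right]
    ring
  have eB : ∑' x, (g x - g (x - e)) * F x ^ 2 = ∑' x, (g (x + e) - g x) * F (x + e) ^ 2 := by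
    rw [← tsum_shift e (fun x => (g x - g (x - e)) * F x ^ 2)]
    refine tsum_congr fun x => ?_
    simp only [add_sub_cancel_right]
  have sB3 : Summable (fun x => (g (x + e) - g x) * F (x + e) ^ 2) := by
    have h := summable_shift e sB2
    simpa only [add_sub_cancel_right] using h
  have eC : ∑' x, F x ^ 2 = ∑' x, F (x + e) ^ 2 := (tsum_shift e (fun x => F x ^ 2)).symm
  have sC2 : Summable (fun x => F (x + e) ^ 2) := summable_shift e sC
  have hpt : ∀ x, 0 ≤ -2 * (F x * F (x + e)) +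
      (lam * ((g x - g (x + e)) * F x ^ 2) + lam * ((g (x + e) - g x) * F (x + e) ^ 2)) +
      ((1 + lam ^ 2 * M ^ 2 / 2) * F x ^ 2 + (1 + lam ^ 2 * M ^ 2 / 2) * F (x + e) ^ 2) := by
    intro x
    by_cases h0 : F x = 0 ∧ F (x + e) = 0
    · rw [h0.1, h0.2]; simp
    · have hG : |g (x + e) - g x| ≤ M := by
        by_cases h1 : F x = 0
        · have h2 : F (x + e) ≠ 0 := fun h => h0 ⟨h1, h⟩
          have h3 := (hg (x + e) h2).2
          rwa [add_sub_cancel_right] at h3
        · exact (hg x h1).1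
      have h4 := point lam M (g (x + e) - g x) (F x) (F (x + e)) hG
      nlinarith
  have H := ((sA.hasSum.mul_left (-2)).add ((sB.hasSum.mul_left lam).add
    (sB3.hasSum.mul_left lam))).add ((sC.hasSum.mul_left (1 + lam ^ 2 * M ^ 2 / 2)).add
    (sC2.hasSum.mul_left (1 + lam ^ 2 * M ^ 2 / 2)))
  have hsum := HasSum.nonneg hpt H
  have hR : ∑ x ∈ Λ, (-(F x * (F (x + e) + F (x - e))) +
        lam * ((g x - g (x + e)) * F x ^ 2 + (g x - g (x - e)) * F x ^ 2)) =
      -(∑' x, F x * F (x + e)) - (∑' x, F x * F (x - e)) +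
        lam * (∑' x, (g x - g (x + e)) * F x ^ 2) + lam * ∑' x, (g x - g (x - e)) * F x ^ 2 := by
    rw [← t1 (fun x => F x * F (x + e)) fun x hx => by rw [hF x hx, zero_mul],
      ← t1 (fun x => F x * F (x - e)) fun x hx => by rw [hF x hx, zero_mul],
      ← t1 (fun x => (g x - g (x + e)) * F x ^ 2) fun x hx => by rw [hF x hx]; ring,
      ← t1 (fun x => (g x - g (x - e)) * F x ^ 2) fun x hx => by rw [hF x hx]; ring,
      Finset.mul_sum, Finset.mul_sum, ← Finset.sum_neg_distrib, ← Finset.sum_sub_distrib,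
      ← Finset.sum_add_distrib, ← Finset.sum_add_distrib]
    refine Finset.sum_congr rfl fun x _ => by ring
  rw [hR, t1 (fun x => F x ^ 2) fun x hx => by rw [hF x hx]; ring, eA, eB]
  rw [← eC] at hsum
  linarith

end Pool.Agent.H4R2.TD.FF

namespace Pool.Agent.H4R2.TD.FF

open Pool.Agent.H4R2.LO (Zd dd adj AL bx FB cut Reg)

/-- **FF** -/
theorem FF : S_FF := by
  classical
  intro d Λ Ω V lam M η g hlam hM hη hgr hV f hf
  set F := Wz Λ f with hFdef
  have hF : ∀ x, x ∉ Λ → F x = 0 := fun x hx => Wz_off Λ f hx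
  have hFc : ∀ j : Λ, F j.1 = f j := fun j => Wz_coe Λ f j
  have hFΩ : ∀ x, F x ≠ 0 → ∃ h : x ∈ Λ, (⟨x, h⟩ : Λ) ∈ Ω := by
    intro x hx
    by_cases h : x ∈ Λ
    · refine ⟨h, ?_⟩
      by_contra h2
      apply hx
      have := hFc ⟨x, h⟩
      simp only at this
      rw [this, hf _ h2]
    · exact absurd (hF x h) hx
  have hdir : ∀ k : Fin d, -(2 + lam ^ 2 * M ^ 2) * ∑ x ∈ Λ, F x ^ 2 ≤
      ∑ x ∈ Λ, (-(F x * (F (x + Pi.single k 1) + F (x - Pi.single k 1))) +
        lam * ((g x - g (x + Pi.single k 1)) * F x ^ 2 +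
          (g x - g (x - Pi.single k 1)) * F x ^ 2)) := by
    intro k
    refine dir Λ F g hF lam M (Pi.single k 1) fun x hx => ?_
    obtain ⟨h, h2⟩ := hFΩ x hx
    exact hgr ⟨x, h⟩ h2 k
  have hsum := Finset.sum_le_sum fun k (_ : k ∈ (Finset.univ : Finset (Fin d))) => hdir k
  rw [Finset.sum_const, Finset.card_univ, Fintype.card_fin, nsmul_eq_mul, Finset.sum_comm] at hsum
  -- pointwise comparison
  have hpt : ∀ i : Λ, ∑ k : Fin d, (-(F i.1 * (F (i.1 + Pi.single k 1) + F (i.1 - Pi.single k 1))) +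
        lam * ((g i.1 - g (i.1 + Pi.single k 1)) * F i.1 ^ 2 +
          (g i.1 - g (i.1 - Pi.single k 1)) * F i.1 ^ 2)) - lam * η * F i.1 ^ 2 ≤
      f i * ((cut (AL Λ) Ω).mulVec f i + lam * V i * f i) := by
    intro i
    by_cases hi : i ∈ Ω
    · rw [mulVec_eq Λ Ω f hf i hi, hFc i, ← hFdef]
      have h1 := (abs_le.1 (hV i hi)).1
      have h2 : ∑ k : Fin d, (-(f i * (F (i.1 + Pi.single k 1) + F (i.1 - Pi.single k 1))) +
        lam * ((g i.1 - g (i.1 + Pi.single k 1)) * f i ^ 2 +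
          (g i.1 - g (i.1 - Pi.single k 1)) * f i ^ 2)) =
          f i * (-∑ k : Fin d, (F (i.1 + Pi.single k 1) + F (i.1 - Pi.single k 1))) +
          lam * (2 * d * g i.1 - ∑ k : Fin d, (g (i.1 + Pi.single k 1) +
            g (i.1 - Pi.single k 1))) * f i ^ 2 := by
        have h3 : (2 * d * g i.1 : ℝ) = ∑ _k : Fin d, 2 * g i.1 := by
          rw [Finset.sum_const, Finset.card_univ, Fintype.card_fin, nsmul_eq_mul]; ring
        rw [h3, ← Finset.sum_sub_distrib, ← Finset.sum_neg_distrib, Finset.mul_sum,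
          Finset.mul_sum, Finset.sum_mul, ← Finset.sum_add_distrib]
        refine Finset.sum_congr rfl fun k _ => by ring
      rw [h2]
      have h4 : 0 ≤ lam * f i ^ 2 * (V i - (2 * d * g i.1 - ∑ k : Fin d,
          (g (i.1 + Pi.single k 1) + g (i.1 - Pi.single k 1))) + η) :=
        mul_nonneg (mul_nonneg hlam (sq_nonneg _)) (by linarith)
      nlinarith
    · rw [hFc i, hf i hi]
      simp
  have hall := Finset.sum_le_sum fun i (_ : i ∈ (Finset.univ : Finset Λ)) => hpt i
  refine le_trans ?_ hall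
  rw [Finset.sum_sub_distrib, ← Finset.mul_sum]
  have e1 : ∑ i : Λ, F i.1 ^ 2 = ∑ x ∈ Λ, F x ^ 2 := Finset.sum_coe_sort Λ (fun x => F x ^ 2)
  have e2 : ∑ i : Λ, f i ^ 2 = ∑ x ∈ Λ, F x ^ 2 := by
    rw [← e1]
    refine Finset.sum_congr rfl fun i _ => by rw [hFc i]
  have e3 := Finset.sum_coe_sort Λ (fun x => ∑ k : Fin d,
    (-(F x * (F (x + Pi.single k 1) + F (x - Pi.single k 1))) +
        lam * ((g x - g (x + Pi.single k 1)) * F x ^ 2 +
          (g x - g (x - Pi.single k 1)) * F x ^ 2)))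
  rw [e1, e2, e3]
  nlinarith

end Pool.Agent.H4R2.TD.FF
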