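import Pool.Agent.H4R2.TD.Defs2
import Pool.Agent.H4R2.TD.FF
import Pool.Agent.H4R2.HU.UF

/-!
# FG: form bound from a vector potential, with a supersolution (helper485)
-/

set_option autoImplicit false
set_option linter.dupNamespace false

open scoped BigOperators ENNReal
open MeasureTheory

namespace Pool.Agent.H4R2.TD.FG

open Pool.Agent.H4R2.LO (Zd dd adj AL bx FB cut Reg)
open Pool.Agent.H4R2.HD (Av Gn ind)
open Pool.Agent.H4R2.TD.FF (Wz_coe Wz_off mulVec_eq summable_of tsum_shift summable_shift)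

variable {d : ℕ}

/-- the pointwise inequality -/
theorem pointG (lam G a b : ℝ) :
    0 ≤ (1 / 2) * (a ^ 2 + b ^ 2) - a * b + (lam * (-G * a ^ 2) + lam * (G * b ^ 2)) +
      (lam ^ 2 * (G ^ 2 * a ^ 2) + lam ^ 2 * (G ^ 2 * b ^ 2)) := by
  have h1 : 0 ≤ (b - a + lam * G * (a + b)) ^ 2 := sq_nonneg _
  have h2 : 0 ≤ (lam * G * (a - b)) ^ 2 := sq_nonneg _
  nlinarith

/-- one direction -/
theorem dirG (Λ : Finset (Zd d)) (F g : Zd d → ℝ) (hF : ∀ x, x ∉ Λ → F x = 0) (lam : ℝ) (e : Zd d) :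
    0 ≤ ∑ x ∈ Λ, (F x ^ 2 - (1 / 2) * (F x * (F (x + e) + F (x - e))) +
        lam * ((g x - g (x + e)) * F x ^ 2 + (g x - g (x - e)) * F x ^ 2) +
        lam ^ 2 * (((g (x + e) - g x) ^ 2 + (g x - g (x - e)) ^ 2) * F x ^ 2)) := by
  have t1 : ∀ φ : Zd d → ℝ, (∀ x, x ∉ Λ → φ x = 0) → ∑ x ∈ Λ, φ x = ∑' x, φ x :=
    fun φ h => (tsum_eq_sum (s := Λ) (fun x hx => h x hx)).symm
  have sA : Summable (fun x => F x * F (x + e)) := summable_of Λ fun x hx => by rw [hF x hx, zero_mul]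
  have sB : Summable (fun x => -(g (x + e) - g x) * F x ^ 2) :=
    summable_of Λ fun x hx => by rw [hF x hx]; ring
  have sB2 : Summable (fun x => (g x - g (x - e)) * F x ^ 2) :=
    summable_of Λ fun x hx => by rw [hF x hx]; ring
  have sC : Summable (fun x => F x ^ 2) := summable_of Λ fun x hx => by rw [hF x hx]; ring
  have sD : Summable (fun x => (g (x + e) - g x) ^ 2 * F x ^ 2) :=
    summable_of Λ fun x hx => by rw [hF x hx]; ring
  have sD2 : Summable (fun x => (g x - g (x - e)) ^ 2 * F x ^ 2) :=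
    summable_of Λ fun x hx => by rw [hF x hx]; ring
  have eA : ∑' x, F x * F (x - e) = ∑' x, F x * F (x + e) := by
    rw [← tsum_shift e (fun x => F x * F (x - e))]
    refine tsum_congr fun x => ?_
    simp only [add_sub_cancel_right]
    ring
  have eB : ∑' x, (g x - g (x - e)) * F x ^ 2 = ∑' x, (g (x + e) - g x) * F (x + e) ^ 2 := by
    rw [← tsum_shift e (fun x => (g x - g (x - e)) * F x ^ 2)]
    refine tsum_congr fun x => ?_
    simp only [add_sub_cancel_right]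
  have sB3 : Summable (fun x => (g (x + e) - g x) * F (x + e) ^ 2) := by
    have h := summable_shift e sB2
    simpa only [add_sub_cancel_right] using h
  have eC : ∑' x, F x ^ 2 = ∑' x, F (x + e) ^ 2 := (tsum_shift e (fun x => F x ^ 2)).symm
  have sC2 : Summable (fun x => F (x + e) ^ 2) := summable_shift e sC
  have eD : ∑' x, (g x - g (x - e)) ^ 2 * F x ^ 2 =
      ∑' x, (g (x + e) - g x) ^ 2 * F (x + e) ^ 2 := by
    rw [← tsum_shift e (fun x => (g x - g (x - e)) ^ 2 * F x ^ 2)]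
    refine tsum_congr fun x => ?_
    simp only [add_sub_cancel_right]
  have sD3 : Summable (fun x => (g (x + e) - g x) ^ 2 * F (x + e) ^ 2) := by
    have h := summable_shift e sD2
    simpa only [add_sub_cancel_right] using h
  have hpt : ∀ x, 0 ≤ (1 / 2) * (F x ^ 2 + F (x + e) ^ 2) + (-1) * (F x * F (x + e)) +
      (lam * (-(g (x + e) - g x) * F x ^ 2) + lam * ((g (x + e) - g x) * F (x + e) ^ 2)) +
      (lam ^ 2 * ((g (x + e) - g x) ^ 2 * F x ^ 2) +
        lam ^ 2 * ((g (x + e) - g x) ^ 2 * F (x + e) ^ 2)) := by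
    intro x
    have h := pointG lam (g (x + e) - g x) (F x) (F (x + e))
    linarith
  have H := ((((sC.hasSum.add sC2.hasSum).mul_left (1 / 2)).add (sA.hasSum.mul_left (-1))).add
    ((sB.hasSum.mul_left lam).add (sB3.hasSum.mul_left lam))).add
    ((sD.hasSum.mul_left (lam ^ 2)).add (sD3.hasSum.mul_left (lam ^ 2)))
  have hsum := HasSum.nonneg hpt H
  have hR : ∑ x ∈ Λ, (F x ^ 2 - (1 / 2) * (F x * (F (x + e) + F (x - e))) +
        lam * ((g x - g (x + e)) * F x ^ 2 + (g x - g (x - e)) * F x ^ 2) +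
        lam ^ 2 * (((g (x + e) - g x) ^ 2 + (g x - g (x - e)) ^ 2) * F x ^ 2)) =
      (∑' x, F x ^ 2) - (1 / 2) * (∑' x, F x * F (x + e)) - (1 / 2) * (∑' x, F x * F (x - e)) +
        lam * (∑' x, -(g (x + e) - g x) * F x ^ 2) + lam * (∑' x, (g x - g (x - e)) * F x ^ 2) +
        lam ^ 2 * (∑' x, (g (x + e) - g x) ^ 2 * F x ^ 2) +
        lam ^ 2 * ∑' x, (g x - g (x - e)) ^ 2 * F x ^ 2 := by
    rw [← t1 (fun x => F x ^ 2) fun x hx => by rw [hF x hx]; ring,
      ← t1 (fun x => F x * F (x + e)) fun x hx => by rw [hF x hx, zero_mul],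
      ← t1 (fun x => F x * F (x - e)) fun x hx => by rw [hF x hx, zero_mul],
      ← t1 (fun x => -(g (x + e) - g x) * F x ^ 2) fun x hx => by rw [hF x hx]; ring,
      ← t1 (fun x => (g x - g (x - e)) * F x ^ 2) fun x hx => by rw [hF x hx]; ring,
      ← t1 (fun x => (g (x + e) - g x) ^ 2 * F x ^ 2) fun x hx => by rw [hF x hx]; ring,
      ← t1 (fun x => (g x - g (x - e)) ^ 2 * F x ^ 2) fun x hx => by rw [hF x hx]; ring]
    simp only [Finset.mul_sum, ← Finset.sum_sub_distrib, ← Finset.sum_add_distrib]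
    refine Finset.sum_congr rfl fun x _ => by ring
  rw [hR, eA, eB, eD]
  rw [← eC] at hsum
  linarith

/-- **FG** -/
theorem FG : S_FG := by
  classical
  intro d Λ Ω V lam q η g h R hlam hq hη hh hgh hΩ f hf
  set F := Wz Λ f with hFdef
  have hF : ∀ x, x ∉ Λ → F x = 0 := fun x hx => Wz_off Λ f hx
  have hFc : ∀ j : Λ, F j.1 = f j := fun j => Wz_coe Λ f j
  have hQ0 : ∀ x, 0 ≤ Qg g x := fun x => by
    unfold Qg
    exact Finset.sum_nonneg fun i _ => add_nonneg (sq_nonneg _) (sq_nonneg _)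
  have hl2 : 0 ≤ lam ^ 2 := sq_nonneg _
  -- (2) the supersolution
  have hUF := Pool.Agent.H4R2.HU.UF.UF Λ Ω (fun x : Λ => -(2 * lam ^ 2 * Qg g x.1)) (4 * lam ^ 2 * q)
    (fun x => 1 + 4 * lam ^ 2 * h x) (fun x => by
      have := hh x
      positivity) (fun x hx => by
      obtain ⟨h1, h2, -⟩ := hΩ x hx
      have h3 := hgh x.1
      have h4 := hQ0 x.1
      have h5 : ∑ i : Fin d, ((1 + 4 * lam ^ 2 * h (x.1 + Pi.single i 1)) +
          (1 + 4 * lam ^ 2 * h (x.1 - Pi.single i 1))) = 2 * d + 4 * lam ^ 2 * nb h x.1 := by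
        unfold nb
        rw [Finset.mul_sum]
        have : (2 * d : ℝ) = ∑ _i : Fin d, (2 : ℝ) := by
          rw [Finset.sum_const, Finset.card_univ, Fintype.card_fin, nsmul_eq_mul]; ring
        rw [this, ← Finset.sum_add_distrib]
        refine Finset.sum_congr rfl fun i _ => by ring
      rw [h5]
      have h6 : nb h x.1 = 2 * d * h x.1 - Qg g x.1 + R x.1 := by linarith
      rw [h6]
      have h7 : 0 ≤ 2 * lam ^ 2 * Qg g x.1 * (1 - 4 * lam ^ 2 * h x.1) :=
        mul_nonneg (by positivity) (by linarith)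
      have h8 : 0 ≤ 4 * lam ^ 2 * (q - R x.1) := mul_nonneg (by positivity) (by linarith)
      have h9 : 0 ≤ 4 * lam ^ 2 * q * (4 * lam ^ 2 * h x.1) :=
        mul_nonneg (by positivity) (mul_nonneg (by positivity) (hh _))
      nlinarith) f hf
  -- (1) the directions
  have hdir := fun k : Fin d => dirG Λ F g hF lam (Pi.single k 1)
  have hsum := Finset.sum_nonneg fun k (_ : k ∈ (Finset.univ : Finset (Fin d))) => hdir k
  rw [Finset.sum_comm] at hsum
  have hpt : ∀ i : Λ, ∑ k : Fin d, (F i.1 ^ 2 - (1 / 2) * (F i.1 * (F (i.1 + Pi.single k 1) +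
        F (i.1 - Pi.single k 1))) +
        lam * ((g i.1 - g (i.1 + Pi.single k 1)) * F i.1 ^ 2 +
          (g i.1 - g (i.1 - Pi.single k 1)) * F i.1 ^ 2) +
        lam ^ 2 * (((g (i.1 + Pi.single k 1) - g i.1) ^ 2 +
          (g i.1 - g (i.1 - Pi.single k 1)) ^ 2) * F i.1 ^ 2)) - lam * η * f i ^ 2 ≤
      d * f i ^ 2 + (1 / 2) * (f i * ((cut (AL Λ) Ω).mulVec f i)) + lam * V i * f i ^ 2 +
        lam ^ 2 * Qg g i.1 * f i ^ 2 := by
    intro i
    by_cases hi : i ∈ Ω
    · rw [mulVec_eq Λ Ω f hf i hi, hFc i, ← hFdef]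
      have h1 := (abs_le.1 (hΩ i hi).2.2).1
      have h2 : ∑ k : Fin d, (f i ^ 2 - (1 / 2) * (f i * (F (i.1 + Pi.single k 1) +
        F (i.1 - Pi.single k 1))) +
        lam * ((g i.1 - g (i.1 + Pi.single k 1)) * f i ^ 2 +
          (g i.1 - g (i.1 - Pi.single k 1)) * f i ^ 2) +
        lam ^ 2 * (((g (i.1 + Pi.single k 1) - g i.1) ^ 2 +
          (g i.1 - g (i.1 - Pi.single k 1)) ^ 2) * f i ^ 2)) =
          d * f i ^ 2 + (1 / 2) * (f i * (-∑ k : Fin d, (F (i.1 + Pi.single k 1) +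
            F (i.1 - Pi.single k 1)))) + lam * (2 * d * g i.1 - nb g i.1) * f i ^ 2 +
          lam ^ 2 * Qg g i.1 * f i ^ 2 := by
        have h3 : (2 * d * g i.1 : ℝ) = ∑ _k : Fin d, 2 * g i.1 := by
          rw [Finset.sum_const, Finset.card_univ, Fintype.card_fin, nsmul_eq_mul]; ring
        have h3' : (d * f i ^ 2 : ℝ) = ∑ _k : Fin d, f i ^ 2 := by
          rw [Finset.sum_const, Finset.card_univ, Fintype.card_fin, nsmul_eq_mul]
        rw [h3, h3']
        unfold nb Qg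
        rw [← Finset.sum_sub_distrib, ← Finset.sum_neg_distrib, Finset.mul_sum, Finset.mul_sum,
          Finset.mul_sum, Finset.sum_mul, Finset.mul_sum, Finset.sum_mul,
          ← Finset.sum_add_distrib, ← Finset.sum_add_distrib, ← Finset.sum_add_distrib]
        refine Finset.sum_congr rfl fun k _ => by ring
      rw [h2]
      have h4 : 0 ≤ lam * f i ^ 2 * (V i - (2 * d * g i.1 - nb g i.1) + η) :=
        mul_nonneg (mul_nonneg hlam (sq_nonneg _)) (by linarith)
      nlinarith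
    · rw [hFc i, hf i hi]
      simp
  have hall := Finset.sum_le_sum fun i (_ : i ∈ (Finset.univ : Finset Λ)) => hpt i
  rw [Finset.sum_sub_distrib, ← Finset.mul_sum] at hall
  rw [← Finset.sum_coe_sort] at hsum
  have hT : 0 - lam * η * ∑ i, f i ^ 2 ≤ ∑ i : Λ, (d * f i ^ 2 +
      (1 / 2) * (f i * ((cut (AL Λ) Ω).mulVec f i)) + lam * V i * f i ^ 2 +
        lam ^ 2 * Qg g i.1 * f i ^ 2) := by
    refine le_trans ?_ hall
    linarith
  have e1 : ∑ i : Λ, (d * f i ^ 2 +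
      (1 / 2) * (f i * ((cut (AL Λ) Ω).mulVec f i)) + lam * V i * f i ^ 2 +
        lam ^ 2 * Qg g i.1 * f i ^ 2) = d * ∑ i, f i ^ 2 +
      (1 / 2) * ∑ i, f i * ((cut (AL Λ) Ω).mulVec f i) + ∑ i, lam * V i * f i ^ 2 +
        ∑ i : Λ, lam ^ 2 * Qg g i.1 * f i ^ 2 := by
    rw [Finset.sum_add_distrib, Finset.sum_add_distrib, Finset.sum_add_distrib, ← Finset.mul_sum,
      ← Finset.mul_sum]
  have e2 : ∑ i, f i * ((cut (AL Λ) Ω).mulVec f i + 1 * -(2 * lam ^ 2 * Qg g i.1) * f i) =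
      ∑ i, f i * ((cut (AL Λ) Ω).mulVec f i) - 2 * ∑ i : Λ, lam ^ 2 * Qg g i.1 * f i ^ 2 := by
    rw [Finset.mul_sum, ← Finset.sum_sub_distrib]
    refine Finset.sum_congr rfl fun i _ => by ring
  have e3 : ∑ i, f i * ((cut (AL Λ) Ω).mulVec f i + lam * V i * f i) =
      ∑ i, f i * ((cut (AL Λ) Ω).mulVec f i) + ∑ i, lam * V i * f i ^ 2 := by
    rw [← Finset.sum_add_distrib]
    refine Finset.sum_congr rfl fun i _ => by ring
  rw [e1] at hT
  rw [e2] at hUF
  rw [e3]
  nlinarith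

end Pool.Agent.H4R2.TD.FG
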