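import Pool.Agent.H4R2.TD.Defs2

/-!
# Assembly: localization below the band, two dimensions, threshold of order `lam² log (2 / lam)`
-/

set_option autoImplicit false

open scoped BigOperators ENNReal
open MeasureTheory

namespace Pool.Agent.H4R2.TD.Fin

open Pool.Agent.H4R2.LO (Zd dd adj AL bx FB cut Reg)
open Pool.Agent.H4R2.HU.Low (LocB)

theorem log2_bounds {lam : ℝ} (h0 : 0 < lam) (h1 : lam ≤ 1) :
    69 / 100 ≤ Real.log (2 / lam) := by
  have h2 : Real.log 2 ≤ Real.log (2 / lam) := by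
    apply Real.log_le_log (by norm_num)
    rw [le_div_iff₀ h0]
    nlinarith
  have := Real.log_two_gt_d9
  linarith

theorem lower (hLC : S_LC) (μ : Measure ℝ) [IsProbabilityMeasure μ] (B b : ℝ) (hμ : Reg B μ)
    (hb : SubG b μ) : ∃ K c0 : ℝ, 0 < K ∧ 0 < c0 ∧ ∀ lam : ℝ, 0 < lam → lam ≤ 1 → ∀ e : ℝ,
      K * lam ^ 2 * Real.log (2 / lam) ≤ e → e ≤ 1 →
      ∀ᵐ ω ∂(Measure.infinitePi fun _ : Zd 2 => μ),
        Pool.Agent.H4R2.LO.Main.Dec 2 (-1) (fun x => lam * ω x) (Set.Iic (-e - 4))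
          (c0 * Real.sqrt e / Real.log (2 / lam)) := by
  have hB : 0 < B := hμ.1
  have hb0 : 0 < b := hb.1
  obtain ⟨b', c1, hc0, hc, hc2⟩ := Pool.Agent.H4R2.LO.Dec.consts 2 B hB
  set C : ℝ := 2 * (8 * (2 : ℕ) + 2 + b') + 4 * (1 + B) + 2 * c1 + 12 with hC
  have hC0 : 1 ≤ C := by
    rw [hC]
    have : (0 : ℝ) ≤ b' := Nat.cast_nonneg _
    push_cast
    linarith
  set C2 : ℝ := 9 * C + 3 with hC2
  set C3 : ℝ := b * (4 + 20 * C2) + 1 with hC3
  set C4 : ℝ := 32 * b + 16 * b * C2 + 4 * Real.sqrt (b * C2 * C3) with hC4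
  have hC20 : 0 < C2 := by rw [hC2]; linarith
  have hC30 : 1 ≤ C3 := by rw [hC3]; nlinarith [mul_pos hb0 hC20]
  have hC40 : 0 < C4 := by
    rw [hC4]
    have : 0 < b * C2 := mul_pos hb0 hC20
    have := Real.sqrt_nonneg (b * C2 * C3)
    linarith
  refine ⟨3 + 4 * C3 + 2 * C4, 1 / (300 * C), by linarith, by positivity, ?_⟩
  intro lam h0 h1 e he he1
  set l : ℝ := Real.log (2 / lam) with hl
  have hl1 : 69 / 100 ≤ l := log2_bounds h0 h1
  have hl0 : 0 < l := by linarith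
  have hlam2 : 0 < lam ^ 2 := by positivity
  have hll : 0 < lam ^ 2 * l := by positivity
  have he3 : 3 * (lam ^ 2 * l) ≤ e := by
    have : (3 + 4 * C3 + 2 * C4) * lam ^ 2 * l = 3 * (lam ^ 2 * l) +
      (4 * C3 + 2 * C4) * (lam ^ 2 * l) := by ring
    have h2 : 0 ≤ (4 * C3 + 2 * C4) * (lam ^ 2 * l) := by positivity
    linarith
  have heC3 : 4 * C3 * (lam ^ 2 * l) ≤ e := by
    have : (3 + 4 * C3 + 2 * C4) * lam ^ 2 * l = 4 * C3 * (lam ^ 2 * l) +
      (3 + 2 * C4) * (lam ^ 2 * l) := by ring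
    have h2 : 0 ≤ (3 + 2 * C4) * (lam ^ 2 * l) := by positivity
    linarith
  have heC4 : C4 * (lam ^ 2 * l) ≤ e / 2 := by
    have : (3 + 4 * C3 + 2 * C4) * lam ^ 2 * l = 2 * (C4 * (lam ^ 2 * l)) +
      (3 + 4 * C3) * (lam ^ 2 * l) := by ring
    have h2 : 0 ≤ (3 + 4 * C3) * (lam ^ 2 * l) := by positivity
    linarith
  have he0 : 0 < e := by linarith
  set κ : ℝ := e / 2 with hκ
  have hκ0 : 0 < κ := by positivity
  have hκ1 : κ ≤ 1 := by rw [hκ]; linarith
  have hκl : lam ^ 2 ≤ κ := by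
    rw [hκ]
    nlinarith
  set Y : ℝ := 2 / (κ * lam) with hY
  have hY0 : 0 < Y := by positivity
  have hY3 : Y ≤ (2 / lam) ^ 3 := by
    rw [hY, div_pow, div_le_div_iff₀ (by positivity) (by positivity)]
    have : lam ^ 3 ≤ κ * lam := by nlinarith
    nlinarith [mul_pos hκ0 h0]
  have hlogY : Real.log Y ≤ 3 * l := by
    have := Real.log_le_log hY0 hY3
    rw [Real.log_pow] at this
    push_cast at this
    exact this
  have hY1 : 1 ≤ Y := by
    rw [hY, le_div_iff₀ (by positivity)]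
    nlinarith
  have hY2 : 2 ≤ Y := by
    rw [hY, le_div_iff₀ (by positivity)]
    nlinarith
  have hlogY0 : 0 < Real.log Y := Real.log_pos (by linarith)
  set τ : ℝ := C2 * l with hτ
  have hτ0 : 0 < τ := by positivity
  set N : ℕ := ⌊1 / (4 * lam ^ 2 * (C3 * l))⌋₊ with hN
  have hN1 : 1 ≤ N := by
    rw [hN, Nat.le_floor_iff (by positivity), Nat.cast_one, le_div_iff₀ (by positivity)]
    nlinarith
  have hNle : (N : ℝ) ≤ 1 / (4 * lam ^ 2 * (C3 * l)) := Nat.floor_le (by positivity)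
  have hNlt : 1 / (4 * lam ^ 2 * (C3 * l)) < N + 1 := Nat.lt_floor_add_one _
  have hN1' : (1 : ℝ) ≤ N := by exact_mod_cast hN1
  have hN4 : (N : ℝ) ≤ (2 / lam) ^ 2 := by
    refine hNle.trans ?_
    rw [div_pow, div_le_div_iff₀ (by positivity) (by positivity)]
    have : 1 ≤ 16 * (C3 * l) := by nlinarith
    nlinarith
  have hlogN : Real.log N ≤ 2 * l := by
    have := Real.log_le_log (by linarith) hN4
    rw [Real.log_pow] at this
    push_cast at this
    exact this
  have hlogN0 : 0 ≤ Real.log N := Real.log_nonneg hN1'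
  have hcond : 4 * lam ^ 2 * (N * b * (1 + Real.log N + 20 * τ)) ≤ 1 := by
    have e1 : b * (1 + Real.log N + 20 * τ) ≤ C3 * l := by
      have : 1 + Real.log N + 20 * τ ≤ (4 + 20 * C2) * l := by
        rw [hτ]
        nlinarith
      calc b * (1 + Real.log N + 20 * τ) ≤ b * ((4 + 20 * C2) * l) := by gcongr
        _ ≤ C3 * l := by rw [hC3]; nlinarith
    calc 4 * lam ^ 2 * (N * b * (1 + Real.log N + 20 * τ))
        = 4 * lam ^ 2 * (b * (1 + Real.log N + 20 * τ)) * N := by ring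
      _ ≤ 4 * lam ^ 2 * (C3 * l) * N := by gcongr
      _ ≤ 4 * lam ^ 2 * (C3 * l) * (1 / (4 * lam ^ 2 * (C3 * l))) := by gcongr
      _ = 1 := by field_simp
  have hloc := hLC μ b hb lam τ (Y ^ C) N h0 hτ0 hN1 hcond
  have hYC : 0 < Y ^ C := Real.rpow_pos_of_pos hY0 _
  have hmain := Pool.Agent.H4R2.HU.Low.below 2 (by norm_num) B hB b' c1 hc0 hc
    hc2 C hC μ hμ lam h0 h1 (Y ^ C) _ _ (by positivity) hloc κ hκ0 hκ1 le_rfl (by
      have e1 : Y ^ C = Real.exp (C * Real.log Y) := by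
        rw [Real.rpow_def_of_pos hY0, mul_comm]
      rw [← hY, e1]
      have e2 : Real.exp (C * Real.log Y) * (Real.exp (C * Real.log Y) ^ 2 *
          (4 * Real.exp (-τ))) = 4 * Real.exp (3 * (C * Real.log Y) - τ) := by
        rw [sub_eq_add_neg, Real.exp_add, show 3 * (C * Real.log Y) = C * Real.log Y +
          C * Real.log Y + C * Real.log Y by ring, Real.exp_add, Real.exp_add]
        ring
      rw [e2]
      have e3 : 3 * (C * Real.log Y) - τ ≤ -(2 * Real.log 2) := by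
        have h4 : C * Real.log Y ≤ C * (3 * l) := by gcongr
        have h5 := Real.log_two_lt_d9
        have h6 : 2 * Real.log 2 ≤ 3 * l := by linarith
        rw [hτ, hC2]
        linarith
      calc 4 * Real.exp (3 * (C * Real.log Y) - τ) ≤ 4 * Real.exp (-(2 * Real.log 2)) := by
            gcongr
        _ = 1 := by
            rw [show -(2 * Real.log 2) = -Real.log 2 + -Real.log 2 by ring, Real.exp_add,
              Real.exp_neg, Real.exp_log (by norm_num)]
            norm_num)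
  filter_upwards [hmain] with ω hω
  refine Pool.Agent.H4R2.LO.Main.dec_mono _ _ _ _ _ _ hω ?_ ?_
  · intro E hE
    rw [Set.mem_Iic] at hE ⊢
    have hsq : lam * Real.sqrt (4 * b * τ / (N + 1)) ≤ lam ^ 2 * l *
        (4 * Real.sqrt (b * C2 * C3)) := by
      have e1 : 4 * b * τ / (N + 1) ≤ (4 * lam * l) ^ 2 * (b * C2 * C3) := by
        rw [div_le_iff₀ (by positivity)]
        have e2 : 1 ≤ (4 * lam ^ 2 * (C3 * l)) * (N + 1) := by
          rw [div_lt_iff₀ (by positivity)] at hNlt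
          linarith
        calc 4 * b * τ = 4 * b * (C2 * l) * 1 := by rw [hτ]; ring
          _ ≤ 4 * b * (C2 * l) * ((4 * lam ^ 2 * (C3 * l)) * (N + 1)) := by gcongr
          _ = (4 * lam * l) ^ 2 * (b * C2 * C3) * (N + 1) := by ring
      have e3 : Real.sqrt (4 * b * τ / (N + 1)) ≤ 4 * lam * l * Real.sqrt (b * C2 * C3) := by
        calc Real.sqrt (4 * b * τ / (N + 1)) ≤ Real.sqrt ((4 * lam * l) ^ 2 * (b * C2 * C3)) :=
              Real.sqrt_le_sqrt e1
          _ = 4 * lam * l * Real.sqrt (b * C2 * C3) := by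
              rw [Real.sqrt_mul (by positivity), Real.sqrt_sq (by positivity)]
      calc lam * Real.sqrt (4 * b * τ / (N + 1)) ≤ lam * (4 * lam * l * Real.sqrt (b * C2 * C3)) := by
            gcongr
        _ = lam ^ 2 * l * (4 * Real.sqrt (b * C2 * C3)) := by ring
    have hq : 2 * lam ^ 2 * (4 * b * (1 + Real.log N) + 8 * b * τ) ≤
        lam ^ 2 * l * (32 * b + 16 * b * C2) := by
      have e1 : 4 * b * (1 + Real.log N) ≤ 4 * b * (4 * l) := by
        have : 1 + Real.log N ≤ 4 * l := by linarith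
        gcongr
      calc 2 * lam ^ 2 * (4 * b * (1 + Real.log N) + 8 * b * τ)
          ≤ 2 * lam ^ 2 * (4 * b * (4 * l) + 8 * b * (C2 * l)) := by rw [hτ]; gcongr
        _ = lam ^ 2 * l * (32 * b + 16 * b * C2) := by ring
    have hsum : C4 * (lam ^ 2 * l) = lam ^ 2 * l * (32 * b + 16 * b * C2) + lam ^ 2 * l *
        (4 * Real.sqrt (b * C2 * C3)) := by rw [hC4]; ring
    push_cast
    linarith
  · rw [← hY]
    have hsκ : Real.sqrt e ≤ 2 * Real.sqrt κ := by
      rw [Real.sqrt_le_left (by positivity), mul_pow, Real.sq_sqrt hκ0.le, hκ]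
      linarith
    calc 1 / (300 * C) * Real.sqrt e / l ≤ 1 / (300 * C) * (2 * Real.sqrt κ) / l := by gcongr
      _ = Real.sqrt κ / (50 * C * (3 * l)) := by field_simp; norm_num
      _ ≤ Real.sqrt κ / (50 * C * Real.log Y) := by gcongr

end Pool.Agent.H4R2.TD.Fin
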