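import Pool.Agent.H4R2.TD.Defs
import Pool.Agent.H4R2.HD.BA
import Pool.Agent.H4R2.HD.KB
import Pool.Agent.H4R2.HD.KS

/-!
# GE: the Dirichlet energy of the parametrix, and the `ℓ²` norm of the kernel (helper255)
-/

set_option autoImplicit false

open scoped BigOperators ENNReal
open MeasureTheory

namespace Pool.Agent.H4R2.TD.GE

open Pool.Agent.H4R2.LO (Zd dd adj AL bx FB cut Reg)
open Pool.Agent.H4R2.HD (Av Gn ind S_KB S_KS)
open Pool.Agent.H12R2.And (V ee Q mem_Q)

variable {d : ℕ}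

/-- the kernel is supported in a box -/
theorem av_supp (hd : 1 ≤ d) (n : ℕ) (w : V d) (hw : w ∉ Q (0 : V d) n) :
    (Av^[n] (ind (0 : V d))) w = 0 := by
  have h1 : (Av^[n] (ind (0 : V d))) w = (Av^[n] (fun _ : V d => (0 : ℝ))) w := by
    apply Pool.Agent.H4R2.HD.BA.iter_local
    intro y hy
    unfold ind
    rw [if_neg]
    rintro rfl
    apply hw
    rw [mem_Q] at hy ⊢
    intro i
    have h2 := hy i
    rw [abs_sub_comm] at h2
    exact h2
  rw [h1]
  exact Pool.Agent.H4R2.HD.BA.iter_const hd n 0 w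

theorem gn_nonneg (hd : 1 ≤ d) (N : ℕ) (z x : V d) : 0 ≤ Gn N (ind z) x := by
  unfold Gn
  refine div_nonneg (Finset.sum_nonneg fun n _ => ?_) (by positivity)
  exact (Pool.Agent.H4R2.HD.KB.KB hd n z x).1

theorem Q_mono {a : V d} {m n : ℕ} (h : m ≤ n) : Q a m ⊆ Q a n := by
  intro x hx
  rw [mem_Q] at hx ⊢
  intro i
  exact (hx i).trans (by exact_mod_cast h)

theorem gn_supp (hd : 1 ≤ d) (N : ℕ) : (Function.support (Gn N (ind (0 : V d)))).Finite := by
  refine (Q (0 : V d) N).finite_toSet.subset ?_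
  intro w hw
  by_contra hc
  apply hw
  unfold Gn
  rw [Finset.sum_eq_zero, zero_div]
  intro n hn
  apply av_supp hd
  intro h
  exact hc (Q_mono (Finset.mem_range.1 hn).le h)

theorem hs_congr {f g : V d → ℝ} {a : ℝ} (h : HasSum f a) (hfg : ∀ w, g w = f w) :
    HasSum g a := by
  have h1 : g = f := funext hfg
  rw [h1]; exact h

/-- summation by parts -/
theorem energy (k a : V d → ℝ) (hk : k.support.Finite) (hk0 : ∀ w, 0 ≤ k w) (ha0 : ∀ w, 0 ≤ a w)
    (heq : ∀ w, 2 * d * k w - ∑ i : Fin d, (k (w + ee i) + k (w - ee i)) = ind (0 : V d) w - a w)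
    (i : Fin d) (F : Finset (V d)) : ∑ w ∈ F, (k (w + ee i) - k w) ^ 2 ≤ k 0 := by
  classical
  have hs : ∀ f : V d → ℝ, Summable (fun w => k w * f w) := by
    intro f
    refine summable_of_finite_support (hk.subset ?_)
    intro w hw
    exact left_ne_zero_of_mul hw
  obtain ⟨S0, H0⟩ := hs k
  choose P HP using fun j : Fin d => hs (fun w => k (w + ee j))
  obtain ⟨A, HA⟩ := hs a
  have Hs : ∀ j, HasSum (fun w => k (w + ee j) * k (w + ee j)) S0 := fun j =>
    (Equiv.addRight (ee j)).hasSum_iff.2 H0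
  have HP' : ∀ j, HasSum (fun w => k w * k (w - ee j)) (P j) := by
    intro j
    rw [← (Equiv.addRight (ee j)).hasSum_iff]
    refine hs_congr (HP j) ?_
    intro w
    show k (w + ee j) * k (w + ee j - ee j) = k w * k (w + ee j)
    rw [add_sub_cancel_right, mul_comm]
  have HD : ∀ j, HasSum (fun w => (k (w + ee j) - k w) ^ 2) (S0 - 2 * P j + S0) := by
    intro j
    have h1 := ((Hs j).sub ((HP j).mul_left 2)).add H0
    refine hs_congr h1 ?_
    intro w
    ring
  have HD0 : ∀ j, 0 ≤ S0 - 2 * P j + S0 := fun j => (HD j).nonneg fun w => sq_nonneg _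
  have Htot : HasSum (fun w => k w * (2 * d * k w - ∑ i : Fin d, (k (w + ee i) + k (w - ee i))))
      (2 * d * S0 - ∑ j : Fin d, (P j + P j)) := by
    have h1 := (H0.mul_left (2 * (d : ℝ))).sub
      (hasSum_sum fun (j : Fin d) (_ : j ∈ Finset.univ) => (HP j).add (HP' j))
    refine hs_congr h1 ?_
    intro w
    rw [mul_sub, Finset.mul_sum]
    have h2 : ∑ j : Fin d, k w * (k (w + ee j) + k (w - ee j)) =
        ∑ j : Fin d, (k w * k (w + ee j) + k w * k (w - ee j)) :=
      Finset.sum_congr rfl fun j _ => by ring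
    rw [h2]
    ring
  have Hone : HasSum (fun w => k w * ind (0 : V d) w) (k 0) := by
    have h1 := hasSum_single (f := fun w => k w * ind (0 : V d) w) (0 : V d) (by
      intro w hw
      unfold ind
      rw [if_neg hw, mul_zero])
    have h2 : k 0 * ind (0 : V d) 0 = k 0 := by
      unfold ind
      rw [if_pos rfl, mul_one]
    rwa [h2] at h1
  have Hr : HasSum (fun w => k w * (2 * d * k w - ∑ i : Fin d, (k (w + ee i) + k (w - ee i))))
      (k 0 - A) := by
    refine hs_congr (Hone.sub HA) ?_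
    intro w
    rw [heq w]
    ring
  have hA0 : 0 ≤ A := HA.nonneg fun w => mul_nonneg (hk0 w) (ha0 w)
  have hu := Htot.unique Hr
  have hsum : ∑ j : Fin d, (S0 - 2 * P j + S0) = 2 * d * S0 - ∑ j : Fin d, (P j + P j) := by
    have h1 : ∀ j : Fin d, S0 - 2 * P j + S0 = 2 * S0 - (P j + P j) := fun j => by ring
    simp_rw [h1]
    rw [Finset.sum_sub_distrib, Finset.sum_const, Finset.card_univ, Fintype.card_fin,
      nsmul_eq_mul]
    ring
  have h1 : ∑ w ∈ F, (k (w + ee i) - k w) ^ 2 ≤ S0 - 2 * P i + S0 :=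
    sum_le_hasSum F (fun w _ => sq_nonneg _) (HD i)
  have h2 : S0 - 2 * P i + S0 ≤ ∑ j : Fin d, (S0 - 2 * P j + S0) :=
    Finset.single_le_sum (f := fun j => S0 - 2 * P j + S0) (fun j _ => HD0 j) (Finset.mem_univ i)
  linarith

theorem trans0 (hSY : S_SY) (N : ℕ) (z x : V d) :
    Gn N (ind z) x = Gn N (ind (0 : V d)) (x - z) := by
  unfold Gn
  congr 1
  refine Finset.sum_congr rfl fun n _ => ?_
  have h1 := (hSY n (0 : Zd d) (x - z) z).2
  rw [zero_add, sub_add_cancel] at h1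
  exact h1

theorem GE (hSY : S_SY) : S_GE := by
  classical
  intro d hd N F x i
  have hparam := Pool.Agent.H4R2.HD.BA.param hd N (ind (0 : V d))
  have h1 := energy (Gn N (ind (0 : V d))) (Av^[N] (ind (0 : V d))) (gn_supp hd N)
    (gn_nonneg hd N 0) (fun w => (Pool.Agent.H4R2.HD.KB.KB hd N 0 w).1) hparam i
    (F.image fun z => x - z)
  rw [Finset.sum_image (fun a _ b _ h => sub_right_injective h)] at h1
  refine le_trans (le_of_eq ?_) h1
  refine Finset.sum_congr rfl fun z _ => ?_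
  rw [trans0 hSY N z (x + Pi.single i 1), trans0 hSY N z x]
  have h2 : x + Pi.single i 1 - z = x - z + ee i := by
    have h3 : (ee i : V d) = Pi.single i 1 := rfl
    rw [h3]
    abel
  rw [h2]

theorem L2 (hK2 : S_K2) : S_L2 := by
  intro N F x
  have h0 : ∀ z : Zd 2, 0 ≤ (Av^[N] (ind z)) x := fun z =>
    (Pool.Agent.H4R2.HD.KB.KB (by norm_num) N z x).1
  have hKS : ∑ z ∈ F, (Av^[N] (ind z)) x ≤ 1 :=
    Pool.Agent.H4R2.HD.KS.KS Pool.Agent.H4R2.HD.BA.iter_sum Pool.Agent.H4R2.HD.BA.iter_mono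
      Pool.Agent.H4R2.HD.BA.iter_const (by norm_num) N F x
  have hc : (0 : ℝ) ≤ 2 / ((N : ℝ) + 1) := by positivity
  calc ∑ z ∈ F, ((Av^[N] (ind z)) x) ^ 2
      ≤ ∑ z ∈ F, 2 / ((N : ℝ) + 1) * (Av^[N] (ind z)) x := by
        refine Finset.sum_le_sum fun z _ => ?_
        rw [sq]
        exact mul_le_mul_of_nonneg_right (hK2 N z x) (h0 z)
    _ = 2 / ((N : ℝ) + 1) * ∑ z ∈ F, (Av^[N] (ind z)) x := by rw [Finset.mul_sum]
    _ ≤ 2 / ((N : ℝ) + 1) * 1 := mul_le_mul_of_nonneg_left hKS hc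
    _ = 2 / ((N : ℝ) + 1) := mul_one _

end Pool.Agent.H4R2.TD.GE
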