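import Pool.Agent.H4R2.TD.Defs2

/-!
# GQ: the Gaussian integral of the exponential of a small positive quadratic form
(helper459 for helper4, team TD)
-/

set_option autoImplicit false

open scoped BigOperators ENNReal RealInnerProductSpace
open MeasureTheory ProbabilityTheory Matrix

namespace Pool.Agent.H4R2.TD.GQ

/-- the one-dimensional integral -/
theorem one_dim (m : ℝ) (h0 : 0 ≤ m) (h1 : m ≤ 1 / 4) :
    Integrable (fun t : ℝ => Real.exp (m * t ^ 2)) (gaussianReal 0 1) ∧
    ∫ t, Real.exp (m * t ^ 2) ∂(gaussianReal 0 1) ≤ Real.exp (2 * m) := by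
  have hb : 0 < 1 / 2 - m := by linarith
  have hI : ∫ t, Real.exp (m * t ^ 2) ∂(gaussianReal 0 1) = Real.sqrt (1 / (1 - 2 * m)) := by
    rw [integral_gaussianReal_eq_integral_smul one_ne_zero]
    have e1 : ∀ x : ℝ, gaussianPDFReal 0 1 x • Real.exp (m * x ^ 2) =
        (Real.sqrt (2 * Real.pi))⁻¹ * Real.exp (-(1 / 2 - m) * x ^ 2) := by
      intro x
      rw [gaussianPDFReal, smul_eq_mul, mul_assoc, ← Real.exp_add]
      congr 2
      · simp
      · simp
        ring
    simp_rw [e1]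
    rw [integral_const_mul, integral_gaussian, ← Real.sqrt_inv, ← Real.sqrt_mul (by positivity)]
    congr 1
    field_simp
  have hpos : 0 < 1 - 2 * m := by linarith
  refine ⟨Integrable.of_integral_ne_zero ?_, ?_⟩
  · rw [hI]
    exact (Real.sqrt_pos.2 (by positivity)).ne'
  · rw [hI, Real.sqrt_le_left (Real.exp_pos _).le, ← Real.exp_nat_mul, div_le_iff₀ hpos]
    have h2 := Real.add_one_le_exp (((2 : ℕ) : ℝ) * (2 * m))
    push_cast at h2 ⊢
    nlinarith

theorem gq : S_GQ := by
  intro κ _ _ S hS hq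
  have hA : S.IsHermitian := hS.1
  obtain ⟨b, hb⟩ : ∃ b : OrthonormalBasis κ ℝ (EuclideanSpace ℝ κ), b = hA.eigenvectorBasis :=
    ⟨_, rfl⟩
  obtain ⟨m, hm⟩ : ∃ m : κ → ℝ, m = hA.eigenvalues := ⟨_, rfl⟩
  have hSb : ∀ j, S *ᵥ (b j).ofLp = m j • (b j).ofLp := by
    intro j
    rw [hb, hm]
    exact hA.mulVec_eigenvectorBasis j
  -- the quadratic form in the eigenbasis
  have hquad : ∀ x : κ → ℝ, (∑ i, x i • b i).ofLp ⬝ᵥ S.mulVec (∑ i, x i • b i).ofLp =
      ∑ i, m i * x i ^ 2 := by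
    intro x
    have e1 : S.mulVec (∑ i, x i • b i).ofLp = (∑ i, (x i * m i) • b i).ofLp := by
      simp only [WithLp.ofLp_sum, WithLp.ofLp_smul]
      rw [Matrix.mulVec_sum]
      refine Finset.sum_congr rfl fun i _ => ?_
      rw [Matrix.mulVec_smul, hSb, smul_smul]
    rw [e1]
    have e2 : (∑ i, x i • b i).ofLp ⬝ᵥ (∑ i, (x i * m i) • b i).ofLp =
        ⟪∑ i, (x i * m i) • b i, ∑ i, x i • b i⟫ := by
      rw [EuclideanSpace.inner_eq_star_dotProduct]
      rfl
    rw [e2, b.orthonormal.inner_sum]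
    refine Finset.sum_congr rfl fun i _ => ?_
    simp only [conj_trivial]
    ring
  -- the eigenvalues
  have hm0 : ∀ i, 0 ≤ m i := fun i => by rw [hm]; exact hS.eigenvalues_nonneg i
  have hm1 : ∀ i, m i ≤ 1 / 4 := by
    intro i
    have h1 := hq (b i).ofLp
    rw [hSb, dotProduct_smul, smul_eq_mul] at h1
    have h2 : (b i).ofLp ⬝ᵥ (b i).ofLp = 1 := by
      have h3 : (b i).ofLp ⬝ᵥ (b i).ofLp = ⟪b i, b i⟫ := by
        rw [EuclideanSpace.inner_eq_star_dotProduct]
        rfl
      rw [h3, real_inner_self_eq_norm_sq, b.orthonormal.1 i, one_pow]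
    have h4 : ∑ k, (b i).ofLp k ^ 2 = 1 := by
      rw [← h2, dotProduct]
      refine Finset.sum_congr rfl fun k _ => ?_
      ring
    rw [h2, h4] at h1
    linarith
  -- invariance
  have hmap : (Measure.pi fun _ : κ => gaussianReal 0 1).map (WithLp.toLp 2) =
      (Measure.pi fun _ : κ => gaussianReal 0 1).map (fun x => ∑ i, x i • b i) := by
    rw [map_pi_eq_stdGaussian, stdGaussian_eq_map_pi_orthonormalBasis b]
  have hG : Continuous (fun v : EuclideanSpace ℝ κ => Real.exp (v.ofLp ⬝ᵥ S.mulVec v.ofLp)) := by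
    have hc : Continuous (fun v : EuclideanSpace ℝ κ => v.ofLp) := by fun_prop
    exact Real.continuous_exp.comp (hc.dotProduct (continuous_const.matrix_mulVec hc))
  have hb_meas : Measurable (fun x : κ → ℝ => ∑ i, x i • b i) := by fun_prop
  have hto_meas : Measurable (WithLp.toLp 2 : (κ → ℝ) → EuclideanSpace ℝ κ) := by fun_prop
  -- product structure
  have hprod : ∀ x : κ → ℝ, Real.exp ((∑ i, x i • b i).ofLp ⬝ᵥ S.mulVec (∑ i, x i • b i).ofLp) =
      ∏ i, Real.exp (m i * x i ^ 2) := by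
    intro x
    rw [hquad, Real.exp_sum]
  have hint : Integrable (fun x : κ → ℝ => ∏ i, Real.exp (m i * x i ^ 2))
      (Measure.pi fun _ : κ => gaussianReal 0 1) :=
    Integrable.fintype_prod (f := fun i (t : ℝ) => Real.exp (m i * t ^ 2))
      (fun i => (one_dim (m i) (hm0 i) (hm1 i)).1)
  have htr : S.trace = ∑ i, m i := by
    rw [hm, hA.trace_eq_sum_eigenvalues]
    rfl
  constructor
  · have h1 : Integrable (fun v : EuclideanSpace ℝ κ => Real.exp (v.ofLp ⬝ᵥ S.mulVec v.ofLp))
        ((Measure.pi fun _ : κ => gaussianReal 0 1).map (fun x => ∑ i, x i • b i)) := by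
      rw [integrable_map_measure hG.aestronglyMeasurable hb_meas.aemeasurable]
      refine hint.congr (Filter.Eventually.of_forall fun x => ?_)
      exact (hprod x).symm
    rw [← hmap, integrable_map_measure hG.aestronglyMeasurable hto_meas.aemeasurable] at h1
    exact h1
  · have h2 : ∫ ξ, Real.exp (ξ ⬝ᵥ S.mulVec ξ) ∂(Measure.pi fun _ : κ => gaussianReal 0 1) =
        ∫ v : EuclideanSpace ℝ κ, Real.exp (v.ofLp ⬝ᵥ S.mulVec v.ofLp)
          ∂((Measure.pi fun _ : κ => gaussianReal 0 1).map (WithLp.toLp 2)) := by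
      rw [integral_map hto_meas.aemeasurable hG.aestronglyMeasurable]
    rw [h2, hmap, integral_map hb_meas.aemeasurable hG.aestronglyMeasurable]
    simp_rw [hprod]
    rw [integral_fintype_prod_eq_prod (f := fun i (t : ℝ) => Real.exp (m i * t ^ 2)), htr,
      Finset.mul_sum, Real.exp_sum]
    exact Finset.prod_le_prod (fun i _ => integral_nonneg fun t => (Real.exp_pos _).le)
      (fun i _ => (one_dim (m i) (hm0 i) (hm1 i)).2)

end Pool.Agent.H4R2.TD.GQ
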