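import Pool.Agent.H4R2.TD.Defs2

/-!
# Hanson-Wright inequality for positive quadratic forms (helper228)
-/

set_option autoImplicit false

open scoped BigOperators ENNReal
open MeasureTheory

namespace Pool.Agent.H4R2.TD.HW

open Pool.Agent.H4R2.LO (Zd dd adj AL bx FB cut Reg)
open Pool.Agent.H4R2.HD (Av Gn ind)

theorem lint_exp {ι : Type} [Fintype ι] (ν : Measure ℝ) [IsProbabilityMeasure ν] (t : ι → ℝ)
    (hint : ∀ s : ℝ, Integrable (fun x => Real.exp (s * x)) ν) :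
    ∫⁻ V, ENNReal.ofReal (Real.exp (∑ z, t z * V z)) ∂(Measure.pi fun _ : ι => ν) =
      ENNReal.ofReal (∏ z, ∫ x, Real.exp (t z * x) ∂ν) := by
  have hprod : (fun V : ι → ℝ => Real.exp (∑ z, t z * V z)) =
      fun V => ∏ z, Real.exp (t z * V z) := by
    funext V
    rw [← Real.exp_sum]
  have hi : Integrable (fun V : ι → ℝ => Real.exp (∑ z, t z * V z))
      (Measure.pi fun _ : ι => ν) := by
    rw [hprod]
    exact Integrable.fintype_prod (f := fun z x => Real.exp (t z * x)) (fun z => hint (t z))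
  rw [← ofReal_integral_eq_lintegral_ofReal hi
    (Filter.Eventually.of_forall fun _ => (Real.exp_pos _).le), hprod,
    integral_fintype_prod_eq_prod (f := fun z x => Real.exp (t z * x))]

theorem gauss_exp {κ : Type} [Fintype κ] (t : κ → ℝ) :
    ∫⁻ ξ, ENNReal.ofReal (Real.exp (∑ k, t k * ξ k))
      ∂(Measure.pi fun _ : κ => ProbabilityTheory.gaussianReal 0 1) =
      ENNReal.ofReal (Real.exp (∑ k, t k ^ 2 / 2)) := by
  rw [lint_exp _ t (fun s => ProbabilityTheory.integrable_exp_mul_gaussianReal s)]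
  congr 1
  rw [Real.exp_sum]
  refine Finset.prod_congr rfl fun k _ => ?_
  have h := congrFun (ProbabilityTheory.mgf_id_gaussianReal (μ := 0) (v := 1)) (t k)
  unfold ProbabilityTheory.mgf at h
  simp only [id] at h
  rw [h]
  congr 1
  simp

theorem sub_exp {ι : Type} [Fintype ι] (μ : Measure ℝ) [IsProbabilityMeasure μ] {b : ℝ}
    (hb : SubG b μ) (t : ι → ℝ) :
    ∫⁻ V, ENNReal.ofReal (Real.exp (∑ z, t z * V z)) ∂(Measure.pi fun _ : ι => μ) ≤
      ENNReal.ofReal (Real.exp (∑ z, b * t z ^ 2 / 2)) := by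
  rw [lint_exp _ t (fun s => (hb.2 s).1)]
  apply ENNReal.ofReal_le_ofReal
  rw [Real.exp_sum]
  exact Finset.prod_le_prod (fun z _ => integral_nonneg fun x => (Real.exp_pos _).le)
    (fun z _ => (hb.2 (t z)).2)

/-- the transposed matrix has the same norm -/
theorem transp {ι κ : Type} [Fintype ι] [Fintype κ] (a : κ → ι → ℝ) {θ : ℝ} (hθ : 0 < θ)
    (h : ∀ f : ι → ℝ, ∑ k, (∑ z, a k z * f z) ^ 2 ≤ θ * ∑ z, f z ^ 2) (ξ : κ → ℝ) :
    ∑ z, (∑ k, ξ k * a k z) ^ 2 ≤ θ * ∑ k, ξ k ^ 2 := by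
  set u : ι → ℝ := fun z => ∑ k, ξ k * a k z with hu
  set q := ∑ z, u z ^ 2 with hq
  have hq0 : 0 ≤ q := Finset.sum_nonneg fun z _ => sq_nonneg _
  have h1 : q = ∑ k, ξ k * ∑ z, a k z * u z := by
    have e : ∀ z, u z ^ 2 = ∑ k, ξ k * (a k z * u z) := by
      intro z
      rw [pow_two]
      conv_lhs => rw [hu]
      simp only
      rw [Finset.sum_mul]
      exact Finset.sum_congr rfl fun k _ => by ring
    rw [hq]
    simp_rw [e]
    rw [Finset.sum_comm]
    exact Finset.sum_congr rfl fun k _ => by rw [Finset.mul_sum]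
  have h2 : q ^ 2 ≤ (∑ k, ξ k ^ 2) * (∑ k, (∑ z, a k z * u z) ^ 2) := by
    rw [h1]
    exact Finset.sum_mul_sq_le_sq_mul_sq _ _ _
  have h3 : q ^ 2 ≤ (∑ k, ξ k ^ 2) * (θ * q) :=
    h2.trans (mul_le_mul_of_nonneg_left (h u) (Finset.sum_nonneg fun k _ => sq_nonneg _))
  rcases hq0.eq_or_lt with h4 | h4
  · rw [← h4]
    exact mul_nonneg hθ.le (Finset.sum_nonneg fun k _ => sq_nonneg _)
  · have h5 : q * q ≤ (θ * ∑ k, ξ k ^ 2) * q := by
      calc q * q = q ^ 2 := by ring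
        _ ≤ (∑ k, ξ k ^ 2) * (θ * q) := h3
        _ = (θ * ∑ k, ξ k ^ 2) * q := by ring
    exact le_of_mul_le_mul_right h5 h4

theorem quad {ι κ : Type} [Fintype ι] [Fintype κ] (a : κ → ι → ℝ) (c : ℝ) (ξ : κ → ℝ) :
    ξ ⬝ᵥ (c • ((Matrix.of a) * (Matrix.of a).transpose)).mulVec ξ =
      c * ∑ z, (∑ k, ξ k * a k z) ^ 2 := by
  rw [Matrix.smul_mulVec, dotProduct_smul, ← Matrix.mulVec_mulVec, Matrix.dotProduct_mulVec,
    Matrix.mulVec_transpose, smul_eq_mul]
  congr 1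
  unfold dotProduct
  refine Finset.sum_congr rfl fun z _ => ?_
  rw [pow_two]
  rfl

theorem tr {ι κ : Type} [Fintype ι] [Fintype κ] (a : κ → ι → ℝ) (c : ℝ) :
    (c • ((Matrix.of a) * (Matrix.of a).transpose)).trace = c * ∑ k, ∑ z, a k z ^ 2 := by
  rw [Matrix.trace_smul, smul_eq_mul]
  congr 1
  unfold Matrix.trace
  refine Finset.sum_congr rfl fun k _ => ?_
  rw [Matrix.diag_apply, Matrix.mul_apply]
  refine Finset.sum_congr rfl fun z _ => ?_
  rw [Matrix.transpose_apply, Matrix.of_apply, pow_two]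

theorem HW (hGQ : S_GQ) : S_HW := by
  classical
  intro ι κ _ _ μ _ b hb a S θ τ hθ hτ hop hS
  have hb0 : 0 < b := hb.1
  obtain ⟨s, hs⟩ : ∃ s : ℝ, s = 1 / (4 * b * θ) := ⟨_, rfl⟩
  have hs0 : 0 < s := by rw [hs]; positivity
  have hsq : Real.sqrt (2 * s) ^ 2 = 2 * s := Real.sq_sqrt (by positivity)
  obtain ⟨c, hc⟩ : ∃ c : ℝ, c = Real.sqrt (2 * s) := ⟨_, rfl⟩
  rw [← hc] at hsq
  -- the matrix
  obtain ⟨M, hM⟩ : ∃ M : Matrix κ κ ℝ, M = (b * s) • ((Matrix.of a) * (Matrix.of a).transpose) :=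
    ⟨_, rfl⟩
  have hMq : ∀ ξ : κ → ℝ, ξ ⬝ᵥ M.mulVec ξ = (b * s) * ∑ z, (∑ k, ξ k * a k z) ^ 2 := by
    intro ξ
    rw [hM]
    exact quad a (b * s) ξ
  have hMtr : M.trace = (b * s) * ∑ k, ∑ z, a k z ^ 2 := by
    rw [hM]
    exact tr a (b * s)
  have hpsd : M.PosSemidef := by
    have h1 := (Matrix.posSemidef_self_mul_conjTranspose (Matrix.of a)).smul
      (by positivity : 0 ≤ b * s)
    rw [Matrix.conjTranspose_eq_transpose_of_trivial] at h1
    rw [hM]
    exact h1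
  have hsm : ∀ ξ : κ → ℝ, ξ ⬝ᵥ M.mulVec ξ ≤ (1 / 4) * ∑ k, ξ k ^ 2 := by
    intro ξ
    rw [hMq]
    calc b * s * ∑ z, (∑ k, ξ k * a k z) ^ 2 ≤ b * s * (θ * ∑ k, ξ k ^ 2) :=
          mul_le_mul_of_nonneg_left (transp a hθ hop ξ) (by positivity)
      _ = (1 / 4) * ∑ k, ξ k ^ 2 := by
          rw [hs]
          field_simp
  obtain ⟨hGi, hGb⟩ := hGQ M hpsd hsm
  -- the exponential moment
  have key : ∫⁻ V, ENNReal.ofReal (Real.exp (s * ∑ k, (∑ z, a k z * V z) ^ 2))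
      ∂(Measure.pi fun _ : ι => μ) ≤ ENNReal.ofReal (Real.exp (2 * b * s * S)) := by
    have e1 : ∀ V : ι → ℝ, ENNReal.ofReal (Real.exp (s * ∑ k, (∑ z, a k z * V z) ^ 2)) =
        ∫⁻ ξ, ENNReal.ofReal (Real.exp (∑ k, (c * ∑ z, a k z * V z) * ξ k))
          ∂(Measure.pi fun _ : κ => ProbabilityTheory.gaussianReal 0 1) := by
      intro V
      rw [gauss_exp]
      congr 2
      rw [Finset.mul_sum]
      refine Finset.sum_congr rfl fun k _ => ?_
      rw [mul_pow, hsq]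
      ring
    simp_rw [e1]
    rw [lintegral_lintegral_swap]
    swap
    · apply Measurable.aemeasurable
      apply ENNReal.measurable_ofReal.comp
      apply Continuous.measurable
      fun_prop
    have e2 : ∀ ξ : κ → ℝ, ∫⁻ V, ENNReal.ofReal (Real.exp (∑ k, (c * ∑ z, a k z * V z) * ξ k))
        ∂(Measure.pi fun _ : ι => μ) ≤ ENNReal.ofReal (Real.exp (ξ ⬝ᵥ M.mulVec ξ)) := by
      intro ξ
      have e3 : ∀ V : ι → ℝ, ∑ k, (c * ∑ z, a k z * V z) * ξ k =
          ∑ z, (c * ∑ k, ξ k * a k z) * V z := by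
        intro V
        simp_rw [Finset.mul_sum, Finset.sum_mul]
        rw [Finset.sum_comm]
        exact Finset.sum_congr rfl fun z _ => Finset.sum_congr rfl fun k _ => by ring
      simp_rw [e3]
      refine (sub_exp μ hb _).trans (le_of_eq ?_)
      congr 2
      rw [hMq, Finset.mul_sum]
      refine Finset.sum_congr rfl fun z _ => ?_
      rw [mul_pow, hsq]
      ring
    refine (lintegral_mono e2).trans ?_
    rw [← ofReal_integral_eq_lintegral_ofReal hGi
      (Filter.Eventually.of_forall fun _ => (Real.exp_pos _).le)]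
    apply ENNReal.ofReal_le_ofReal
    refine hGb.trans (Real.exp_le_exp.2 ?_)
    rw [hMtr]
    have : b * s * ∑ k, ∑ z, a k z ^ 2 ≤ b * s * S :=
      mul_le_mul_of_nonneg_left hS (by positivity)
    linarith
  -- Markov
  obtain ⟨T, hT⟩ : ∃ T : ℝ, T = 2 * b * S + 4 * b * θ * τ := ⟨_, rfl⟩
  rw [← hT]
  have hmeas : Measurable (fun V : ι → ℝ =>
      ENNReal.ofReal (Real.exp (s * ∑ k, (∑ z, a k z * V z) ^ 2))) := by
    apply ENNReal.measurable_ofReal.comp
    apply Continuous.measurable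
    fun_prop
  have hsub : {V : ι → ℝ | T < ∑ k, (∑ z, a k z * V z) ^ 2} ⊆
      {V | ENNReal.ofReal (Real.exp (s * T)) ≤
        ENNReal.ofReal (Real.exp (s * ∑ k, (∑ z, a k z * V z) ^ 2))} := by
    intro V hV
    simp only [Set.mem_ofPred_eq] at hV ⊢
    exact ENNReal.ofReal_le_ofReal
      (Real.exp_le_exp.2 (mul_le_mul_of_nonneg_left hV.le hs0.le))
  have hpos : ENNReal.ofReal (Real.exp (s * T)) ≠ 0 := by
    rw [Ne, ENNReal.ofReal_eq_zero, not_le]
    exact Real.exp_pos _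
  have h1 : (Measure.pi fun _ : ι => μ) {V : ι → ℝ | T < ∑ k, (∑ z, a k z * V z) ^ 2} ≤
      ENNReal.ofReal (Real.exp (-τ)) := by
    refine (measure_mono hsub).trans ?_
    refine (meas_ge_le_lintegral_div hmeas.aemeasurable hpos ENNReal.ofReal_ne_top).trans ?_
    refine (ENNReal.div_le_div_right key _).trans (le_of_eq ?_)
    rw [← ENNReal.ofReal_div_of_pos (Real.exp_pos _), ← Real.exp_sub]
    congr 2
    rw [hT, hs]
    field_simp
    ring
  unfold Measure.real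
  exact ENNReal.toReal_le_of_le_ofReal (Real.exp_pos _).le h1

end Pool.Agent.H4R2.TD.HW
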