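import Pool.Agent.H4R2.TD.Defs

set_option autoImplicit false

open scoped BigOperators ENNReal
open MeasureTheory

namespace Pool.Agent.H4R2.TD.K2

open Pool.Agent.H4R2.LO (Zd dd adj AL bx FB cut Reg)
open Pool.Agent.H4R2.HD (Av Gn ind)

/-- one-dimensional average -/
noncomputable def AZ (F : ℤ → ℝ) (u : ℤ) : ℝ := (F (u + 1) + F (u - 1)) / 2

lemma Av_prod (F G : ℤ → ℝ) :
    Av (fun x : Zd 2 => F (x 0 + x 1) * G (x 0 - x 1)) =
      fun x => AZ F (x 0 + x 1) * AZ G (x 0 - x 1) := by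
  funext x
  unfold Av AZ
  rw [Fin.sum_univ_two]
  have e0 : ∀ y : Zd 2, (y + Pool.Agent.H12R2.And.ee (0 : Fin 2)) 0 = y 0 + 1 := fun y => by
    simp [Pool.Agent.H12R2.And.ee]
  have e1 : ∀ y : Zd 2, (y + Pool.Agent.H12R2.And.ee (0 : Fin 2)) 1 = y 1 := fun y => by
    simp [Pool.Agent.H12R2.And.ee]
  have e2 : ∀ y : Zd 2, (y - Pool.Agent.H12R2.And.ee (0 : Fin 2)) 0 = y 0 - 1 := fun y => by
    simp [Pool.Agent.H12R2.And.ee]
  have e3 : ∀ y : Zd 2, (y - Pool.Agent.H12R2.And.ee (0 : Fin 2)) 1 = y 1 := fun y => by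
    simp [Pool.Agent.H12R2.And.ee]
  have f0 : ∀ y : Zd 2, (y + Pool.Agent.H12R2.And.ee (1 : Fin 2)) 0 = y 0 := fun y => by
    simp [Pool.Agent.H12R2.And.ee]
  have f1 : ∀ y : Zd 2, (y + Pool.Agent.H12R2.And.ee (1 : Fin 2)) 1 = y 1 + 1 := fun y => by
    simp [Pool.Agent.H12R2.And.ee]
  have f2 : ∀ y : Zd 2, (y - Pool.Agent.H12R2.And.ee (1 : Fin 2)) 0 = y 0 := fun y => by
    simp [Pool.Agent.H12R2.And.ee]
  have f3 : ∀ y : Zd 2, (y - Pool.Agent.H12R2.And.ee (1 : Fin 2)) 1 = y 1 - 1 := fun y => by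
    simp [Pool.Agent.H12R2.And.ee]
  simp only [e0, e1, e2, e3, f0, f1, f2, f3]
  rw [show x 0 + 1 + x 1 = x 0 + x 1 + 1 by ring, show x 0 + 1 - x 1 = x 0 - x 1 + 1 by ring,
    show x 0 - 1 + x 1 = x 0 + x 1 - 1 by ring, show x 0 - 1 - x 1 = x 0 - x 1 - 1 by ring,
    show x 0 + (x 1 + 1) = x 0 + x 1 + 1 by ring, show x 0 - (x 1 + 1) = x 0 - x 1 - 1 by ring,
    show x 0 + (x 1 - 1) = x 0 + x 1 - 1 by ring, show x 0 - (x 1 - 1) = x 0 - x 1 + 1 by ring]
  push_cast
  ring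

lemma Av_iter (F G : ℤ → ℝ) (n : ℕ) :
    Av^[n] (fun x : Zd 2 => F (x 0 + x 1) * G (x 0 - x 1)) =
      fun x => (AZ^[n] F) (x 0 + x 1) * (AZ^[n] G) (x 0 - x 1) := by
  induction n with
  | zero => rfl
  | succ n ih =>
    rw [Function.iterate_succ_apply', ih, Av_prod]
    simp only [Function.iterate_succ_apply']

/-- point mass on `ℤ` -/
noncomputable def dl (c : ℤ) (u : ℤ) : ℝ := if u = c then 1 else 0

lemma ind_eq (z : Zd 2) :
    (ind z : Zd 2 → ℝ) = fun x => dl (z 0 + z 1) (x 0 + x 1) * dl (z 0 - z 1) (x 0 - x 1) := by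
  funext x
  unfold ind dl
  by_cases h : x = z
  · subst h; simp
  · simp only [h, if_false]
    by_cases h1 : x 0 + x 1 = z 0 + z 1
    · by_cases h2 : x 0 - x 1 = z 0 - z 1
      · exfalso
        apply h
        funext i
        fin_cases i
        · simp only [Fin.zero_eta]; omega
        · simp only [Fin.mk_one]; omega
      · simp [h2]
    · simp [h1]

lemma closed (c : ℤ) (n : ℕ) : ∀ u : ℤ,
    (∀ k : ℕ, u = c + 2 * k - n → (AZ^[n] (dl c)) u = (n.choose k : ℝ) / 2 ^ n) ∧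
    ((∀ k : ℕ, u ≠ c + 2 * k - n) → (AZ^[n] (dl c)) u = 0) := by
  induction n with
  | zero =>
    intro u
    constructor
    · intro k hk
      rcases k with _ | k
      · have : u = c := by simpa using hk
        simp [dl, this]
      · have : u ≠ c := by push_cast at hk; omega
        simp [dl, this]
    · intro h
      have : u ≠ c := by simpa using h 0
      simp [dl, this]
  | succ n ih =>
    intro u
    simp only [Function.iterate_succ_apply']
    constructor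
    · intro k hk
      unfold AZ
      change ((AZ^[n] (dl c)) (u + 1) + (AZ^[n] (dl c)) (u - 1)) / 2 = _
      have h1 : (AZ^[n] (dl c)) (u + 1) = (n.choose k : ℝ) / 2 ^ n :=
        (ih (u + 1)).1 k (by push_cast at hk; omega)
      rcases k with _ | k
      · have h2 : (AZ^[n] (dl c)) (u - 1) = 0 := (ih (u - 1)).2 (fun k' hk' => by
          push_cast at hk; omega)
        rw [h1, h2]
        simp only [Nat.choose_zero_right]
        rw [pow_succ]
        field_simp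
        norm_num
      · have h2 : (AZ^[n] (dl c)) (u - 1) = (n.choose k : ℝ) / 2 ^ n :=
          (ih (u - 1)).1 k (by push_cast at hk; omega)
        rw [h1, h2, Nat.choose_succ_succ, pow_succ]
        push_cast
        field_simp
        ring
    · intro h
      unfold AZ
      change ((AZ^[n] (dl c)) (u + 1) + (AZ^[n] (dl c)) (u - 1)) / 2 = _
      have h1 : (AZ^[n] (dl c)) (u + 1) = 0 := (ih (u + 1)).2 (fun k hk => h k (by push_cast; omega))
      have h2 : (AZ^[n] (dl c)) (u - 1) = 0 := (ih (u - 1)).2 (fun k hk => h (k + 1) (by push_cast; omega))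
      rw [h1, h2]; simp

lemma nonneg (c : ℤ) (n : ℕ) (u : ℤ) : 0 ≤ (AZ^[n] (dl c)) u := by
  by_cases h : ∀ k : ℕ, u ≠ c + 2 * k - n
  · rw [(closed c n u).2 h]
  · push Not at h
    obtain ⟨k, hk⟩ := h
    rw [(closed c n u).1 k hk]; positivity

/-- `q m = centralBinom m / 4 ^ m` -/
noncomputable def q (m : ℕ) : ℝ := (m.centralBinom : ℝ) / 4 ^ m

lemma q_sq (m : ℕ) : q m ^ 2 * (2 * m + 1) ≤ 1 := by
  induction m with
  | zero => simp [q]
  | succ m ih =>
    have h : ((m : ℝ) + 1) * ((m + 1).centralBinom : ℝ) = 2 * (2 * m + 1) * (m.centralBinom : ℝ) := by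
      exact_mod_cast Nat.succ_mul_centralBinom_succ m
    have h2 : q (m + 1) = q m * ((2 * m + 1) / (2 * m + 2)) := by
      unfold q
      rw [pow_succ]
      have : ((m + 1).centralBinom : ℝ) = 2 * (2 * m + 1) * (m.centralBinom : ℝ) / (m + 1) := by
        rw [eq_div_iff (by positivity), ← h]; ring
      rw [this]
      field_simp
      ring
    rw [h2]
    push_cast
    have hm : (0 : ℝ) ≤ m := Nat.cast_nonneg m
    have e : (q m * ((2 * m + 1) / (2 * m + 2))) ^ 2 * (2 * ((m : ℝ) + 1) + 1) =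
        (q m ^ 2 * (2 * m + 1)) * (((2 * m + 1) * (2 * m + 3)) / (2 * m + 2) ^ 2) := by
      field_simp
      ring
    rw [e]
    have h3 : ((2 * (m : ℝ) + 1) * (2 * m + 3)) / (2 * m + 2) ^ 2 ≤ 1 := by
      rw [div_le_one (by positivity)]; nlinarith
    have h4 : 0 ≤ ((2 * (m : ℝ) + 1) * (2 * m + 3)) / (2 * m + 2) ^ 2 := by positivity
    calc _ ≤ 1 * (((2 * (m : ℝ) + 1) * (2 * m + 3)) / (2 * m + 2) ^ 2) :=
          mul_le_mul_of_nonneg_right ih h4
      _ ≤ 1 := by linarith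

lemma even_le (c : ℤ) (m : ℕ) (u : ℤ) : (AZ^[2 * m] (dl c)) u ≤ q m := by
  by_cases h : ∀ k : ℕ, u ≠ c + 2 * k - (2 * m : ℕ)
  · rw [(closed c (2 * m) u).2 h]; unfold q; positivity
  · push Not at h
    obtain ⟨k, hk⟩ := h
    rw [(closed c (2 * m) u).1 k hk, q, pow_mul]
    norm_num
    rw [div_le_div_iff_of_pos_right (by positivity)]
    exact_mod_cast Nat.choose_le_centralBinom k m

lemma odd_le (c : ℤ) (m : ℕ) (u : ℤ) : (AZ^[2 * m + 1] (dl c)) u ≤ q m := by
  rw [Function.iterate_succ_apply']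
  unfold AZ
  change ((AZ^[2 * m] (dl c)) (u + 1) + (AZ^[2 * m] (dl c)) (u - 1)) / 2 ≤ _
  have h1 := even_le c m (u + 1)
  have h2 := even_le c m (u - 1)
  linarith

set_option linter.dupNamespace false in
theorem K2 : S_K2 := by
  intro n z x
  rw [ind_eq, Av_iter]
  obtain ⟨m, rfl | rfl⟩ := Nat.even_or_odd' n
  · have h1 := even_le (z 0 + z 1) m (x 0 + x 1)
    have h2 := even_le (z 0 - z 1) m (x 0 - x 1)
    have h3 := nonneg (z 0 + z 1) (2 * m) (x 0 + x 1)
    have h4 := nonneg (z 0 - z 1) (2 * m) (x 0 - x 1)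
    have h5 := q_sq m
    rw [le_div_iff₀ (by positivity)]
    push_cast
    have h6 : (AZ^[2 * m] (dl (z 0 + z 1))) (x 0 + x 1) * (AZ^[2 * m] (dl (z 0 - z 1))) (x 0 - x 1) ≤
        q m ^ 2 := by
      rw [sq]; exact mul_le_mul h1 h2 h4 (h3.trans h1)
    have hm : (0 : ℝ) ≤ m := Nat.cast_nonneg m
    calc _ ≤ q m ^ 2 * (2 * m + 1) := mul_le_mul_of_nonneg_right h6 (by positivity)
      _ ≤ 2 := by linarith
  · have h1 := odd_le (z 0 + z 1) m (x 0 + x 1)
    have h2 := odd_le (z 0 - z 1) m (x 0 - x 1)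
    have h3 := nonneg (z 0 + z 1) (2 * m + 1) (x 0 + x 1)
    have h4 := nonneg (z 0 - z 1) (2 * m + 1) (x 0 - x 1)
    have h5 := q_sq m
    rw [le_div_iff₀ (by positivity)]
    push_cast
    have h6 : (AZ^[2 * m + 1] (dl (z 0 + z 1))) (x 0 + x 1) *
        (AZ^[2 * m + 1] (dl (z 0 - z 1))) (x 0 - x 1) ≤ q m ^ 2 := by
      rw [sq]; exact mul_le_mul h1 h2 h4 (h3.trans h1)
    have hm : (0 : ℝ) ≤ m := Nat.cast_nonneg m
    calc _ ≤ q m ^ 2 * (2 * m + 1 + 1) := mul_le_mul_of_nonneg_right h6 (by positivity)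
      _ ≤ 2 := by nlinarith [sq_nonneg (q m)]

theorem G2 : S_G2 := by
  intro N z x hN
  unfold Gn
  have h1 : ∑ n ∈ Finset.range N, (Av^[n] (ind z)) x ≤ ∑ n ∈ Finset.range N, 2 / ((n : ℝ) + 1) :=
    Finset.sum_le_sum fun n _ => K2 n z x
  have h2 : ∑ n ∈ Finset.range N, 2 / ((n : ℝ) + 1) = 2 * (harmonic N : ℝ) := by
    rw [harmonic]
    push_cast
    rw [Finset.mul_sum]
    refine Finset.sum_congr rfl fun n _ => ?_
    rw [div_eq_mul_inv]
  have h3 := harmonic_le_one_add_log N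
  rw [div_le_iff₀ (by norm_num)]
  push_cast
  linarith

end Pool.Agent.H4R2.TD.K2
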