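import Pool.Agent.H4R2.TD.Defs

/-!
# LB: the local form bound in two dimensions (helper4, team TD)
-/

set_option autoImplicit false

open scoped BigOperators ENNReal
open MeasureTheory

namespace Pool.Agent.H4R2.TD.LB

open Pool.Agent.H4R2.LO (Zd dd adj AL bx FB cut Reg)
open Pool.Agent.H4R2.HD (Av Gn ind)
open Pool.Agent.H4R2.HU.Low (LocB)

theorem locB2 (hG2 : S_G2) (hGE : S_GE) (hL2 : S_L2) (hLI : S_LI) (hSG : S_SG) (hFF : S_FF)
    (hBA : Pool.Agent.H4R2.HD.S_BA_param) : S_LB := by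
  intro μ _ b hb lam τ L0 N hlam hlam1 hτ hN Λ Ω x0 L hL hΩ
  have hb0 : 0 < b := hb.1
  have hN1 : (1 : ℝ) ≤ N := by
    refine le_trans ?_ hN
    rw [le_div_iff₀ (by positivity)]
    nlinarith
  have hN1' : 1 ≤ N := by exact_mod_cast hN1
  have hlog : 0 ≤ Real.log N := Real.log_nonneg hN1
  set P : Measure (Λ → ℝ) := Measure.pi fun _ : Λ => μ with hP
  have hPp : IsProbabilityMeasure P := by rw [hP]; infer_instance
  set M : ℝ := Real.sqrt (b * (1 + Real.log N) * τ) with hM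
  set η : ℝ := Real.sqrt (4 * b * τ / (N + 1)) with hη
  have hM0 : 0 ≤ M := Real.sqrt_nonneg _
  have hη0 : 0 ≤ η := Real.sqrt_nonneg _
  have hM2 : M ^ 2 = b * (1 + Real.log N) * τ := Real.sq_sqrt (by positivity)
  have hη2 : η ^ 2 = 4 * b * τ / (N + 1) := Real.sq_sqrt (by positivity)
  -- gradients
  have hgrad : ∀ (x : Zd 2) (i : Fin 2),
      P.real {V | M < |Gn N (Wz Λ V) (x + Pi.single i 1) - Gn N (Wz Λ V) x|} ≤
        2 * Real.exp (-τ) := by
    intro x i
    have h1 : ∀ V : Λ → ℝ, Gn N (Wz Λ V) (x + Pi.single i 1) - Gn N (Wz Λ V) x =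
        ∑ z : Λ, (Gn N (ind z.1) (x + Pi.single i 1) - Gn N (ind z.1) x) * V z := by
      intro V
      rw [(hLI Λ V N _).2, (hLI Λ V N _).2, ← Finset.sum_sub_distrib]
      exact Finset.sum_congr rfl fun z _ => by ring
    simp only [h1]
    have h2 : ∑ z : Λ, (Gn N (ind z.1) (x + Pi.single i 1) - Gn N (ind z.1) x) ^ 2 ≤
        (1 + Real.log N) / 2 := by
      have h3 := Finset.sum_coe_sort Λ
        (fun z => (Gn N (ind z) (x + Pi.single i 1) - Gn N (ind z) x) ^ 2)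
      rw [h3]
      exact (hGE (by norm_num) N Λ x i).trans (hG2 N 0 0 hN1')
    have h3 := hSG (ι := Λ) μ b hb
      (fun z => Gn N (ind z.1) (x + Pi.single i 1) - Gn N (ind z.1) x) _ M h2 (by positivity) hM0
    refine h3.trans (le_of_eq ?_)
    congr 3
    rw [hM2]
    field_simp
  have havg : ∀ x : Zd 2, P.real {V | η < |(Av^[N] (Wz Λ V)) x|} ≤ 2 * Real.exp (-τ) := by
    intro x
    simp only [fun V => (hLI Λ V N x).1]
    have h2 : ∑ z : Λ, ((Av^[N] (ind z.1)) x) ^ 2 ≤ 2 / ((N : ℝ) + 1) := by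
      have h3 := Finset.sum_coe_sort Λ (fun z => ((Av^[N] (ind z)) x) ^ 2)
      rw [h3]
      exact hL2 N Λ x
    have h3 := hSG (ι := Λ) μ b hb (fun z => (Av^[N] (ind z.1)) x) _ η h2 (by positivity) hη0
    refine h3.trans (le_of_eq ?_)
    congr 3
    rw [hη2]
    field_simp
    ring
  -- the bad event
  set A1 : Λ → Fin 2 → Set (Λ → ℝ) := fun x i =>
    {V | M < |Gn N (Wz Λ V) (x.1 + Pi.single i 1) - Gn N (Wz Λ V) x.1|} with hA1
  set A2 : Λ → Fin 2 → Set (Λ → ℝ) := fun x i =>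
    {V | M < |Gn N (Wz Λ V) x.1 - Gn N (Wz Λ V) (x.1 - Pi.single i 1)|} with hA2
  set A3 : Λ → Set (Λ → ℝ) := fun x => {V | η < |(Av^[N] (Wz Λ V)) x.1|} with hA3
  set Bd : Set (Λ → ℝ) := ⋃ x ∈ Ω, ((⋃ i, (A1 x i ∪ A2 x i)) ∪ A3 x) with hBd
  have hA2b : ∀ x i, P.real (A2 x i) ≤ 2 * Real.exp (-τ) := by
    intro x i
    have := hgrad (x.1 - Pi.single i 1) i
    simpa only [sub_add_cancel] using this
  have hcard : (Ω.card : ℝ) ≤ L0 ^ 2 := by
    have h1 : Ω.card ≤ (2 * L + 1) ^ 2 := by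
      refine le_trans (Finset.card_le_card ?_) (Pool.Agent.H4R2.LO.Dec.filt_card Λ x0 L)
      intro z hz
      exact Finset.mem_filter.2 ⟨Finset.mem_univ _, hΩ z hz⟩
    calc (Ω.card : ℝ) ≤ ((2 * L + 1 : ℕ) : ℝ) ^ 2 := by exact_mod_cast h1
      _ ≤ L0 ^ 2 := by
          apply pow_le_pow_left₀ (by positivity)
          push_cast
          linarith
  have hBdm : P.real Bd ≤ L0 ^ 2 * (10 * Real.exp (-τ)) := by
    calc P.real Bd ≤ ∑ x ∈ Ω, P.real ((⋃ i, (A1 x i ∪ A2 x i)) ∪ A3 x) :=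
          measureReal_biUnion_finset_le _ _
      _ ≤ ∑ x ∈ Ω, 10 * Real.exp (-τ) := by
          refine Finset.sum_le_sum fun x _ => ?_
          have a1 := measureReal_union_le (μ := P) (⋃ i, (A1 x i ∪ A2 x i)) (A3 x)
          have a2 := measureReal_iUnion_fintype_le (μ := P) (fun i => A1 x i ∪ A2 x i)
          rw [Fin.sum_univ_two] at a2
          have a3 := measureReal_union_le (μ := P) (A1 x 0) (A2 x 0)
          have a4 := measureReal_union_le (μ := P) (A1 x 1) (A2 x 1)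
          have b1 : P.real (A1 x 0) ≤ 2 * Real.exp (-τ) := hgrad x.1 0
          have b2 : P.real (A1 x 1) ≤ 2 * Real.exp (-τ) := hgrad x.1 1
          have b3 := hA2b x 0
          have b4 := hA2b x 1
          have b5 : P.real (A3 x) ≤ 2 * Real.exp (-τ) := havg x.1
          linarith
      _ = Ω.card * (10 * Real.exp (-τ)) := by rw [Finset.sum_const, nsmul_eq_mul]
      _ ≤ L0 ^ 2 * (10 * Real.exp (-τ)) :=
          mul_le_mul_of_nonneg_right hcard (by positivity)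
  have hle : lam * η ≤ 2 * lam ^ 2 * Real.sqrt (b * τ) := by
    have h1 : η ≤ 2 * lam * Real.sqrt (b * τ) := by
      rw [hη]
      apply Real.sqrt_le_iff.2
      refine ⟨by positivity, ?_⟩
      rw [mul_pow, Real.sq_sqrt (by positivity), div_le_iff₀ (by positivity)]
      have h2 : 1 ≤ lam ^ 2 * (N + 1) := by
        rw [div_le_iff₀ (by positivity)] at hN
        nlinarith [sq_nonneg lam]
      have h3 : 0 ≤ 4 * (b * τ) := by positivity
      nlinarith [mul_le_mul_of_nonneg_left h2 h3]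
    nlinarith
  have hsub : {V | ¬ FB (AL Λ) Ω lam V (-(2 * b * lam ^ 2 * (1 + Real.log N) * τ +
      2 * lam ^ 2 * Real.sqrt (b * τ)) - 2 * ((2 : ℕ) : ℝ))} ⊆ Bd := by
    intro V hV
    by_contra hB
    apply hV
    simp only [hBd, hA1, hA2, hA3, Set.mem_iUnion, Set.mem_union, Set.mem_ofPred_eq, not_exists,
      not_or, not_lt] at hB
    have key := hFF Λ Ω V lam M η (Gn N (Wz Λ V)) hlam.le hM0 hη0
      (fun x hx i => ⟨((hB x hx).1 i).1, ((hB x hx).1 i).2⟩) (fun x hx => by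
        have h1 := hBA (d := 2) (by norm_num) N (Wz Λ V) x.1
        have h2 : Wz Λ V x.1 = V x := by
          unfold Wz
          rw [dif_pos x.2]
        rw [h2] at h1
        have h3 := (hB x hx).2
        rw [h1]
        simpa using h3)
    refine Pool.Agent.H4R2.LO.Dec.FB_mono _ _ _ _ _ _ ?_ key
    rw [hM2]
    push_cast
    nlinarith [hle]
  calc P {V | ¬ FB (AL Λ) Ω lam V (-(2 * b * lam ^ 2 * (1 + Real.log N) * τ +
      2 * lam ^ 2 * Real.sqrt (b * τ)) - 2 * ((2 : ℕ) : ℝ))} ≤ P Bd := measure_mono hsub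
    _ = ENNReal.ofReal (P.real Bd) := by rw [ofReal_measureReal (measure_ne_top P Bd)]
    _ ≤ ENNReal.ofReal (L0 ^ 2 * (10 * Real.exp (-τ))) := ENNReal.ofReal_le_ofReal hBdm

end Pool.Agent.H4R2.TD.LB
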