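import Pool.Agent.H4R2.TD.Defs2

/-!
# LC: the local form bound in two dimensions, sharp order (helper228)
-/

set_option autoImplicit false

open scoped BigOperators ENNReal
open MeasureTheory

namespace Pool.Agent.H4R2.TD.LC

open Pool.Agent.H4R2.LO (Zd dd adj AL bx FB cut Reg)
open Pool.Agent.H4R2.HD (Av Gn ind)
open Pool.Agent.H4R2.HU.Low (LocB)

lemma Qg_nonneg {d : ℕ} (g : Zd d → ℝ) (x : Zd d) : 0 ≤ Qg g x :=
  Finset.sum_nonneg fun _ _ => add_nonneg (sq_nonneg _) (sq_nonneg _)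

/-- the coefficients of the linear forms -/
noncomputable def aa (N : ℕ) (Λ B : Finset (Zd 2)) (p : Zd 2 → ℝ)
    (k : (B × Fin 2) × Bool) (w : Λ) : ℝ :=
  Real.sqrt (p k.1.1.1) * (if k.2 = true then
    Gn N (ind w.1) (k.1.1.1 + Pi.single k.1.2 1) - Gn N (ind w.1) k.1.1.1 else
    Gn N (ind w.1) k.1.1.1 - Gn N (ind w.1) (k.1.1.1 - Pi.single k.1.2 1))

lemma aa_sum (hLI : S_LI) (N : ℕ) (Λ B : Finset (Zd 2)) (p : Zd 2 → ℝ) (hp : ∀ z, 0 ≤ p z)
    (f : Λ → ℝ) :
    ∑ k, (∑ w, aa N Λ B p k w * f w) ^ 2 = ∑ z ∈ B, p z * Qg (Gn N (Wz Λ f)) z := by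
  have h1 : ∀ (z : B) (i : Fin 2), ∑ w, aa N Λ B p ((z, i), true) w * f w =
      Real.sqrt (p z.1) * (Gn N (Wz Λ f) (z.1 + Pi.single i 1) - Gn N (Wz Λ f) z.1) := by
    intro z i
    rw [(hLI Λ f N _).2, (hLI Λ f N _).2, ← Finset.sum_sub_distrib, Finset.mul_sum]
    refine Finset.sum_congr rfl fun w _ => ?_
    simp only [aa, if_true]
    ring
  have h2 : ∀ (z : B) (i : Fin 2), ∑ w, aa N Λ B p ((z, i), false) w * f w =
      Real.sqrt (p z.1) * (Gn N (Wz Λ f) z.1 - Gn N (Wz Λ f) (z.1 - Pi.single i 1)) := by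
    intro z i
    rw [(hLI Λ f N _).2, (hLI Λ f N _).2, ← Finset.sum_sub_distrib, Finset.mul_sum]
    refine Finset.sum_congr rfl fun w _ => ?_
    simp only [aa, Bool.false_eq_true, if_false]
    ring
  rw [Fintype.sum_prod_type, Fintype.sum_prod_type,
    ← Finset.sum_coe_sort B (fun z => p z * Qg (Gn N (Wz Λ f)) z)]
  refine Finset.sum_congr rfl fun z _ => ?_
  unfold Qg
  rw [Finset.mul_sum]
  refine Finset.sum_congr rfl fun i _ => ?_
  rw [Fintype.sum_bool, h1, h2, mul_pow, mul_pow, Real.sq_sqrt (hp _)]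
  ring

lemma aa_sq (hG2 : S_G2) (hGE : S_GE) (N : ℕ) (hN : 1 ≤ N) (Λ B : Finset (Zd 2))
    (p : Zd 2 → ℝ) (hp : ∀ z, 0 ≤ p z) (T : ℝ) (hT : ∑ z ∈ B, p z ≤ T) :
    ∑ k, ∑ w, aa N Λ B p k w ^ 2 ≤ 2 * (1 + Real.log N) * T := by
  have hlog : 0 ≤ Real.log N := Real.log_nonneg (by exact_mod_cast hN)
  have hg : ∀ (x : Zd 2) (i : Fin 2),
      ∑ w : Λ, (Gn N (ind w.1) (x + Pi.single i 1) - Gn N (ind w.1) x) ^ 2 ≤
        (1 + Real.log N) / 2 := by
    intro x i
    have h3 := Finset.sum_coe_sort Λ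
      (fun z => (Gn N (ind z) (x + Pi.single i 1) - Gn N (ind z) x) ^ 2)
    rw [h3]
    exact (hGE (by norm_num) N Λ x i).trans (hG2 N 0 0 hN)
  have h1 : ∀ (z : B) (i : Fin 2), ∑ w, aa N Λ B p ((z, i), true) w ^ 2 ≤
      p z.1 * ((1 + Real.log N) / 2) := by
    intro z i
    have : ∑ w, aa N Λ B p ((z, i), true) w ^ 2 =
        p z.1 * ∑ w : Λ, (Gn N (ind w.1) (z.1 + Pi.single i 1) - Gn N (ind w.1) z.1) ^ 2 := by
      rw [Finset.mul_sum]
      refine Finset.sum_congr rfl fun w _ => ?_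
      simp only [aa, if_true]
      rw [mul_pow, Real.sq_sqrt (hp _)]
    rw [this]
    exact mul_le_mul_of_nonneg_left (hg _ _) (hp _)
  have h2 : ∀ (z : B) (i : Fin 2), ∑ w, aa N Λ B p ((z, i), false) w ^ 2 ≤
      p z.1 * ((1 + Real.log N) / 2) := by
    intro z i
    have : ∑ w, aa N Λ B p ((z, i), false) w ^ 2 =
        p z.1 * ∑ w : Λ, (Gn N (ind w.1) z.1 - Gn N (ind w.1) (z.1 - Pi.single i 1)) ^ 2 := by
      rw [Finset.mul_sum]
      refine Finset.sum_congr rfl fun w _ => ?_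
      simp only [aa, Bool.false_eq_true, if_false]
      rw [mul_pow, Real.sq_sqrt (hp _)]
    rw [this]
    have h4 := hg (z.1 - Pi.single i 1) i
    simp only [sub_add_cancel] at h4
    exact mul_le_mul_of_nonneg_left h4 (hp _)
  rw [Fintype.sum_prod_type, Fintype.sum_prod_type]
  calc ∑ z : B, ∑ i : Fin 2, ∑ s : Bool, ∑ w, aa N Λ B p ((z, i), s) w ^ 2
      ≤ ∑ z : B, ∑ i : Fin 2, (p z.1 * ((1 + Real.log N) / 2) +
          p z.1 * ((1 + Real.log N) / 2)) := by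
        refine Finset.sum_le_sum fun z _ => Finset.sum_le_sum fun i _ => ?_
        rw [Fintype.sum_bool]
        exact add_le_add (h1 z i) (h2 z i)
    _ = 2 * (1 + Real.log N) * ∑ z : B, p z.1 := by
        rw [Finset.mul_sum]
        refine Finset.sum_congr rfl fun z _ => ?_
        rw [Fin.sum_univ_two]
        ring
    _ = 2 * (1 + Real.log N) * ∑ z ∈ B, p z := by rw [Finset.sum_coe_sort B p]
    _ ≤ 2 * (1 + Real.log N) * T := mul_le_mul_of_nonneg_left hT (by positivity)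

/-- concentration of a weighted sum of the squared gradients -/
lemma conc (hHW : S_HW) (hLI : S_LI) (hG2 : S_G2) (hGE : S_GE) (μ : Measure ℝ)
    [IsProbabilityMeasure μ] (b : ℝ) (hb : SubG b μ) (N : ℕ) (hN : 1 ≤ N)
    (Λ B : Finset (Zd 2)) (p : Zd 2 → ℝ) (hp : ∀ z, 0 ≤ p z) (T θ τ : ℝ) (hθ : 0 < θ)
    (hτ : 0 ≤ τ) (hT : ∑ z ∈ B, p z ≤ T)
    (hf : ∀ f : Λ → ℝ, ∑ z ∈ B, p z * Qg (Gn N (Wz Λ f)) z ≤ θ * ∑ y, f y ^ 2) :
    (Measure.pi fun _ : Λ => μ).real {V | 2 * b * (2 * (1 + Real.log N) * T) + 4 * b * θ * τ <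
      ∑ z ∈ B, p z * Qg (Gn N (Wz Λ V)) z} ≤ Real.exp (-τ) := by
  have h := hHW (ι := Λ) (κ := (B × Fin 2) × Bool) μ b hb (aa N Λ B p)
    (2 * (1 + Real.log N) * T) θ τ hθ hτ
    (fun f => by rw [aa_sum hLI N Λ B p hp f]; exact hf f)
    (aa_sq hG2 hGE N hN Λ B p hp T hT)
  simpa only [aa_sum hLI N Λ B p hp] using h

theorem locC (hHW : S_HW) (hEX : S_EX) (hON1 : S_ON1) (hON3 : S_ON3) (hFG : S_FG) (hG2 : S_G2)
    (hSY : S_SY) (hGE : S_GE) (hL2 : S_L2) (hLI : S_LI) (hSG : S_SG) (hK2 : S_K2)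
    (hKB : Pool.Agent.H4R2.HD.S_KB) (hKS : Pool.Agent.H4R2.HD.S_KS)
    (hBA : Pool.Agent.H4R2.HD.S_BA_param) : S_LC := by
  intro μ _ b hb lam τ L0 N hlam hτ hN hsm Λ Ω x0 L hL hΩ
  have hb0 : 0 < b := hb.1
  have hN1 : (1 : ℝ) ≤ N := by exact_mod_cast hN
  have hlog : 0 ≤ Real.log N := Real.log_nonneg hN1
  set P : Measure (Λ → ℝ) := Measure.pi fun _ : Λ => μ with hP
  have hPp : IsProbabilityMeasure P := by rw [hP]; infer_instance
  set η : ℝ := Real.sqrt (4 * b * τ / (N + 1)) with hη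
  set q : ℝ := 4 * b * (1 + Real.log N) + 8 * b * τ with hq
  set m : ℝ := N * b * (1 + Real.log N + 20 * τ) with hm
  have hη0 : 0 ≤ η := Real.sqrt_nonneg _
  have hq0 : 0 ≤ q := by positivity
  have hη2 : η ^ 2 = 4 * b * τ / (N + 1) := Real.sq_sqrt (by positivity)
  have hmem : ∀ (n : ℕ) (x z : Zd 2), dd x z ≤ n → z ∈ bx x n := fun n x z h =>
    (Pool.Agent.H4R2.LO.Em.mem_bx x z n).2 h
  -- (a) the remainder of the parametrix
  have havg : ∀ x : Zd 2, P.real {V | η < |(Av^[N] (Wz Λ V)) x|} ≤ 2 * Real.exp (-τ) := by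
    intro x
    simp only [fun V => (hLI Λ V N x).1]
    have h2 : ∑ z : Λ, ((Av^[N] (ind z.1)) x) ^ 2 ≤ 2 / ((N : ℝ) + 1) := by
      have h3 := Finset.sum_coe_sort Λ (fun z => ((Av^[N] (ind z)) x) ^ 2)
      rw [h3]
      exact hL2 N Λ x
    have h3 := hSG (ι := Λ) μ b hb (fun z => (Av^[N] (ind z.1)) x) _ η h2 (by positivity) hη0
    refine h3.trans (le_of_eq ?_)
    congr 3
    rw [hη2]
    field_simp
    ring
  -- (b) the average of the squared gradient
  have hR : ∀ x : Zd 2, P.real {V | q < (Av^[N] (Qg (Gn N (Wz Λ V)))) x} ≤ Real.exp (-τ) := by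
    intro x
    have h1 := conc hHW hLI hG2 hGE μ b hb N hN Λ (bx x N) (fun z => (Av^[N] (ind z)) x)
      (fun z => (hKB (by norm_num) N z x).1) 1 2 τ (by norm_num) hτ.le
      (hKS (by norm_num) N (bx x N) x) (fun f => by
        calc ∑ z ∈ bx x N, (Av^[N] (ind z)) x * Qg (Gn N (Wz Λ f)) z
            ≤ ∑ z ∈ bx x N, 2 / ((N : ℝ) + 1) * Qg (Gn N (Wz Λ f)) z :=
              Finset.sum_le_sum fun z _ =>
                mul_le_mul_of_nonneg_right (hK2 N z x) (Qg_nonneg _ _)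
          _ = 2 / ((N : ℝ) + 1) * ∑ z ∈ bx x N, Qg (Gn N (Wz Λ f)) z := by
              rw [Finset.mul_sum]
          _ ≤ 2 / ((N : ℝ) + 1) * (2 * N / ((2 : ℕ) : ℝ) * ∑ y, f y ^ 2) :=
              mul_le_mul_of_nonneg_left (hON1 (by norm_num) N Λ f _) (by positivity)
          _ = 2 * (N / ((N : ℝ) + 1)) * ∑ y, f y ^ 2 := by
              push_cast
              field_simp
          _ ≤ 2 * ∑ y, f y ^ 2 := by
              apply mul_le_mul_of_nonneg_right _ (Finset.sum_nonneg fun _ _ => sq_nonneg _)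
              have : (N : ℝ) / (N + 1) ≤ 1 := by
                rw [div_le_one (by positivity)]
                linarith
              linarith)
    refine le_trans (le_of_eq ?_) h1
    congr 1
    ext V
    simp only [Set.mem_ofPred_eq]
    rw [← hEX N (Qg (Gn N (Wz Λ V))) x (bx x N) (hmem N x), hq]
    constructor <;> intro h <;> linarith
  -- (c) the supersolution
  have hGx : ∀ (V : Λ → ℝ) (x : Zd 2), Gn N (Qg (Gn N (Wz Λ V))) x =
      ∑ z ∈ bx x N, Gn N (ind x) z * Qg (Gn N (Wz Λ V)) z := by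
    intro V x
    have h1 : ∀ n ∈ Finset.range N, (Av^[n] (Qg (Gn N (Wz Λ V)))) x =
        ∑ z ∈ bx x N, (Av^[n] (ind x)) z * Qg (Gn N (Wz Λ V)) z := by
      intro n hn
      rw [hEX n _ x (bx x N) (fun z hz => hmem N x z (hz.trans (Finset.mem_range.1 hn).le))]
      refine Finset.sum_congr rfl fun z _ => ?_
      rw [(hSY n z x 0).1]
    unfold Gn at h1 ⊢
    rw [Finset.sum_congr rfl h1, Finset.sum_comm, Finset.sum_div]
    refine Finset.sum_congr rfl fun z _ => ?_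
    rw [← Finset.sum_mul]
    ring
  have hGnn : ∀ z x : Zd 2, 0 ≤ Gn N (ind z) x := by
    intro z x
    unfold Gn
    exact div_nonneg (Finset.sum_nonneg fun n _ => (hKB (by norm_num) n z x).1) (by positivity)
  have hh : ∀ x : Zd 2, P.real {V | m < Gn N (Qg (Gn N (Wz Λ V))) x} ≤ Real.exp (-τ) := by
    intro x
    have h1 := conc hHW hLI hG2 hGE μ b hb N hN Λ (bx x N) (fun z => Gn N (ind x) z)
      (fun z => hGnn x z) (N / 4) (5 * N) τ (by positivity) hτ.le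
      (by
        have h2 : ∀ z : Zd 2, Gn N (ind x) z =
            ∑ n ∈ Finset.range N, (Av^[n] (ind z)) x / 4 := by
          intro z
          unfold Gn
          rw [← Finset.sum_div]
          push_cast
          rw [show (2 * 2 : ℝ) = 4 by norm_num]
          congr 1
          refine Finset.sum_congr rfl fun n _ => ?_
          rw [(hSY n z x 0).1]
        simp only [h2]
        rw [Finset.sum_comm]
        calc ∑ n ∈ Finset.range N, ∑ z ∈ bx x N, (Av^[n] (ind z)) x / 4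
            ≤ ∑ n ∈ Finset.range N, (1 : ℝ) / 4 := by
              refine Finset.sum_le_sum fun n _ => ?_
              rw [← Finset.sum_div]
              have := hKS (by norm_num) n (bx x N) x
              linarith
          _ = N / 4 := by
              rw [Finset.sum_const, Finset.card_range, nsmul_eq_mul]
              ring)
      (fun f => hON3 N hN Λ f (bx x N) x)
    refine le_trans (le_of_eq ?_) h1
    congr 1
    ext V
    simp only [Set.mem_ofPred_eq]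
    rw [hGx V x, hm]
    have e : 2 * b * (2 * (1 + Real.log N) * (N / 4)) + 4 * b * (5 * N) * τ =
        N * b * (1 + Real.log N + 20 * τ) := by ring
    rw [e]
  -- the bad event
  set A1 : Λ → Set (Λ → ℝ) := fun x => {V | q < (Av^[N] (Qg (Gn N (Wz Λ V)))) x.1} with hA1
  set A2 : Λ → Set (Λ → ℝ) := fun x => {V | m < Gn N (Qg (Gn N (Wz Λ V))) x.1} with hA2
  set A3 : Λ → Set (Λ → ℝ) := fun x => {V | η < |(Av^[N] (Wz Λ V)) x.1|} with hA3
  set Bd : Set (Λ → ℝ) := ⋃ x ∈ Ω, ((A1 x ∪ A2 x) ∪ A3 x) with hBd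
  have hcard : (Ω.card : ℝ) ≤ L0 ^ 2 := by
    have h1 : Ω.card ≤ (2 * L + 1) ^ 2 := by
      refine le_trans (Finset.card_le_card ?_) (Pool.Agent.H4R2.LO.Dec.filt_card Λ x0 L)
      intro z hz
      exact Finset.mem_filter.2 ⟨Finset.mem_univ _, hΩ z hz⟩
    calc (Ω.card : ℝ) ≤ ((2 * L + 1 : ℕ) : ℝ) ^ 2 := by exact_mod_cast h1
      _ ≤ L0 ^ 2 := by
          apply pow_le_pow_left₀ (by positivity)
          push_cast
          linarith
  have hBdm : P.real Bd ≤ L0 ^ 2 * (4 * Real.exp (-τ)) := by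
    calc P.real Bd ≤ ∑ x ∈ Ω, P.real ((A1 x ∪ A2 x) ∪ A3 x) :=
          measureReal_biUnion_finset_le _ _
      _ ≤ ∑ x ∈ Ω, 4 * Real.exp (-τ) := by
          refine Finset.sum_le_sum fun x _ => ?_
          have a1 := measureReal_union_le (μ := P) (A1 x ∪ A2 x) (A3 x)
          have a2 := measureReal_union_le (μ := P) (A1 x) (A2 x)
          have b1 : P.real (A1 x) ≤ Real.exp (-τ) := hR x.1
          have b2 : P.real (A2 x) ≤ Real.exp (-τ) := hh x.1
          have b5 : P.real (A3 x) ≤ 2 * Real.exp (-τ) := havg x.1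
          linarith
      _ = Ω.card * (4 * Real.exp (-τ)) := by rw [Finset.sum_const, nsmul_eq_mul]
      _ ≤ L0 ^ 2 * (4 * Real.exp (-τ)) :=
          mul_le_mul_of_nonneg_right hcard (by positivity)
  have hsub : {V | ¬ FB (AL Λ) Ω lam V (-(2 * lam ^ 2 * q + lam * η) - 2 * ((2 : ℕ) : ℝ))} ⊆
      Bd := by
    intro V hV
    by_contra hB
    apply hV
    simp only [hBd, hA1, hA2, hA3, Set.mem_iUnion, Set.mem_union, Set.mem_ofPred_eq, not_exists,
      not_or, not_lt] at hB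
    refine hFG Λ Ω V lam q η (Gn N (Wz Λ V)) (Gn N (Qg (Gn N (Wz Λ V))))
      (Av^[N] (Qg (Gn N (Wz Λ V)))) hlam.le hq0 hη0 ?_ ?_ ?_
    · intro x
      rw [hGx V x]
      exact Finset.sum_nonneg fun z _ => mul_nonneg (hGnn _ _) (Qg_nonneg _ _)
    · intro x
      exact hBA (d := 2) (by norm_num) N (Qg (Gn N (Wz Λ V))) x
    · intro x hx
      obtain ⟨⟨h1, h2⟩, h3⟩ := hB x hx
      refine ⟨?_, h1, ?_⟩
      · calc 4 * lam ^ 2 * Gn N (Qg (Gn N (Wz Λ V))) x.1 ≤ 4 * lam ^ 2 * m :=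
              mul_le_mul_of_nonneg_left h2 (by positivity)
          _ ≤ 1 := hsm
      · have h4 : 2 * ((2 : ℕ) : ℝ) * Gn N (Wz Λ V) x.1 - nb (Gn N (Wz Λ V)) x.1 =
            Wz Λ V x.1 - (Av^[N] (Wz Λ V)) x.1 :=
          hBA (d := 2) (by norm_num) N (Wz Λ V) x.1
        have h5 : Wz Λ V x.1 = V x := by
          unfold Wz
          rw [dif_pos x.2]
        rw [h4, h5]
        simpa using h3
  calc P {V | ¬ FB (AL Λ) Ω lam V (-(2 * lam ^ 2 * q + lam * η) - 2 * ((2 : ℕ) : ℝ))}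
      ≤ P Bd := measure_mono hsub
    _ = ENNReal.ofReal (P.real Bd) := by rw [ofReal_measureReal (measure_ne_top P Bd)]
    _ ≤ ENNReal.ofReal (L0 ^ 2 * (4 * Real.exp (-τ))) := ENNReal.ofReal_le_ofReal hBdm

end Pool.Agent.H4R2.TD.LC
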