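import Pool.Agent.H4R2.TD.Defs
import Pool.Agent.H4R2.HD.BA

/-!
# Linearity of the iterated averages and of the parametrix (task LI)
-/

set_option autoImplicit false

open scoped BigOperators

namespace Pool.Agent.H4R2.TD.LI

open Pool.Agent.H4R2.LO (Zd dd adj AL bx FB cut Reg)
open Pool.Agent.H4R2.HD (Av Gn ind)
open Pool.Agent.H4R2.TD (Wz)

theorem Wz_eq {d : ℕ} (Λ : Finset (Zd d)) (V : Λ → ℝ) :
    Wz Λ V = fun y => ∑ z ∈ (Finset.univ : Finset Λ), V z * ind z.1 y := by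
  classical
  funext y
  unfold Wz
  split_ifs with h
  · rw [Finset.sum_eq_single (⟨y, h⟩ : Λ)]
    · unfold ind
      simp
    · intro z _ hz
      unfold ind
      rw [if_neg, mul_zero]
      intro hy
      exact hz (Subtype.ext hy.symm)
    · intro h2
      exact absurd (Finset.mem_univ _) h2
  · symm
    apply Finset.sum_eq_zero
    intro z _
    unfold ind
    rw [if_neg, mul_zero]
    intro hy
    exact h (hy ▸ z.2)

theorem iter_Wz {d : ℕ} (Λ : Finset (Zd d)) (V : Λ → ℝ) (n : ℕ) (x : Zd d) :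
    (Av^[n] (Wz Λ V)) x = ∑ z : Λ, (Av^[n] (ind z.1)) x * V z := by
  rw [Wz_eq]
  have h1 := HD.BA.iter_sum (d := d) (Finset.univ : Finset Λ) n (fun z y => V z * ind z.1 y)
  rw [h1]
  refine Finset.sum_congr rfl fun z _ => ?_
  have h2 := HD.BA.iter_smul (d := d) n (V z) (ind z.1)
  have h3 := congrFun h2 x
  rw [h3, mul_comm]

theorem t_LI : S_LI := by
  intro d Λ V n x
  refine ⟨iter_Wz Λ V n x, ?_⟩
  unfold Gn
  have h1 : ∑ m ∈ Finset.range n, (Av^[m] (Wz Λ V)) x =
      ∑ m ∈ Finset.range n, ∑ z : Λ, (Av^[m] (ind z.1)) x * V z :=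
    Finset.sum_congr rfl fun m _ => iter_Wz Λ V m x
  rw [h1, Finset.sum_comm, Finset.sum_div]
  refine Finset.sum_congr rfl fun z _ => ?_
  rw [← Finset.sum_mul]
  ring

end Pool.Agent.H4R2.TD.LI
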