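import Pool.Agent.H4R2.TD.Defs

/-!
# LW: laws
-/

set_option autoImplicit false

open MeasureTheory ProbabilityTheory

namespace Pool.Agent.H4R2.TD.LW

theorem LW_ok : Pool.Agent.H4R2.TD.S_LW := by
  refine ⟨?_, ?_⟩
  · intro μ _ hsupp hmean
    have h1 : HasSubgaussianMGF (fun t : ℝ => t) ((‖(1:ℝ) - (-1)‖₊ / 2) ^ 2) μ := by
      refine hasSubgaussianMGF_of_mem_Icc_of_integral_eq_zero aemeasurable_id' ?_ hmean
      rw [ae_iff]
      exact hsupp
    have hc : (((‖(1:ℝ) - (-1)‖₊ / 2) ^ 2 : NNReal) : ℝ) = 1 := by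
      push_cast
      rw [Real.norm_eq_abs]
      norm_num
    refine ⟨one_pos, fun s => ⟨h1.integrable_exp_mul s, ?_⟩⟩
    have h2 := h1.mgf_le s
    rw [hc] at h2
    exact h2
  · refine ⟨one_pos, fun s => ⟨integrable_exp_mul_gaussianReal s, ?_⟩⟩
    have h := congrFun (mgf_id_gaussianReal (μ := 0) (v := 1)) s
    simp only [mgf, id] at h
    rw [h]
    simp

end Pool.Agent.H4R2.TD.LW
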