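import Pool.Agent.H4R2.TD.Defs2
import Pool.Agent.H4R2.HD.BA

/-!
# ON1: the Dirichlet energy of the parametrix (with reusable lemmas on finitely supported functions)
-/

set_option autoImplicit false

open scoped BigOperators ENNReal
open MeasureTheory

namespace Pool.Agent.H4R2.TD.ON1

open Pool.Agent.H4R2.LO (Zd dd adj AL bx FB cut Reg)
open Pool.Agent.H4R2.HD (Av Gn ind)

variable {d : ℕ}

/-- finitely supported -/
abbrev FS (u : Zd d → ℝ) : Prop := (Function.support u).Finite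

lemma fs_of {u v : Zd d → ℝ} (hu : FS u) (h : ∀ x, u x = 0 → v x = 0) : FS v :=
  hu.subset (fun x hx => by rw [Function.mem_support] at hx ⊢; exact fun h0 => hx (h x h0))

lemma fs_add {u v : Zd d → ℝ} (hu : FS u) (hv : FS v) : FS (fun x => u x + v x) :=
  (hu.union hv).subset (Function.support_add u v)

lemma fs_sub {u v : Zd d → ℝ} (hu : FS u) (hv : FS v) : FS (fun x => u x - v x) :=
  (hu.union hv).subset (Function.support_sub u v)

lemma fs_mulL {u : Zd d → ℝ} (hu : FS u) (v : Zd d → ℝ) : FS (fun x => u x * v x) :=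
  fs_of hu (fun x h => by rw [h, zero_mul])

lemma fs_mulR {u : Zd d → ℝ} (hu : FS u) (v : Zd d → ℝ) : FS (fun x => v x * u x) :=
  fs_of hu (fun x h => by rw [h, mul_zero])

lemma fs_sq {u : Zd d → ℝ} (hu : FS u) : FS (fun x => u x ^ 2) :=
  fs_of hu (fun x h => by rw [h]; norm_num)

lemma fs_div {u : Zd d → ℝ} (hu : FS u) (c : ℝ) : FS (fun x => u x / c) :=
  fs_of hu (fun x h => by rw [h, zero_div])

lemma fs_zero : FS (fun _ : Zd d => (0 : ℝ)) := by
  have : Function.support (fun _ : Zd d => (0 : ℝ)) = ∅ := by simp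
  unfold FS
  rw [this]
  exact Set.finite_empty

lemma fs_sum {ι : Type} (s : Finset ι) (u : ι → Zd d → ℝ) (h : ∀ i ∈ s, FS (u i)) :
    FS (fun x => ∑ i ∈ s, u i x) := by
  classical
  induction s using Finset.induction_on with
  | empty => simpa using fs_zero
  | insert a s ha ih =>
    have h1 := fs_add (h a (Finset.mem_insert_self _ _))
      (ih (fun i hi => h i (Finset.mem_insert_of_mem hi)))
    refine fs_of h1 (fun x hx => ?_)
    rw [Finset.sum_insert ha]; exact hx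

lemma fs_shift {u : Zd d → ℝ} (hu : FS u) (w : Zd d) : FS (fun x => u (x + w)) :=
  hu.preimage (f := fun x => x + w) (fun a _ b _ h => by simpa using h)

lemma fs_shift' {u : Zd d → ℝ} (hu : FS u) (w : Zd d) : FS (fun x => u (x - w)) :=
  hu.preimage (f := fun x => x - w) (fun a _ b _ h => by simpa using h)

lemma fs_sm {u : Zd d → ℝ} (hu : FS u) : Summable u := summable_of_hasFiniteSupport hu

lemma ts_shift (u : Zd d → ℝ) (w : Zd d) : ∑' x, u (x + w) = ∑' x, u x :=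
  (Equiv.addRight w).tsum_eq u

lemma ts_shift' (u : Zd d → ℝ) (w : Zd d) : ∑' x, u (x - w) = ∑' x, u x :=
  (Equiv.subRight w).tsum_eq u

lemma Av_app (f : Zd d → ℝ) (x : Zd d) :
    Av f x = (∑ i : Fin d, (f (x + Pi.single i 1) + f (x - Pi.single i 1))) / (2 * d) := rfl

lemma fs_Av {u : Zd d → ℝ} (hu : FS u) : FS (Av u) :=
  fs_div (fs_sum Finset.univ _ (fun i _ => fs_add (fs_shift hu (Pi.single i 1))
    (fs_shift' hu (Pi.single i 1)))) (2 * d)

lemma fs_iter {u : Zd d → ℝ} (hu : FS u) (n : ℕ) : FS (Av^[n] u) := by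
  induction n with
  | zero => exact hu
  | succ n ih => rw [Function.iterate_succ_apply']; exact fs_Av ih

lemma fs_Gn {u : Zd d → ℝ} (hu : FS u) (N : ℕ) : FS (Gn N u) :=
  fs_div (fs_sum (Finset.range N) _ (fun n _ => fs_iter hu n)) (2 * d)

lemma fs_Wz (Λ : Finset (Zd d)) (f : Λ → ℝ) : FS (Wz Λ f) := by
  refine Λ.finite_toSet.subset (fun x hx => ?_)
  rw [Function.mem_support] at hx
  by_contra h
  apply hx
  unfold Wz
  rw [dif_neg (by simpa using h)]

/-- summation by parts -/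
lemma ibp {u : Zd d → ℝ} (hu : FS u) (v : Zd d → ℝ) :
    ∑' z, u z * (2 * d * v z - nb v z) =
      ∑' z, ∑ i : Fin d, (u (z + Pi.single i 1) - u z) * (v (z + Pi.single i 1) - v z) := by
  have h1 : ∀ z, u z * (2 * d * v z - nb v z) =
      ∑ i : Fin d, (2 * (u z * v z) - u z * v (z + Pi.single i 1) - u z * v (z - Pi.single i 1)) := by
    intro z
    unfold nb
    simp only [Finset.sum_sub_distrib]
    rw [Finset.sum_const, Finset.card_univ, Fintype.card_fin, nsmul_eq_mul, mul_sub, Finset.mul_sum]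
    have h2 : ∑ i : Fin d, u z * (v (z + Pi.single i 1) + v (z - Pi.single i 1)) =
        ∑ i : Fin d, u z * v (z + Pi.single i 1) + ∑ i : Fin d, u z * v (z - Pi.single i 1) := by
      rw [← Finset.sum_add_distrib]
      exact Finset.sum_congr rfl fun i _ => mul_add _ _ _
    rw [h2]
    ring
  simp only [h1]
  have sA : FS (fun z => u z * v z) := fs_mulL hu v
  have sB : ∀ i : Fin d, FS (fun z => u z * v (z + Pi.single i 1)) := fun i => fs_mulL hu _
  have sC : ∀ i : Fin d, FS (fun z => u z * v (z - Pi.single i 1)) := fun i => fs_mulL hu _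
  rw [Summable.tsum_finsetSum (fun i _ => fs_sm (fs_sub (fs_sub (fs_mulR sA (fun _ => 2)) (sB i)) (sC i))),
    Summable.tsum_finsetSum (fun i _ => fs_sm (fs_mulL (fs_sub (fs_shift hu _) hu) _))]
  refine Finset.sum_congr rfl fun i _ => ?_
  set e : Zd d := Pi.single i 1 with he
  have A := (fs_sm sA).hasSum
  have B := (fs_sm (sB i)).hasSum
  have C := (fs_sm (sC i)).hasSum
  have A' : HasSum (fun z => u (z + e) * v (z + e)) (∑' z, u z * v z) :=
    (Equiv.addRight e).hasSum_iff.2 A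
  have C' : HasSum (fun z => u (z + e) * v (z + e - e)) (∑' z, u z * v (z - e)) :=
    (Equiv.addRight e).hasSum_iff.2 C
  have H1 := ((A.mul_left 2).sub B).sub C
  have H2 := ((A'.sub C').sub B).add A
  have E1 := H1.tsum_eq
  have E2 := H2.tsum_eq
  have E3 : ∑' z, (u (z + e) - u z) * (v (z + e) - v z) =
      ∑' z, (u (z + e) * v (z + e) - u (z + e) * v (z + e - e) - u z * v (z + e) + u z * v z) := by
    refine tsum_congr fun z => ?_
    rw [add_sub_cancel_right]
    ring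
  rw [E1, E3, E2]
  ring

/-- contraction in `ℓ²` -/
lemma Av_l2 (hd : 1 ≤ d) {u : Zd d → ℝ} (hu : FS u) : ∑' z, (Av u z) ^ 2 ≤ ∑' z, u z ^ 2 := by
  have hd0 : (0 : ℝ) < d := by exact_mod_cast hd
  have h1 : ∀ z, (Av u z) ^ 2 ≤ Av (fun y => u y ^ 2) z := by
    intro z
    rw [Av_app, Av_app, div_pow, div_le_div_iff₀ (by positivity) (by positivity)]
    have h2 := sq_sum_le_card_mul_sum_sq (s := (Finset.univ : Finset (Fin d)))
      (f := fun i => u (z + Pi.single i 1) + u (z - Pi.single i 1))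
    have h3 : ∑ i : Fin d, (u (z + Pi.single i 1) + u (z - Pi.single i 1)) ^ 2 ≤
        ∑ i : Fin d, 2 * (u (z + Pi.single i 1) ^ 2 + u (z - Pi.single i 1) ^ 2) :=
      Finset.sum_le_sum fun i _ => by nlinarith [sq_nonneg (u (z + Pi.single i 1) - u (z - Pi.single i 1))]
    rw [← Finset.mul_sum] at h3
    rw [Finset.card_univ, Fintype.card_fin] at h2
    have h4 : (∑ i : Fin d, (u (z + Pi.single i 1) + u (z - Pi.single i 1))) ^ 2 ≤
        d * (2 * ∑ i : Fin d, (u (z + Pi.single i 1) ^ 2 + u (z - Pi.single i 1) ^ 2)) :=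
      h2.trans (mul_le_mul_of_nonneg_left h3 hd0.le)
    have h5 : (0 : ℝ) < 2 * d := by positivity
    calc _ ≤ (d * (2 * ∑ i : Fin d, (u (z + Pi.single i 1) ^ 2 + u (z - Pi.single i 1) ^ 2))) * (2 * d) :=
          mul_le_mul_of_nonneg_right h4 h5.le
      _ = _ := by ring
  have h2 : ∑' z, Av (fun y => u y ^ 2) z = ∑' z, u z ^ 2 := by
    have s := fs_sq hu
    simp only [Av_app]
    rw [tsum_div_const, Summable.tsum_finsetSum (fun i _ => fs_sm (fs_add (fs_shift s _) (fs_shift' s _)))]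
    have h3 : ∀ i : Fin d, ∑' z : Zd d, (u (z + Pi.single i 1) ^ 2 + u (z - Pi.single i 1) ^ 2) =
        2 * ∑' z, u z ^ 2 := by
      intro i
      rw [Summable.tsum_add (fs_sm (fs_shift s _)) (fs_sm (fs_shift' s _)),
        ts_shift (fun z => u z ^ 2), ts_shift' (fun z => u z ^ 2)]
      ring
    simp only [h3]
    rw [Finset.sum_const, Finset.card_univ, Fintype.card_fin, nsmul_eq_mul]
    field_simp
  rw [← h2]
  exact Summable.tsum_le_tsum h1 (fs_sm (fs_sq (fs_Av hu))) (fs_sm (fs_Av (fs_sq hu)))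

lemma iter_l2 (hd : 1 ≤ d) {u : Zd d → ℝ} (hu : FS u) (n : ℕ) :
    ∑' z, ((Av^[n] u) z) ^ 2 ≤ ∑' z, u z ^ 2 := by
  induction n with
  | zero => exact le_rfl
  | succ n ih =>
    rw [Function.iterate_succ_apply']
    exact (Av_l2 hd (fs_iter hu n)).trans ih

lemma Gn_l2 (hd : 1 ≤ d) {u : Zd d → ℝ} (hu : FS u) (N : ℕ) :
    ∑' z, (Gn N u z) ^ 2 ≤ (N / (2 * d)) ^ 2 * ∑' z, u z ^ 2 := by
  have hd0 : (0 : ℝ) < d := by exact_mod_cast hd
  have h1 : ∀ z, (Gn N u z) ^ 2 ≤ (N / (2 * d) ^ 2) * ∑ n ∈ Finset.range N, ((Av^[n] u) z) ^ 2 := by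
    intro z
    have h2 := sq_sum_le_card_mul_sum_sq (s := Finset.range N) (f := fun n => (Av^[n] u) z)
    rw [Finset.card_range] at h2
    unfold Gn
    rw [div_pow, div_mul_eq_mul_div]
    exact div_le_div_of_nonneg_right h2 (by positivity)
  have hs : Summable (fun z => (N / (2 * (d : ℝ)) ^ 2) * ∑ n ∈ Finset.range N, ((Av^[n] u) z) ^ 2) :=
    fs_sm (fs_mulR (fs_sum _ _ fun n _ => fs_sq (fs_iter hu n)) (fun _ => (N / (2 * (d : ℝ)) ^ 2)))
  refine (Summable.tsum_le_tsum h1 (fs_sm (fs_sq (fs_Gn hu N))) hs).trans ?_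
  rw [tsum_mul_left, Summable.tsum_finsetSum (fun n _ => fs_sm (fs_sq (fs_iter hu n)))]
  have h3 : ∑ n ∈ Finset.range N, ∑' z, ((Av^[n] u) z) ^ 2 ≤ ∑ n ∈ Finset.range N, ∑' z, u z ^ 2 :=
    Finset.sum_le_sum fun n _ => iter_l2 hd hu n
  rw [Finset.sum_const, Finset.card_range, nsmul_eq_mul] at h3
  calc _ ≤ (N / (2 * (d : ℝ)) ^ 2) * (N * ∑' z, u z ^ 2) :=
        mul_le_mul_of_nonneg_left h3 (by positivity)
    _ = _ := by ring

lemma Qg_nonneg (g : Zd d → ℝ) (z : Zd d) : 0 ≤ Qg g z :=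
  Finset.sum_nonneg fun i _ => by positivity

lemma fs_Qg {g : Zd d → ℝ} (hg : FS g) : FS (Qg g) :=
  fs_sum Finset.univ _ fun i _ => fs_add (fs_sq (fs_sub (fs_shift hg _) hg))
    (fs_sq (fs_sub hg (fs_shift' hg _)))

/-- the Dirichlet energy -/
lemma ts_Qg {g : Zd d → ℝ} (hg : FS g) :
    ∑' z, Qg g z = 2 * ∑' z, g z * (2 * d * g z - nb g z) := by
  rw [ibp hg g]
  unfold Qg
  have s1 : ∀ i : Fin d, FS (fun z => (g (z + Pi.single i 1) - g z) ^ 2) := fun _ =>
    fs_sq (fs_sub (fs_shift hg _) hg)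
  have s2 : ∀ i : Fin d, FS (fun z => (g z - g (z - Pi.single i 1)) ^ 2) := fun _ =>
    fs_sq (fs_sub hg (fs_shift' hg _))
  have s3 : ∀ i : Fin d, FS (fun z => (g (z + Pi.single i 1) - g z) * (g (z + Pi.single i 1) - g z)) :=
    fun i => fs_mulL (fs_sub (fs_shift hg _) hg) _
  rw [Summable.tsum_finsetSum (fun i _ => fs_sm (fs_add (s1 i) (s2 i))),
    Summable.tsum_finsetSum (fun i _ => fs_sm (s3 i)), Finset.mul_sum]
  refine Finset.sum_congr rfl fun i _ => ?_
  rw [Summable.tsum_add (fs_sm (s1 i)) (fs_sm (s2 i))]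
  have e1 : ∑' z : Zd d, (g z - g (z - Pi.single i 1)) ^ 2 =
      ∑' z : Zd d, (g (z + Pi.single i 1) - g z) ^ 2 := by
    have := ts_shift (fun z : Zd d => (g z - g (z - Pi.single i 1)) ^ 2) (Pi.single i 1)
    rw [← this]
    refine tsum_congr fun z => ?_
    rw [add_sub_cancel_right]
  rw [e1]
  have e2 : ∑' z, (g (z + Pi.single i 1) - g z) * (g (z + Pi.single i 1) - g z) =
      ∑' z, (g (z + Pi.single i 1) - g z) ^ 2 := tsum_congr fun z => by ring
  rw [e2]
  ring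

/-- the energy of the parametrix -/
lemma energy (hd : 1 ≤ d) {u : Zd d → ℝ} (hu : FS u) (N : ℕ) :
    ∑' z, Qg (Gn N u) z ≤ 2 * N / d * ∑' z, u z ^ 2 := by
  have hd0 : (0 : ℝ) < d := by exact_mod_cast hd
  rcases Nat.eq_zero_or_pos N with rfl | hN
  · have : ∀ z, Qg (Gn 0 u) z = 0 := by
      intro z
      simp [Qg, Gn]
    simp [this]
  · have hN0 : (0 : ℝ) < N := by exact_mod_cast hN
    set g := Gn N u with hg
    have fg : FS g := fs_Gn hu N
    rw [ts_Qg fg]
    have hp : ∀ z, 2 * d * g z - nb g z = u z - (Av^[N] u) z := by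
      intro z
      exact Pool.Agent.H4R2.HD.BA.param hd N u z
    simp only [hp]
    have h1 : ∀ z, 2 * (g z * (u z - (Av^[N] u) z)) ≤
        (4 * d / N) * g z ^ 2 + (N / (2 * d)) * (u z ^ 2 + ((Av^[N] u) z) ^ 2) := by
      intro z
      set W := u z - (Av^[N] u) z with hW
      have h2 : W ^ 2 ≤ 2 * (u z ^ 2 + ((Av^[N] u) z) ^ 2) := by
        rw [hW]; nlinarith [sq_nonneg (u z + (Av^[N] u) z)]
      have h3 : 2 * (g z * W) ≤ (4 * d / N) * g z ^ 2 + (N / (4 * d)) * W ^ 2 := by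
        have h4 : 0 ≤ (4 * d / N) * (g z - (N / (4 * d)) * W) ^ 2 := by positivity
        have h5 : (4 * d / N) * (g z - (N / (4 * d)) * W) ^ 2 =
            (4 * d / N) * g z ^ 2 + (N / (4 * d)) * W ^ 2 - 2 * (g z * W) := by
          field_simp
          ring
        linarith
      have h6 : (N / (4 * d)) * W ^ 2 ≤ (N / (2 * d)) * (u z ^ 2 + ((Av^[N] u) z) ^ 2) := by
        calc (N / (4 * d)) * W ^ 2 ≤ (N / (4 * (d : ℝ))) * (2 * (u z ^ 2 + ((Av^[N] u) z) ^ 2)) :=
              mul_le_mul_of_nonneg_left h2 (by positivity)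
          _ = _ := by ring
      linarith
    have f1 : FS (fun z => 2 * (g z * (u z - (Av^[N] u) z))) :=
      fs_mulR (fs_mulL fg _) (fun _ => 2)
    have f2 : FS (fun z => (4 * d / N) * g z ^ 2) := fs_mulR (fs_sq fg) (fun _ => (4 * d / N : ℝ))
    have f3 : FS (fun z => u z ^ 2 + ((Av^[N] u) z) ^ 2) := fs_add (fs_sq hu) (fs_sq (fs_iter hu N))
    have f4 : FS (fun z => (N / (2 * d)) * (u z ^ 2 + ((Av^[N] u) z) ^ 2)) :=
      fs_mulR f3 (fun _ => (N / (2 * d) : ℝ))
    have h2 := Summable.tsum_le_tsum h1 (fs_sm f1) (fs_sm (fs_add f2 f4))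
    rw [tsum_mul_left, Summable.tsum_add (fs_sm f2) (fs_sm f4), tsum_mul_left, tsum_mul_left,
      Summable.tsum_add (fs_sm (fs_sq hu)) (fs_sm (fs_sq (fs_iter hu N)))] at h2
    have h3 := Gn_l2 hd hu N
    have h4 := iter_l2 hd hu N
    have h5 : (4 * d / N) * ∑' z, g z ^ 2 ≤ (N / d) * ∑' z, u z ^ 2 := by
      calc (4 * d / N) * ∑' z, g z ^ 2 ≤ (4 * d / N) * ((N / (2 * d)) ^ 2 * ∑' z, u z ^ 2) :=
            mul_le_mul_of_nonneg_left h3 (by positivity)
        _ = _ := by field_simp; ring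
    have h6 : (N / (2 * d)) * (∑' z, u z ^ 2 + ∑' z, ((Av^[N] u) z) ^ 2) ≤ (N / d) * ∑' z, u z ^ 2 := by
      calc (N / (2 * (d : ℝ))) * (∑' z, u z ^ 2 + ∑' z, ((Av^[N] u) z) ^ 2) ≤
            (N / (2 * (d : ℝ))) * (∑' z, u z ^ 2 + ∑' z, u z ^ 2) :=
              mul_le_mul_of_nonneg_left (by linarith) (by positivity)
        _ = _ := by field_simp; ring
    calc _ ≤ _ := h2
      _ ≤ (N / d) * ∑' z, u z ^ 2 + (N / d) * ∑' z, u z ^ 2 := add_le_add h5 h6
      _ = _ := by ring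

lemma ts_Wz (Λ : Finset (Zd d)) (f : Λ → ℝ) : ∑' z, (Wz Λ f z) ^ 2 = ∑ y, f y ^ 2 := by
  rw [tsum_eq_sum (s := Λ)]
  · rw [← Finset.sum_coe_sort]
    refine Finset.sum_congr rfl fun y _ => ?_
    unfold Wz
    rw [dif_pos y.2]
  · intro z hz
    unfold Wz
    rw [dif_neg hz]; norm_num

set_option linter.dupNamespace false in
theorem ON1 : S_ON1 := by
  intro d hd N Λ f F
  have fW := fs_Wz Λ f
  have h1 := Summable.sum_le_tsum F (fun z _ => Qg_nonneg (Gn N (Wz Λ f)) z)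
    (fs_sm (fs_Qg (fs_Gn fW N)))
  refine h1.trans ?_
  rw [← ts_Wz Λ f]
  exact energy hd fW N

end Pool.Agent.H4R2.TD.ON1
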