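import Pool.Agent.H4R2.TD.Defs2
import Pool.Agent.H4R2.TD.K2
import Pool.Agent.H4R2.HD.BA

/-! Task ON2: a logarithmic Hardy inequality in two dimensions. -/

set_option autoImplicit false

open scoped BigOperators

set_option linter.dupNamespace false

namespace Pool.Agent.H4R2.TD.ON2

open Pool.Agent.H4R2.LO (Zd dd adj AL bx FB cut Reg)
open Pool.Agent.H4R2.HD (Av Gn ind)

/-- the ground state representation on one edge -/
lemma edge (a b p q : ℝ) (hp : 0 < p) (hq : 0 < q) :
    b ^ 2 * (1 - p / q) + a ^ 2 * (1 - q / p) ≤ (b - a) ^ 2 := by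
  have h : (b - a) ^ 2 - (b ^ 2 * (1 - p / q) + a ^ 2 * (1 - q / p)) =
      (b * p - a * q) ^ 2 / (p * q) := by
    field_simp
    ring
  have h2 : 0 ≤ (b * p - a * q) ^ 2 / (p * q) := by positivity
  linarith

/-- Hardy inequality from a positive function -/
lemma hardy {d : ℕ} (φ F : Zd d → ℝ) (hφ : ∀ z, 0 < φ z) (hF : (Function.support F).Finite) :
    ∑' z, F z ^ 2 * ((2 * d * φ z - nb φ z) / φ z) ≤
      ∑' z, ∑ i : Fin d, (F (z + Pi.single i 1) - F z) ^ 2 := by
  have hs1 : ∀ (i : Fin d) (g : Zd d → ℝ), Summable fun z => F z ^ 2 * g z := by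
    intro i g
    apply summable_of_hasFiniteSupport
    refine hF.subset ?_
    intro z hz
    simp only [Function.mem_support] at hz ⊢
    intro h
    exact hz (by rw [h]; ring)
  have hs2 : ∀ (i : Fin d) (g : Zd d → ℝ),
      Summable fun z : Zd d => F (z + Pi.single i (1 : ℤ)) ^ 2 * g (z + Pi.single i (1 : ℤ)) := by
    intro i g
    exact (Equiv.addRight (Pi.single i (1 : ℤ) : Zd d)).summable_iff.2 (hs1 i g)
  have hsub : ∀ i : Fin d, Summable fun z : Zd d => (F (z + Pi.single i (1 : ℤ)) - F z) ^ 2 := by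
    intro i
    apply summable_of_hasFiniteSupport
    have hfin : (Function.support (fun z : Zd d => F (z + Pi.single i (1 : ℤ)))).Finite := by
      have : Function.support (fun z : Zd d => F (z + Pi.single i (1 : ℤ))) =
          (fun z : Zd d => z + (Pi.single i (1 : ℤ) : Zd d)) ⁻¹' (Function.support F) := rfl
      rw [this]
      exact hF.preimage (add_left_injective _).injOn
    refine (hfin.union hF).subset ?_
    intro z hz
    simp only [Function.mem_support, Set.mem_union] at hz ⊢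
    by_contra hcon
    push Not at hcon
    exact hz (by rw [hcon.1, hcon.2]; ring)
  rw [Summable.tsum_finsetSum (fun i _ => hsub i)]
  have hl : ∀ z, F z ^ 2 * ((2 * d * φ z - nb φ z) / φ z) =
      ∑ i : Fin d, (F z ^ 2 * (1 - φ (z - Pi.single i 1) / φ z) +
        F z ^ 2 * (1 - φ (z + Pi.single i 1) / φ z)) := by
    intro z
    have h0 := (hφ z).ne'
    have h1 : ∀ i : Fin d, F z ^ 2 * (1 - φ (z - Pi.single i 1) / φ z) +
        F z ^ 2 * (1 - φ (z + Pi.single i 1) / φ z) =
        F z ^ 2 * (2 - (φ (z + Pi.single i 1) + φ (z - Pi.single i 1)) / φ z) := by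
      intro i
      field_simp
      ring
    rw [Finset.sum_congr rfl fun i _ => h1 i, ← Finset.mul_sum, Finset.sum_sub_distrib,
      ← Finset.sum_div]
    congr 1
    rw [Finset.sum_const, Finset.card_univ, Fintype.card_fin, nsmul_eq_mul, sub_div]
    unfold nb
    field_simp
  rw [tsum_congr hl, Summable.tsum_finsetSum (fun i _ => (hs1 i _).add (hs1 i _))]
  refine Finset.sum_le_sum fun i _ => ?_
  rw [Summable.tsum_add (hs1 i _) (hs1 i _)]
  have hshift : ∑' z : Zd d, F z ^ 2 * (1 - φ (z - Pi.single i 1) / φ z) =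
      ∑' z : Zd d, F (z + Pi.single i 1) ^ 2 * (1 - φ z / φ (z + Pi.single i 1)) := by
    refine ((Equiv.addRight (Pi.single i (1 : ℤ) : Zd d)).tsum_eq
      (fun z : Zd d => F z ^ 2 * (1 - φ (z - Pi.single i (1 : ℤ)) / φ z))).symm.trans ?_
    refine tsum_congr fun z => ?_
    simp only [Equiv.coe_addRight, add_sub_cancel_right]
  have hs3 : Summable fun z : Zd d => F (z + Pi.single i 1) ^ 2 *
      (1 - φ z / φ (z + Pi.single i 1)) := by
    have := hs2 i (fun z => 1 - φ (z - Pi.single i 1) / φ z)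
    simpa only [add_sub_cancel_right] using this
  rw [hshift, ← Summable.tsum_add hs3 (hs1 i _)]
  refine Summable.tsum_le_tsum (fun z => ?_) (hs3.add (hs1 i _)) (hsub i)
  exact edge (F z) (F (z + Pi.single i 1)) (φ z) (φ (z + Pi.single i 1)) (hφ _) (hφ _)

lemma dsum (N : ℕ) : ∑ m ∈ Finset.range N, ∑ n ∈ Finset.range N,
    2 / ((m : ℝ) + n + 1) ≤ 4 * N := by
  induction N with
  | zero => simp
  | succ N ih =>
    rw [Finset.sum_range_succ]
    have h1 : ∑ m ∈ Finset.range N, ∑ n ∈ Finset.range (N + 1), 2 / ((m : ℝ) + n + 1) =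
        ∑ m ∈ Finset.range N, ∑ n ∈ Finset.range N, 2 / ((m : ℝ) + n + 1) +
        ∑ m ∈ Finset.range N, 2 / ((m : ℝ) + N + 1) := by
      rw [← Finset.sum_add_distrib]
      exact Finset.sum_congr rfl fun m _ => Finset.sum_range_succ _ _
    have hN : (0 : ℝ) ≤ N := Nat.cast_nonneg N
    have h2 : ∑ m ∈ Finset.range N, 2 / ((m : ℝ) + N + 1) ≤ N * (2 / ((N : ℝ) + 1)) := by
      have : ∀ m ∈ Finset.range N, 2 / ((m : ℝ) + N + 1) ≤ 2 / ((N : ℝ) + 1) := by
        intro m _
        have hm : (0 : ℝ) ≤ m := Nat.cast_nonneg m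
        exact div_le_div_of_nonneg_left (by norm_num) (by positivity) (by linarith)
      refine (Finset.sum_le_sum this).trans ?_
      rw [Finset.sum_const, Finset.card_range, nsmul_eq_mul]
    have h3 : ∑ n ∈ Finset.range (N + 1), 2 / ((N : ℝ) + n + 1) ≤
        (N + 1) * (2 / ((N : ℝ) + 1)) := by
      have : ∀ n ∈ Finset.range (N + 1), 2 / ((N : ℝ) + n + 1) ≤ 2 / ((N : ℝ) + 1) := by
        intro n _
        have hm : (0 : ℝ) ≤ n := Nat.cast_nonneg n
        exact div_le_div_of_nonneg_left (by norm_num) (by positivity) (by linarith)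
      refine (Finset.sum_le_sum this).trans ?_
      rw [Finset.sum_const, Finset.card_range, nsmul_eq_mul]
      push_cast
      exact le_rfl
    have h4 : (N : ℝ) * (2 / ((N : ℝ) + 1)) ≤ 2 := by
      rw [mul_div_assoc', div_le_iff₀ (by positivity)]
      linarith
    have h5 : ((N : ℝ) + 1) * (2 / ((N : ℝ) + 1)) = 2 := by
      field_simp
    rw [h1]
    push_cast
    linarith

lemma iter_nonneg {d : ℕ} (n : ℕ) (f : Zd d → ℝ) (hf : ∀ x, 0 ≤ f x) (hd : 1 ≤ d) (x : Zd d) :
    0 ≤ (Av^[n] f) x := by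
  have h := HD.BA.iter_mono n (fun _ => 0) f hf x
  rwa [HD.BA.iter_const hd] at h

lemma ind_nonneg {d : ℕ} (z x : Zd d) : 0 ≤ ind z x := by
  unfold ind
  split_ifs <;> norm_num

/-- `Av^m (Gn N (ind x)) = 1/4 ∑ Av^(m+n) (ind x)` -/
lemma iter_Gn (N m : ℕ) (f : Zd 2 → ℝ) (y : Zd 2) :
    (Av^[m] (Gn N f)) y = (1 / 4) * ∑ n ∈ Finset.range N, (Av^[m + n] f) y := by
  have h1 : Gn N f = fun x => (2 * ((2 : ℕ) : ℝ))⁻¹ * ∑ n ∈ Finset.range N, (Av^[n] f) x :=
    HD.BA.Gn_eq N f
  rw [h1, HD.BA.iter_smul m (2 * ((2 : ℕ) : ℝ))⁻¹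
    (fun y => ∑ n ∈ Finset.range N, (Av^[n] f) y)]
  have h2 := HD.BA.iter_sum (Finset.range N) m (fun n => Av^[n] f)
  have h3 := congrFun h2 y
  beta_reduce at h3 ⊢
  rw [h3]
  have h4 : (2 * ((2 : ℕ) : ℝ))⁻¹ = 1 / 4 := by norm_num
  rw [h4]
  congr 1
  refine Finset.sum_congr rfl fun n _ => ?_
  rw [Function.iterate_add_apply]

theorem ON2 : S_ON2 := by
  intro N hN x F hF
  have hN0 : (0 : ℝ) < N := by exact_mod_cast hN
  set q : Zd 2 → ℝ := Gn N (ind x) with hq
  set k : Zd 2 → ℝ := Gn N q with hk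
  have hq0 : ∀ z, 0 ≤ q z := by
    intro z
    have h := iter_Gn N 0 (ind x) z
    simp only [Function.iterate_zero, id_eq, Nat.zero_add] at h
    rw [hq, h]
    have : 0 ≤ ∑ n ∈ Finset.range N, (Av^[n] (ind x)) z :=
      Finset.sum_nonneg fun n _ => iter_nonneg n _ (ind_nonneg x) (by norm_num) z
    positivity
  have hAq : ∀ m y, (Av^[m] q) y ≤ (1 / 4) * ∑ n ∈ Finset.range N, 2 / ((m : ℝ) + n + 1) := by
    intro m y
    rw [hq, iter_Gn]
    refine mul_le_mul_of_nonneg_left ?_ (by norm_num)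
    refine Finset.sum_le_sum fun n _ => ?_
    have := K2.K2 (m + n) x y
    push_cast at this
    exact this
  have hAN : ∀ y, (Av^[N] q) y ≤ 1 / 2 := by
    intro y
    have h1 := hAq N y
    have h2 : ∑ n ∈ Finset.range N, 2 / ((N : ℝ) + n + 1) ≤ 2 := by
      have : ∀ n ∈ Finset.range N, 2 / ((N : ℝ) + n + 1) ≤ 2 / ((N : ℝ) + 1) := by
        intro n _
        have hm : (0 : ℝ) ≤ n := Nat.cast_nonneg n
        exact div_le_div_of_nonneg_left (by norm_num) (by positivity) (by linarith)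
      refine (Finset.sum_le_sum this).trans ?_
      rw [Finset.sum_const, Finset.card_range, nsmul_eq_mul, mul_div_assoc', div_le_iff₀
        (by positivity)]
      linarith
    linarith
  have hAN0 : ∀ y, 0 ≤ (Av^[N] q) y := fun y => iter_nonneg N q hq0 (by norm_num) y
  have hk1 : ∀ y, k y ≤ N / 4 := by
    intro y
    have h := iter_Gn N 0 q y
    simp only [Function.iterate_zero, id_eq, Nat.zero_add] at h
    rw [hk, h]
    have h1 : ∑ m ∈ Finset.range N, (Av^[m] q) y ≤ ∑ m ∈ Finset.range N,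
        (1 / 4) * ∑ n ∈ Finset.range N, 2 / ((m : ℝ) + n + 1) :=
      Finset.sum_le_sum fun m _ => hAq m y
    rw [← Finset.mul_sum] at h1
    have h2 := dsum N
    linarith
  have hk0 : ∀ y, 0 ≤ k y := by
    intro y
    have h := iter_Gn N 0 q y
    simp only [Function.iterate_zero, id_eq, Nat.zero_add] at h
    rw [hk, h]
    have : 0 ≤ ∑ n ∈ Finset.range N, (Av^[n] q) y :=
      Finset.sum_nonneg fun n _ => iter_nonneg n _ hq0 (by norm_num) y
    positivity
  have hpar : ∀ z, 4 * k z - nb k z = q z - (Av^[N] q) z := by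
    intro z
    have h := HD.BA.param (d := 2) (by norm_num) N q z
    have h' : (2 * ((2 : ℕ) : ℝ)) * Gn N q z - nb k z = q z - (Av^[N] q) z := h
    rw [← h', hk]
    push_cast
    ring
  set φ : Zd 2 → ℝ := fun z => 1 + 4 / N * k z with hφ
  have hφ1 : ∀ z, 1 ≤ φ z := by
    intro z
    have : 0 ≤ 4 / N * k z := mul_nonneg (by positivity) (hk0 z)
    simp only [hφ]
    linarith
  have hφ2 : ∀ z, φ z ≤ 2 := by
    intro z
    have h1 : 4 / N * k z ≤ 4 / N * (N / 4) := mul_le_mul_of_nonneg_left (hk1 z) (by positivity)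
    have h2 : 4 / (N : ℝ) * (N / 4) = 1 := by field_simp
    simp only [hφ]
    linarith
  have hφe : ∀ z, 2 * ((2 : ℕ) : ℝ) * φ z - nb φ z = 4 / N * (q z - (Av^[N] q) z) := by
    intro z
    rw [← hpar z]
    simp only [hφ, nb, Fin.sum_univ_two]
    push_cast
    ring
  have hmain := hardy φ F (fun z => lt_of_lt_of_le one_pos (hφ1 z)) hF
  have hpt : ∀ z, 2 / N * (q z * F z ^ 2) - 2 / N * F z ^ 2 ≤
      F z ^ 2 * ((2 * ((2 : ℕ) : ℝ) * φ z - nb φ z) / φ z) := by
    intro z
    rw [hφe z]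
    have hp := hφ1 z
    have hp0 : 0 < φ z := lt_of_lt_of_le one_pos hp
    have h1 : q z / 2 ≤ q z / φ z :=
      div_le_div_of_nonneg_left (hq0 z) hp0 (hφ2 z)
    have h2 : (Av^[N] q) z / φ z ≤ 1 / 2 := by
      rw [div_le_iff₀ hp0]
      have := hAN z
      linarith
    have h3 : 2 / N * q z - 2 / N ≤ 4 / N * (q z - (Av^[N] q) z) / φ z := by
      have e1 : 4 / N * (q z - (Av^[N] q) z) / φ z =
          4 / N * (q z / φ z - (Av^[N] q) z / φ z) := by
        rw [← sub_div, mul_div_assoc]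
      rw [e1]
      have e2 : 4 / (N : ℝ) * (q z / 2 - 1 / 2) ≤
          4 / N * (q z / φ z - (Av^[N] q) z / φ z) :=
        mul_le_mul_of_nonneg_left (by linarith) (by positivity)
      refine le_trans (le_of_eq ?_) e2
      ring
    have h4 := mul_le_mul_of_nonneg_left h3 (sq_nonneg (F z))
    refine le_trans (le_of_eq ?_) h4
    ring
  have hsf : ∀ g : Zd 2 → ℝ, Summable fun z => g z * F z ^ 2 := by
    intro g
    apply summable_of_hasFiniteSupport
    refine hF.subset ?_
    intro z hz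
    simp only [Function.mem_support] at hz ⊢
    intro h
    exact hz (by rw [h]; ring)
  have hs1 : Summable fun z => q z * F z ^ 2 := hsf q
  have hs2 : Summable fun z => F z ^ 2 := by simpa using hsf (fun _ => 1)
  have hs3 : Summable fun z => F z ^ 2 * ((2 * ((2 : ℕ) : ℝ) * φ z - nb φ z) / φ z) := by
    have := hsf (fun z => ((2 * ((2 : ℕ) : ℝ) * φ z - nb φ z) / φ z))
    refine this.congr fun z => ?_
    ring
  have h1 := Summable.tsum_le_tsum hpt ((hs1.mul_left (2 / (N : ℝ))).sub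
    (hs2.mul_left (2 / (N : ℝ)))) hs3
  rw [Summable.tsum_sub (hs1.mul_left _) (hs2.mul_left _), tsum_mul_left, tsum_mul_left] at h1
  have h2 := h1.trans hmain
  have h3 := mul_le_mul_of_nonneg_left h2 (by positivity : (0 : ℝ) ≤ N / 2)
  have h4 : (N : ℝ) / 2 * (2 / N * ∑' z, q z * F z ^ 2 - 2 / N * ∑' z, F z ^ 2) =
      ∑' z, q z * F z ^ 2 - ∑' z, F z ^ 2 := by
    field_simp
  rw [h4] at h3
  linarith

end Pool.Agent.H4R2.TD.ON2
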