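import Pool.Agent.H4R2.TD.Defs2
import Pool.Agent.H4R2.HD.BA

/-!
# ON3: operator norm of the weighted energy (helper602)
-/

set_option autoImplicit false

open scoped BigOperators

namespace Pool.Agent.H4R2.TD.ON3

open Pool.Agent.H4R2.LO (Zd)
open Pool.Agent.H4R2.HD (Av Gn ind)

/-- finite support -/
def FS {d : ℕ} (u : Zd d → ℝ) : Prop := (Function.support u).Finite

variable {d : ℕ}

theorem FS.sum_able {u : Zd d → ℝ} (h : FS u) : Summable u :=
  summable_of_hasFiniteSupport h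

theorem FS.of_zero {u v : Zd d → ℝ} (h : FS u) (hv : ∀ z, u z = 0 → v z = 0) : FS v :=
  Set.Finite.subset h fun z hz h0 => hz (hv z h0)

theorem FS.mulR {u : Zd d → ℝ} (h : FS u) (v : Zd d → ℝ) : FS (fun z => u z * v z) :=
  h.of_zero fun z h0 => by rw [h0, zero_mul]

theorem FS.mulL {u : Zd d → ℝ} (h : FS u) (v : Zd d → ℝ) : FS (fun z => v z * u z) :=
  h.of_zero fun z h0 => by rw [h0, mul_zero]

theorem FS.div {u : Zd d → ℝ} (h : FS u) (c : ℝ) : FS (fun z => u z / c) :=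
  h.of_zero fun z h0 => by rw [h0, zero_div]

theorem FS.sq {u : Zd d → ℝ} (h : FS u) : FS (fun z => u z ^ 2) :=
  h.of_zero fun z h0 => by rw [h0]; ring

theorem FS.add {u v : Zd d → ℝ} (h : FS u) (h' : FS v) : FS (fun z => u z + v z) := by
  refine Set.Finite.subset (h.union h') fun z hz => ?_
  by_contra hcon
  rw [Set.mem_union, not_or, Function.notMem_support, Function.notMem_support] at hcon
  exact hz (by show u z + v z = 0; rw [hcon.1, hcon.2, add_zero])

theorem FS.sub {u v : Zd d → ℝ} (h : FS u) (h' : FS v) : FS (fun z => u z - v z) := by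
  refine Set.Finite.subset (h.union h') fun z hz => ?_
  by_contra hcon
  rw [Set.mem_union, not_or, Function.notMem_support, Function.notMem_support] at hcon
  exact hz (by show u z - v z = 0; rw [hcon.1, hcon.2, sub_zero])

theorem FS.sum {ι : Type} (s : Finset ι) {u : ι → Zd d → ℝ} (h : ∀ i ∈ s, FS (u i)) :
    FS (fun z => ∑ i ∈ s, u i z) := by
  classical
  induction s using Finset.induction_on with
  | empty => exact Set.Finite.subset Set.finite_empty fun z hz => hz (by simp)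
  | insert a s ha ih =>
    have h1 := (h a (Finset.mem_insert_self a s)).add
      (ih fun i hi => h i (Finset.mem_insert_of_mem hi))
    refine h1.of_zero fun z h0 => ?_
    show ∑ i ∈ insert a s, u i z = 0
    rw [Finset.sum_insert ha]
    exact h0

theorem FS.shift {u : Zd d → ℝ} (h : FS u) (w : Zd d) : FS (fun z => u (z + w)) := by
  refine Set.Finite.preimage (f := fun z => z + w) (fun a _ b _ hab => add_right_cancel hab) h

theorem FS.shift' {u : Zd d → ℝ} (h : FS u) (w : Zd d) : FS (fun z => u (z - w)) := by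
  have h1 := h.shift (-w)
  simpa only [← sub_eq_add_neg] using h1

theorem tsum_shift (u : Zd d → ℝ) (w : Zd d) : ∑' z, u (z + w) = ∑' z, u z :=
  (Equiv.addRight w).tsum_eq u

theorem tsum_shift' (u : Zd d → ℝ) (w : Zd d) : ∑' z, u (z - w) = ∑' z, u z := by
  have h := tsum_shift u (-w)
  simpa only [← sub_eq_add_neg] using h

/-! ### summation by parts -/

theorem ibp1 {u : Zd d → ℝ} (hu : FS u) (v : Zd d → ℝ) (e : Zd d) :
    ∑' z, (u (z + e) - u z) * (v (z + e) - v z) =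
      ∑' z, u z * (2 * v z - v (z + e) - v (z - e)) := by
  have h1 : ∑' z, u (z + e) * (v (z + e) - v z) = ∑' z, u z * (v z - v (z - e)) := by
    have h := tsum_shift (fun z => u z * (v z - v (z - e))) e
    rw [← h]
    refine tsum_congr fun z => ?_
    rw [add_sub_cancel_right]
  have s1 : Summable fun z => u (z + e) * (v (z + e) - v z) := ((hu.shift e).mulR _).sum_able
  have s2 : Summable fun z => u z * (v (z + e) - v z) := (hu.mulR _).sum_able
  have s3 : Summable fun z => u z * (v z - v (z - e)) := (hu.mulR _).sum_able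
  calc ∑' z, (u (z + e) - u z) * (v (z + e) - v z) =
      ∑' z, (u (z + e) * (v (z + e) - v z) - u z * (v (z + e) - v z)) :=
        tsum_congr fun z => by ring
    _ = ∑' z, u z * (v z - v (z - e)) - ∑' z, u z * (v (z + e) - v z) := by
        rw [s1.tsum_sub s2, h1]
    _ = _ := by
        rw [← s3.tsum_sub s2]
        exact tsum_congr fun z => by ring

/-- the operator `2 d - nb` -/
noncomputable def LL (g : Zd d → ℝ) (z : Zd d) : ℝ := 2 * d * g z - nb g z

theorem LL_eq (g : Zd d → ℝ) (z : Zd d) :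
    LL g z = ∑ i : Fin d, (2 * g z - g (z + Pi.single i 1) - g (z - Pi.single i 1)) := by
  unfold LL nb
  have h : ∑ i : Fin d, (2 * g z) = 2 * d * g z := by
    rw [Finset.sum_const, Finset.card_univ, Fintype.card_fin, nsmul_eq_mul]
    ring
  rw [← h, ← Finset.sum_sub_distrib]
  exact Finset.sum_congr rfl fun i _ => by ring

theorem FS.nb' {g : Zd d → ℝ} (h : FS g) : FS (nb g) := by
  have h1 : FS fun z => ∑ i : Fin d, (g (z + Pi.single i 1) + g (z - Pi.single i 1)) :=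
    FS.sum _ fun i _ => (h.shift _).add (h.shift' _)
  exact h1

theorem FS.LL' {g : Zd d → ℝ} (h : FS g) : FS (LL g) := (h.mulL fun _ => 2 * (d : ℝ)).sub h.nb'

/-- the energy of a difference -/
theorem energy_diff {g : Zd d → ℝ} (hg : FS g) (e : Zd d) :
    ∑' z, ∑ i : Fin d, ((g (z + Pi.single i 1 + e) - g (z + Pi.single i 1)) -
      (g (z + e) - g z)) ^ 2 =
      ∑' z, (LL g (z + e) - LL g z) * (g (z + e) - g z) := by
  set u : Zd d → ℝ := fun z => g (z + e) - g z with hu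
  have hFu : FS u := (hg.shift e).sub hg
  have h1 : ∀ i : Fin d, ∑' z, ((g (z + Pi.single i 1 + e) - g (z + Pi.single i 1)) -
      (g (z + e) - g z)) ^ 2 =
      ∑' z, u z * (2 * u z - u (z + Pi.single i 1) - u (z - Pi.single i 1)) := by
    intro i
    rw [← ibp1 hFu u (Pi.single i 1)]
    exact tsum_congr fun z => by rw [hu]; ring
  have hs : ∀ i ∈ (Finset.univ : Finset (Fin d)), Summable fun z => ((g (z + Pi.single i 1 + e) -
      g (z + Pi.single i 1)) - (g (z + e) - g z)) ^ 2 := by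
    intro i _
    exact ((hFu.shift (Pi.single i 1)).sub hFu).sq.sum_able
  rw [Summable.tsum_finsetSum hs]
  simp_rw [h1]
  rw [← Summable.tsum_finsetSum (fun i _ => (hFu.mulR _).sum_able)]
  refine tsum_congr fun z => ?_
  rw [← Finset.mul_sum, ← LL_eq]
  have h2 : LL u z = LL g (z + e) - LL g z := by
    unfold LL nb
    rw [hu]
    have h3 : ∀ i : Fin d, z + e + Pi.single i 1 = z + Pi.single i 1 + e := fun i => by abel
    have h4 : ∀ i : Fin d, z + e - Pi.single i 1 = z - Pi.single i 1 + e := fun i => by abel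
    simp only [h3, h4]
    rw [mul_sub, sub_sub_sub_comm, ← Finset.sum_sub_distrib]
    congr 1
    exact Finset.sum_congr rfl fun i _ => by ring
  rw [h2, mul_comm]

theorem sum_energy {g : Zd d → ℝ} (hg : FS g) :
    ∑ j : Fin d, ∑' z, ∑ i : Fin d, ((g (z + Pi.single i 1 + Pi.single j 1) -
      g (z + Pi.single i 1)) - (g (z + Pi.single j 1) - g z)) ^ 2 = ∑' z, LL g z ^ 2 := by
  have hL : FS (LL g) := hg.LL'
  have h1 : ∀ j : Fin d, ∑' z, ∑ i : Fin d, ((g (z + Pi.single i 1 + Pi.single j 1) -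
      g (z + Pi.single i 1)) - (g (z + Pi.single j 1) - g z)) ^ 2 =
      ∑' z, LL g z * (2 * g z - g (z + Pi.single j 1) - g (z - Pi.single j 1)) := by
    intro j
    rw [energy_diff hg, ibp1 hL]
  simp_rw [h1]
  rw [← Summable.tsum_finsetSum (fun j _ => (hL.mulR _).sum_able)]
  refine tsum_congr fun z => ?_
  rw [← Finset.mul_sum, ← LL_eq, sq]

/-! ### contraction -/

theorem FS.Av' {f : Zd d → ℝ} (h : FS f) : FS (Av f) := h.nb'.div _

theorem tsum_Av (hd : 1 ≤ d) {f : Zd d → ℝ} (hf : FS f) : ∑' z, Av f z = ∑' z, f z := by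
  have h1 : ∀ z, Av f z = (∑ i : Fin d, (f (z + Pi.single i 1) + f (z - Pi.single i 1))) /
      (2 * d) := fun z => rfl
  simp_rw [h1]
  have h0 : ∀ i ∈ (Finset.univ : Finset (Fin d)), Summable fun z : Zd d =>
      (f (z + Pi.single i 1) + f (z - Pi.single i 1)) := fun i _ =>
    ((hf.shift (Pi.single i 1)).add (hf.shift' (Pi.single i 1))).sum_able
  rw [tsum_div_const, Summable.tsum_finsetSum h0]
  have h2 : ∀ i : Fin d, ∑' z : Zd d, (f (z + Pi.single i 1) + f (z - Pi.single i 1)) =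
      2 * ∑' z, f z := by
    intro i
    rw [(hf.shift (Pi.single i 1)).sum_able.tsum_add (hf.shift' (Pi.single i 1)).sum_able,
      tsum_shift, tsum_shift']
    ring
  simp_rw [h2]
  rw [Finset.sum_const, Finset.card_univ, Fintype.card_fin, nsmul_eq_mul]
  have hd' : (d : ℝ) ≠ 0 := by
    have : (0 : ℝ) < d := by exact_mod_cast hd
    exact this.ne'
  field_simp

theorem Av_sq_le (hd : 1 ≤ d) (f : Zd d → ℝ) (z : Zd d) : Av f z ^ 2 ≤ Av (fun x => f x ^ 2) z := by
  have h1 : ∀ (f : Zd d → ℝ) z, Av f z = (∑ i : Fin d, (f (z + Pi.single i 1) +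
      f (z - Pi.single i 1))) / (2 * d) := fun f z => rfl
  rw [h1, h1]
  have hd' : (0 : ℝ) < d := by exact_mod_cast hd
  rw [div_pow, div_le_div_iff₀ (by positivity) (by positivity)]
  have h2 := sq_sum_le_card_mul_sum_sq (s := (Finset.univ : Finset (Fin d)))
    (f := fun i => f (z + Pi.single i 1) + f (z - Pi.single i 1))
  rw [Finset.card_univ, Fintype.card_fin] at h2
  have h3 : ∑ i : Fin d, (f (z + Pi.single i 1) + f (z - Pi.single i 1)) ^ 2 ≤
      2 * ∑ i : Fin d, (f (z + Pi.single i 1) ^ 2 + f (z - Pi.single i 1) ^ 2) := by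
    rw [Finset.mul_sum]
    refine Finset.sum_le_sum fun i _ => ?_
    nlinarith [sq_nonneg (f (z + Pi.single i 1) - f (z - Pi.single i 1))]
  have h4 : (∑ i : Fin d, (f (z + Pi.single i 1) + f (z - Pi.single i 1))) ^ 2 ≤
      (2 * d) * ∑ i : Fin d, (f (z + Pi.single i 1) ^ 2 + f (z - Pi.single i 1) ^ 2) := by
    refine h2.trans ?_
    have := mul_le_mul_of_nonneg_left h3 hd'.le
    linarith
  have h5 := mul_le_mul_of_nonneg_right h4 (show (0 : ℝ) ≤ 2 * d by positivity)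
  calc _ ≤ _ := h5
    _ = _ := by ring

theorem iter (hd : 1 ≤ d) {f : Zd d → ℝ} (hf : FS f) (n : ℕ) :
    FS (Av^[n] f) ∧ ∑' z, (Av^[n] f) z ^ 2 ≤ ∑' z, f z ^ 2 := by
  induction n with
  | zero => exact ⟨hf, le_rfl⟩
  | succ n ih =>
    obtain ⟨h1, h2⟩ := ih
    rw [Function.iterate_succ_apply']
    refine ⟨h1.Av', le_trans ?_ h2⟩
    rw [← tsum_Av hd h1.sq]
    exact Summable.tsum_le_tsum (fun z => Av_sq_le hd _ z) h1.Av'.sq.sum_able h1.sq.Av'.sum_able

theorem FS.Gn' (hd : 1 ≤ d) {f : Zd d → ℝ} (hf : FS f) (N : ℕ) : FS (Gn N f) :=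
  (FS.sum _ fun n _ => (iter hd hf n).1).div _

theorem LL_Gn_sq (hd : 1 ≤ d) {f : Zd d → ℝ} (hf : FS f) (N : ℕ) :
    ∑' z, LL (Gn N f) z ^ 2 ≤ 4 * ∑' z, f z ^ 2 := by
  obtain ⟨h1, h2⟩ := iter hd hf N
  have h3 : ∀ z, LL (Gn N f) z = f z - (Av^[N] f) z := fun z =>
    Pool.Agent.H4R2.HD.BA.param hd N f z
  simp_rw [h3]
  have h4 : ∑' z, (f z - (Av^[N] f) z) ^ 2 ≤ ∑' z, (2 * f z ^ 2 + 2 * (Av^[N] f) z ^ 2) := by
    refine Summable.tsum_le_tsum (fun z => ?_) (hf.sub h1).sq.sum_able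
      ((hf.sq.mulL fun _ => 2).add (h1.sq.mulL fun _ => 2)).sum_able
    nlinarith [sq_nonneg (f z + (Av^[N] f) z)]
  refine h4.trans ?_
  rw [(hf.sq.mulL fun _ => 2).sum_able.tsum_add (h1.sq.mulL fun _ => 2).sum_able,
    tsum_mul_left, tsum_mul_left]
  linarith

/-! ### positivity of the parametrix, zero extension -/

theorem Av_nonneg {f : Zd d → ℝ} (h : ∀ z, 0 ≤ f z) (z : Zd d) : 0 ≤ Av f z :=
  div_nonneg (Finset.sum_nonneg fun _ _ => add_nonneg (h _) (h _)) (by positivity)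

theorem iter_nonneg {f : Zd d → ℝ} (h : ∀ z, 0 ≤ f z) (n : ℕ) (z : Zd d) :
    0 ≤ (Av^[n] f) z := by
  induction n generalizing z with
  | zero => exact h z
  | succ n ih =>
    rw [Function.iterate_succ_apply']
    exact Av_nonneg ih z

theorem Gn_nonneg {f : Zd d → ℝ} (h : ∀ z, 0 ≤ f z) (N : ℕ) (z : Zd d) : 0 ≤ Gn N f z :=
  div_nonneg (Finset.sum_nonneg fun _ _ => iter_nonneg h _ _) (by positivity)

theorem ind_nonneg (x z : Zd d) : 0 ≤ ind x z := by
  unfold ind
  split_ifs <;> norm_num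

theorem FS_Wz (Λ : Finset (Zd d)) (f : Λ → ℝ) : FS (Wz Λ f) := by
  refine Set.Finite.subset Λ.finite_toSet fun z hz => ?_
  by_contra hcon
  apply hz
  unfold Wz
  exact dif_neg hcon

theorem tsum_Wz (Λ : Finset (Zd d)) (f : Λ → ℝ) : ∑' z, Wz Λ f z ^ 2 = ∑ y, f y ^ 2 := by
  rw [tsum_eq_sum (s := Λ)]
  · rw [← Finset.sum_coe_sort Λ]
    refine Finset.sum_congr rfl fun y _ => ?_
    unfold Wz
    rw [dif_pos y.2]
  · intro z hz
    unfold Wz
    rw [dif_neg hz]
    norm_num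

/-! ### the statement -/

theorem FS_Qg {g : Zd d → ℝ} (h : FS g) : FS (Qg g) := by
  have h1 : FS fun z => ∑ i : Fin d, ((g (z + Pi.single i 1) - g z) ^ 2 +
      (g z - g (z - Pi.single i 1)) ^ 2) :=
    FS.sum _ fun i _ => (((h.shift _).sub h).sq).add ((h.sub (h.shift' _)).sq)
  exact h1

theorem Qg_nonneg (g : Zd d → ℝ) (z : Zd d) : 0 ≤ Qg g z :=
  Finset.sum_nonneg fun _ _ => add_nonneg (sq_nonneg _) (sq_nonneg _)

theorem on3 (h1 : S_ON1) (h2 : S_ON2) : S_ON3 := by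
  intro N hN Λ f F x
  have hd : 1 ≤ 2 := by norm_num
  set g : Zd 2 → ℝ := Gn N (Wz Λ f) with hg
  set q : Zd 2 → ℝ := Gn N (ind x) with hq
  have hFg : FS g := FS.Gn' hd (FS_Wz Λ f) N
  have hFQ : FS (Qg g) := FS_Qg hFg
  have hq0 : ∀ z, 0 ≤ q z := Gn_nonneg (ind_nonneg x) N
  have hN0 : (0 : ℝ) ≤ N := Nat.cast_nonneg N
  -- the two families of differences
  have hE : ∀ j : Fin 2, ∑' z, (q z * (g (z + Pi.single j 1) - g z) ^ 2) ≤
      N / 2 * ∑' z, ∑ i : Fin 2, ((g (z + Pi.single i 1 + Pi.single j 1) -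
        g (z + Pi.single i 1)) - (g (z + Pi.single j 1) - g z)) ^ 2 +
      ∑' z, (g (z + Pi.single j 1) - g z) ^ 2 := fun j =>
    h2 N hN x (fun z => g (z + Pi.single j 1) - g z) ((hFg.shift _).sub hFg)
  have hE' : ∀ j : Fin 2, ∑' z, (q z * (g z - g (z - Pi.single j 1)) ^ 2) ≤
      N / 2 * ∑' z, ∑ i : Fin 2, ((g (z + Pi.single i 1 + Pi.single j 1) -
        g (z + Pi.single i 1)) - (g (z + Pi.single j 1) - g z)) ^ 2 +
      ∑' z, (g z - g (z - Pi.single j 1)) ^ 2 := by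
    intro j
    refine (h2 N hN x (fun z => g z - g (z - Pi.single j 1)) (hFg.sub (hFg.shift' _))).trans ?_
    refine le_of_eq ?_
    congr 2
    refine Eq.trans ?_ (tsum_shift' (fun z => ∑ i : Fin 2, ((g (z + Pi.single i 1 +
      Pi.single j 1) - g (z + Pi.single i 1)) - (g (z + Pi.single j 1) - g z)) ^ 2)
      (Pi.single j 1))
    refine tsum_congr fun z => Finset.sum_congr rfl fun i _ => ?_
    have e1 : z - Pi.single j 1 + Pi.single i 1 + Pi.single j 1 = z + Pi.single i 1 := by abel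
    have e2 : z - Pi.single j 1 + Pi.single i 1 = z + Pi.single i 1 - Pi.single j 1 := by abel
    rw [e1, e2, sub_add_cancel]
  have hs1 : ∀ j : Fin 2, FS fun z => (g (z + Pi.single j 1) - g z) ^ 2 := fun j =>
    ((hFg.shift _).sub hFg).sq
  have hs2 : ∀ j : Fin 2, FS fun z => (g z - g (z - Pi.single j 1)) ^ 2 := fun j =>
    (hFg.sub (hFg.shift' _)).sq
  -- the sum of the weighted squares
  have hA : ∑' z, q z * Qg g z = ∑ j : Fin 2, (∑' z, (q z * (g (z + Pi.single j 1) - g z) ^ 2) +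
      ∑' z, (q z * (g z - g (z - Pi.single j 1)) ^ 2)) := by
    have e1 : ∀ j : Fin 2, ∑' z, (q z * (g (z + Pi.single j 1) - g z) ^ 2) +
        ∑' z, (q z * (g z - g (z - Pi.single j 1)) ^ 2) =
        ∑' z, (q z * (g (z + Pi.single j 1) - g z) ^ 2 +
          q z * (g z - g (z - Pi.single j 1)) ^ 2) := fun j =>
      (((hs1 j).mulL q).sum_able.tsum_add ((hs2 j).mulL q).sum_able).symm
    simp_rw [e1]
    rw [← Summable.tsum_finsetSum fun j _ => (((hs1 j).mulL q).add ((hs2 j).mulL q)).sum_able]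
    refine tsum_congr fun z => ?_
    unfold Qg
    rw [Finset.mul_sum]
    exact Finset.sum_congr rfl fun j _ => by ring
  have hB : ∑' z, Qg g z = ∑ j : Fin 2, (∑' z, (g (z + Pi.single j 1) - g z) ^ 2 +
      ∑' z, (g z - g (z - Pi.single j 1)) ^ 2) := by
    have e1 : ∀ j : Fin 2, ∑' z, (g (z + Pi.single j 1) - g z) ^ 2 +
        ∑' z, (g z - g (z - Pi.single j 1)) ^ 2 =
        ∑' z, ((g (z + Pi.single j 1) - g z) ^ 2 + (g z - g (z - Pi.single j 1)) ^ 2) := fun j =>
      ((hs1 j).sum_able.tsum_add (hs2 j).sum_able).symm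
    simp_rw [e1]
    rw [← Summable.tsum_finsetSum fun j _ => ((hs1 j).add (hs2 j)).sum_able]
    rfl
  have hC : ∑' z, Qg g z ≤ N * ∑ y, f y ^ 2 := by
    have hfin : (Function.support (Qg g)).Finite := hFQ
    rw [tsum_eq_sum (s := hfin.toFinset) fun z hz => by
      rw [Set.Finite.mem_toFinset, Function.notMem_support] at hz
      exact hz]
    have h3 := h1 hd N Λ f hfin.toFinset
    have h4 : (2 : ℝ) * N / ((2 : ℕ) : ℝ) = N := by
      push_cast
      ring
    rw [h4] at h3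
    exact h3
  have hD : ∑' z, LL g z ^ 2 ≤ 4 * ∑ y, f y ^ 2 := by
    rw [← tsum_Wz Λ f]
    exact LL_Gn_sq hd (FS_Wz Λ f) N
  have hX : ∑ z ∈ F, q z * Qg g z ≤ ∑' z, q z * Qg g z :=
    (hFQ.mulL q).sum_able.sum_le_tsum F fun z _ => mul_nonneg (hq0 z) (Qg_nonneg g z)
  refine hX.trans ?_
  rw [hA]
  have hY : ∑ j : Fin 2, (∑' z, (q z * (g (z + Pi.single j 1) - g z) ^ 2) +
      ∑' z, (q z * (g z - g (z - Pi.single j 1)) ^ 2)) ≤
      ∑ j : Fin 2, ((N / 2 * ∑' z, ∑ i : Fin 2, ((g (z + Pi.single i 1 + Pi.single j 1) -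
        g (z + Pi.single i 1)) - (g (z + Pi.single j 1) - g z)) ^ 2 +
      ∑' z, (g (z + Pi.single j 1) - g z) ^ 2) +
      (N / 2 * ∑' z, ∑ i : Fin 2, ((g (z + Pi.single i 1 + Pi.single j 1) -
        g (z + Pi.single i 1)) - (g (z + Pi.single j 1) - g z)) ^ 2 +
      ∑' z, (g z - g (z - Pi.single j 1)) ^ 2)) :=
    Finset.sum_le_sum fun j _ => add_le_add (hE j) (hE' j)
  refine hY.trans ?_
  have hZ : ∑ j : Fin 2, ((N / 2 * ∑' z, ∑ i : Fin 2, ((g (z + Pi.single i 1 + Pi.single j 1) -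
        g (z + Pi.single i 1)) - (g (z + Pi.single j 1) - g z)) ^ 2 +
      ∑' z, (g (z + Pi.single j 1) - g z) ^ 2) +
      (N / 2 * ∑' z, ∑ i : Fin 2, ((g (z + Pi.single i 1 + Pi.single j 1) -
        g (z + Pi.single i 1)) - (g (z + Pi.single j 1) - g z)) ^ 2 +
      ∑' z, (g z - g (z - Pi.single j 1)) ^ 2)) = N * ∑' z, LL g z ^ 2 + ∑' z, Qg g z := by
    rw [← sum_energy hFg, hB, Finset.mul_sum, ← Finset.sum_add_distrib]
    exact Finset.sum_congr rfl fun j _ => by ring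
  rw [hZ]
  have := mul_le_mul_of_nonneg_left hD hN0
  linarith

end Pool.Agent.H4R2.TD.ON3
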