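import Pool.Agent.H4R2.TD.Defs

/-!
# Linear sub-Gaussian concentration
-/

set_option autoImplicit false

open scoped BigOperators ENNReal
open MeasureTheory

namespace Pool.Agent.H4R2.TD.SG

open Pool.Agent.H4R2.LO (Zd dd adj AL bx FB cut Reg)
open Pool.Agent.H4R2.HD (Av Gn ind)

theorem SG_one {ι : Type} [Fintype ι] (μ : Measure ℝ) [IsProbabilityMeasure μ] (b : ℝ)
    (hb : SubG b μ) (a : ι → ℝ) (S t : ℝ) (hS : ∑ z, a z ^ 2 ≤ S) (hS0 : 0 < S) (ht : 0 ≤ t) :
    (Measure.pi fun _ : ι => μ).real {V | t < ∑ z, a z * V z} ≤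
      Real.exp (-(t ^ 2 / (2 * b * S))) := by
  obtain ⟨hb0, hexp⟩ := hb
  obtain ⟨P, hP⟩ : ∃ P : Measure (ι → ℝ), P = Measure.pi fun _ : ι => μ := ⟨_, rfl⟩
  have hPprob : IsProbabilityMeasure P := by
    rw [hP]
    infer_instance
  obtain ⟨l, hl⟩ : ∃ l : ℝ, l = t / (b * S) := ⟨_, rfl⟩
  have hl0 : 0 ≤ l := by
    rw [hl]
    positivity
  have hprod : (fun V : ι → ℝ => Real.exp (l * ∑ z, a z * V z)) =
      fun V => ∏ z, Real.exp ((l * a z) * V z) := by
    funext V
    rw [← Real.exp_sum, Finset.mul_sum]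
    congr 1
    exact Finset.sum_congr rfl fun z _ => by ring
  have hint : Integrable (fun V : ι → ℝ => Real.exp (l * ∑ z, a z * V z)) P := by
    rw [hprod, hP]
    exact Integrable.fintype_prod (f := fun z x => Real.exp ((l * a z) * x))
      (fun z => (hexp (l * a z)).1)
  have hmean : ∫ V, Real.exp (l * ∑ z, a z * V z) ∂P ≤ Real.exp (t ^ 2 / (2 * b * S)) := by
    rw [hprod, hP, integral_fintype_prod_eq_prod (f := fun z x => Real.exp ((l * a z) * x))]
    refine (Finset.prod_le_prod (fun z _ => integral_nonneg fun x => (Real.exp_pos _).le)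
      (fun z _ => (hexp (l * a z)).2)).trans ?_
    rw [← Real.exp_sum]
    apply Real.exp_le_exp.2
    have e1 : ∑ z, b * (l * a z) ^ 2 / 2 = b * l ^ 2 / 2 * ∑ z, a z ^ 2 := by
      rw [Finset.mul_sum]
      exact Finset.sum_congr rfl fun z _ => by ring
    rw [e1]
    have e2 : b * l ^ 2 / 2 * ∑ z, a z ^ 2 ≤ b * l ^ 2 / 2 * S :=
      mul_le_mul_of_nonneg_left hS (by positivity)
    refine e2.trans (le_of_eq ?_)
    rw [hl]
    field_simp
  have hmk := mul_meas_ge_le_integral_of_nonneg (μ := P)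
    (f := fun V => Real.exp (l * ∑ z, a z * V z))
    (Filter.Eventually.of_forall fun ω => (Real.exp_pos _).le) hint (Real.exp (l * t))
  have hsub : {V : ι → ℝ | t < ∑ z, a z * V z} ⊆
      {V | Real.exp (l * t) ≤ Real.exp (l * ∑ z, a z * V z)} := by
    intro V hV
    simp only [Set.mem_ofPred_eq] at hV ⊢
    exact Real.exp_le_exp.2 (mul_le_mul_of_nonneg_left hV.le hl0)
  have hmono : P.real {V | t < ∑ z, a z * V z} ≤
      P.real {V | Real.exp (l * t) ≤ Real.exp (l * ∑ z, a z * V z)} := measureReal_mono hsub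
  have h1 : Real.exp (l * t) * P.real {V | t < ∑ z, a z * V z} ≤
      Real.exp (t ^ 2 / (2 * b * S)) :=
    (mul_le_mul_of_nonneg_left hmono (Real.exp_pos _).le).trans (hmk.trans hmean)
  rw [← hP]
  have h2 : P.real {V | t < ∑ z, a z * V z} ≤
      Real.exp (t ^ 2 / (2 * b * S)) / Real.exp (l * t) := by
    rw [le_div_iff₀ (Real.exp_pos _)]
    linarith
  refine h2.trans (le_of_eq ?_)
  rw [← Real.exp_sub]
  congr 1
  rw [hl]
  field_simp
  ring

theorem SG : S_SG := by
  intro ι _ μ _ b hb a S t hS hS0 ht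
  have h1 := SG_one μ b hb a S t hS hS0 ht
  have h2 := SG_one μ b hb (fun z => -a z) S t (by simpa using hS) hS0 ht
  have hsub : {V : ι → ℝ | t < |∑ z, a z * V z|} ⊆
      {V | t < ∑ z, a z * V z} ∪ {V | t < ∑ z, (-a z) * V z} := by
    intro V hV
    simp only [Set.mem_ofPred_eq, Set.mem_union] at hV ⊢
    rcases lt_abs.1 hV with h | h
    · exact Or.inl h
    · right
      have e : ∑ z, (-a z) * V z = -∑ z, a z * V z := by
        rw [← Finset.sum_neg_distrib]
        exact Finset.sum_congr rfl fun z _ => by ring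
      rw [e]
      exact h
  refine (measureReal_mono hsub).trans ((measureReal_union_le _ _).trans ?_)
  linarith

end Pool.Agent.H4R2.TD.SG
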