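import Pool.Agent.H4R2.TD.Defs
import Pool.Agent.H4R2.HD.BA

/-! Task SY: symmetry and translation invariance of the kernel. -/

set_option autoImplicit false

open scoped BigOperators

namespace Pool.Agent.H4R2.TD.SY

open Pool.Agent.H4R2.LO (Zd dd adj AL bx FB cut Reg)
open Pool.Agent.H4R2.HD (Av Gn ind)
open Pool.Agent.H12R2.And (V ee)

variable {d : ℕ}

lemma ind_add (x y e : V d) : ind x (y + e) = ind (x - e) y := by
  unfold ind
  by_cases h : y + e = x
  · rw [if_pos h, if_pos (by rw [← h]; abel)]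
  · rw [if_neg h, if_neg (fun h' => h (by rw [h']; abel))]

lemma ind_sub (x y e : V d) : ind x (y - e) = ind (x + e) y := by
  unfold ind
  by_cases h : y - e = x
  · rw [if_pos h, if_pos (by rw [← h]; abel)]
  · rw [if_neg h, if_neg (fun h' => h (by rw [h']; abel))]

lemma Av_shift (f : V d → ℝ) (w : V d) :
    Av (fun y => f (y - w)) = fun y => Av f (y - w) := by
  funext x
  unfold Av
  congr 1
  refine Finset.sum_congr rfl fun i _ => ?_
  have e1 : x + ee i - w = x - w + ee i := by abel
  have e2 : x - ee i - w = x - w - ee i := by abel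
  show f (x + ee i - w) + f (x - ee i - w) = f (x - w + ee i) + f (x - w - ee i)
  rw [e1, e2]

lemma iter_shift (n : ℕ) (f : V d → ℝ) (w : V d) :
    Av^[n] (fun y => f (y - w)) = fun y => (Av^[n] f) (y - w) := by
  induction n with
  | zero => rfl
  | succ n ih => rw [Function.iterate_succ_apply', ih, Av_shift, Function.iterate_succ_apply']

lemma Av_ind (x : V d) : Av (ind x) = fun y => (2 * (d : ℝ))⁻¹ *
    ∑ i : Fin d, (ind (x - ee i) y + ind (x + ee i) y) := by
  funext y
  unfold Av
  rw [div_eq_inv_mul]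
  congr 1
  refine Finset.sum_congr rfl fun i _ => ?_
  rw [ind_add, ind_sub]

lemma iter_lin (n : ℕ) (x z : V d) : (Av^[n] (Av (ind x))) z = (2 * (d : ℝ))⁻¹ *
    ∑ i : Fin d, ((Av^[n] (ind (x - ee i))) z + (Av^[n] (ind (x + ee i))) z) := by
  rw [Av_ind, HD.BA.iter_smul n (2 * (d : ℝ))⁻¹
    (fun y => ∑ i : Fin d, (ind (x - ee i) y + ind (x + ee i) y))]
  beta_reduce
  congr 1
  rw [HD.BA.iter_sum Finset.univ n (fun (i : Fin d) (y : V d) =>
    ind (x - ee i) y + ind (x + ee i) y)]
  beta_reduce
  refine Finset.sum_congr rfl fun i _ => ?_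
  rw [HD.BA.iter_add n (ind (x - ee i)) (ind (x + ee i))]

lemma symm (n : ℕ) (z x : V d) : (Av^[n] (ind z)) x = (Av^[n] (ind x)) z := by
  induction n generalizing x z with
  | zero =>
    show ind z x = ind x z
    unfold ind
    by_cases h : x = z
    · rw [if_pos h, if_pos h.symm]
    · rw [if_neg h, if_neg (fun h' => h h'.symm)]
  | succ n ih =>
    rw [Function.iterate_succ_apply', Function.iterate_succ_apply, iter_lin]
    unfold Av
    rw [div_eq_inv_mul]
    congr 1
    refine Finset.sum_congr rfl fun i _ => ?_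
    rw [add_comm]
    exact congrArg₂ (· + ·) (ih z (x - ee i)) (ih z (x + ee i))

theorem SY : S_SY := by
  intro d n z x w
  refine ⟨symm n z x, ?_⟩
  have h1 : (ind (z + w) : V d → ℝ) = fun y => ind z (y - w) := by
    funext y
    rw [ind_sub]
  rw [h1, iter_shift]
  show (Av^[n] (ind z)) (x + w - w) = (Av^[n] (ind z)) x
  rw [add_sub_cancel_right]

end Pool.Agent.H4R2.TD.SY
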